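import Pool.Agent.GT.Defs

/-!
Spans of products of forms.
-/

set_option autoImplicit false

open Filter MvPolynomial

namespace Pool.Agent.GT

theorem prodSpan_snoc {k ι : Type} [Field k] {j : ℕ} (Φ : Fin j → ι → MvPolynomial ι k)
    (Ψ : ι → MvPolynomial ι k) :
    prodSpan (Fin.snoc (α := fun _ => ι → MvPolynomial ι k) Φ Ψ) =
      prodSpan Φ * Submodule.span k (Set.range Ψ) := by
  unfold prodSpan
  rw [Submodule.span_mul_span]
  congr 1
  ext x
  simp only [Set.mem_range, Set.mem_mul]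
  constructor
  · rintro ⟨φ, rfl⟩
    refine ⟨_, ⟨fun i => φ i.castSucc, rfl⟩, _, ⟨φ (Fin.last j), rfl⟩, ?_⟩
    rw [Fin.prod_univ_castSucc]
    simp
  · rintro ⟨_, ⟨φ, rfl⟩, _, ⟨i, rfl⟩, rfl⟩
    refine ⟨Fin.snoc (α := fun _ => ι) φ i, ?_⟩
    rw [Fin.prod_univ_castSucc]
    simp

theorem prodSpan_hom {k ι : Type} [Field k] {j : ℕ} (Φ : Fin j → ι → MvPolynomial ι k)
    (a : Fin j → ℕ) (h : ∀ i t, (Φ i t).IsHomogeneous (a i)) :
    prodSpan Φ ≤ homogeneousSubmodule ι k (∑ i, a i) := by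
  unfold prodSpan
  rw [Submodule.span_le]
  rintro _ ⟨φ, rfl⟩
  rw [SetLike.mem_coe, mem_homogeneousSubmodule]
  exact IsHomogeneous.prod _ _ _ fun i _ => h i (φ i)

theorem rk_prodSpan_zero {k ι : Type} [Field k] {𝔭 : Ideal (MvPolynomial ι k)}
    (h𝔭 : 𝔭.IsPrime) (Φ : Fin 0 → ι → MvPolynomial ι k) : rk 𝔭 (prodSpan Φ) = 1 := by
  unfold rk prodSpan
  rw [Submodule.map_span]
  have h1 : (Ideal.Quotient.mkₐ k 𝔭).toLinearMap ''
      (Set.range fun φ : Fin 0 → ι => ∏ i, Φ i (φ i)) = {1} := by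
    ext x
    simp only [Set.mem_image, Set.mem_range, Set.mem_singleton_iff]
    constructor
    · rintro ⟨_, ⟨φ, rfl⟩, rfl⟩
      simp
    · rintro rfl
      exact ⟨1, ⟨fun i => i.elim0, by simp⟩, by simp⟩
  rw [h1]
  have : (1 : MvPolynomial ι k ⧸ 𝔭) ≠ 0 := by
    intro h
    apply h𝔭.ne_top
    rw [Ideal.eq_top_iff_one, ← Ideal.Quotient.eq_zero_iff_mem, map_one, h]
  exact finrank_span_singleton this

theorem pick_indep {k ι : Type} [Field k] [Finite ι] (𝔭 : Ideal (MvPolynomial ι k)) {j s : ℕ}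
    (Φ : Fin j → ι → MvPolynomial ι k) (hs : s ≤ rk 𝔭 (prodSpan Φ)) :
    ∃ φ : Fin s → Fin j → ι, ∀ c : Fin s → k,
      (∑ u, C (c u) * ∏ i, Φ i (φ u i)) ∈ 𝔭 → c = 0 := by
  classical
    set f : (Fin j → ι) → MvPolynomial ι k ⧸ 𝔭 := fun φ => Ideal.Quotient.mk 𝔭 (∏ i, Φ i (φ i))
    with hf
  have h1 : rk 𝔭 (prodSpan Φ) = Module.finrank k (Submodule.span k (Set.range f)) := by
    unfold rk prodSpan
    rw [Submodule.map_span, ← Set.range_comp]
    rfl
  rw [h1] at hs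
  obtain ⟨t, ht, hspan, hli⟩ := exists_linearIndependent k (Set.range f)
  have hfin : (Set.range f).Finite := Set.finite_range f
  have htf : t.Finite := hfin.subset ht
  have := htf.fintype
  have hcard : Module.finrank k (Submodule.span k (Set.range f)) = Fintype.card t := by
    rw [← hspan]
    have := finrank_span_eq_card hli
    rwa [Subtype.range_coe] at this
  rw [hcard] at hs
  obtain ⟨e⟩ : Nonempty (Fin s ↪ t) :=
    Function.Embedding.nonempty_of_card_le (by simpa using hs)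
  have hch : ∀ u : Fin s, ∃ φ, f φ = (e u : MvPolynomial ι k ⧸ 𝔭) := fun u => ht (e u).2
  choose φ hφ using hch
  refine ⟨φ, fun c hc => ?_⟩
  have hli2 : LinearIndependent k fun u : Fin s => ((e u : t) : MvPolynomial ι k ⧸ 𝔭) :=
    hli.comp e e.injective
  rw [Fintype.linearIndependent_iff] at hli2
  funext u
  refine hli2 c ?_ u
  rw [← Ideal.Quotient.eq_zero_iff_mem, map_sum] at hc
  rw [← hc]
  refine Finset.sum_congr rfl fun v _ => ?_
  rw [← hφ v, map_mul]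
  show c v • Ideal.Quotient.mk 𝔭 (∏ i, Φ i (φ v i)) = _
  rw [← Ideal.Quotient.mk_eq_mk, ← Submodule.Quotient.mk_smul, Ideal.Quotient.mk_eq_mk,
    MvPolynomial.smul_eq_C_mul, map_mul]
  rfl

end Pool.Agent.GT
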