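import Pool.Agent.GT.Defs

/-!
Project GT (MP_e3c919_ag), row T1: transfer between the ultrapower and the levels
(helper82 for helper4).
-/

set_option autoImplicit false

open Filter MvPolynomial

namespace Pool.Agent.GT

/-- The class of the values of a finite sum of monomials. -/
theorem t1_cl_sum {K ι : Type} [Field K] (S : Finset (ι →₀ ℕ)) (f : (ι →₀ ℕ) → ℕ → K)
    (z : ℕ → ι → K) :
    cl (fun N => ∑ m ∈ S, f m N * ∏ i ∈ m.support, z N i ^ m i) =
      ∑ m ∈ S, cl (f m) * ∏ i ∈ m.support, gpt z i ^ m i := by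
  rw [cl_sum S fun m N => f m N * ∏ i ∈ m.support, z N i ^ m i]
  refine Finset.sum_congr rfl fun m _ => ?_
  rw [cl_mul (f m) fun N => ∏ i ∈ m.support, z N i ^ m i,
    cl_prod m.support fun i N => z N i ^ m i]
  congr 1

/-- The value of a finite sum of monomials. -/
theorem t1_eval_sum {k ι : Type} [CommSemiring k] (S : Finset (ι →₀ ℕ)) (c : (ι →₀ ℕ) → k)
    (x : ι → k) :
    eval x (∑ m ∈ S, monomial m (c m)) = ∑ m ∈ S, c m * ∏ i ∈ m.support, x i ^ m i := by
  rw [map_sum]
  refine Finset.sum_congr rfl fun m _ => ?_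
  rw [eval_monomial, Finsupp.prod]

theorem exists_level {K ι : Type} [Field K] (G : MvPolynomial ι (Kst K)) :
    ∃ H : ℕ → MvPolynomial ι K, (∀ b, G.IsHomogeneous b → ∀ N, (H N).IsHomogeneous b) ∧
      ∀ z : ℕ → ι → K, eval (gpt z) G = cl fun N => eval (z N) (H N) := by
  choose f hf using fun m : ι →₀ ℕ => cl_surj (G.coeff m)
  refine ⟨fun N => ∑ m ∈ G.support, monomial m (f m N), fun b hb N => ?_, fun z => ?_⟩
  · refine IsHomogeneous.sum _ _ _ fun m hm => isHomogeneous_monomial _ ?_
    rw [mem_support_iff] at hm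
    have h := hb hm
    rw [Finsupp.degree_eq_weight_one]
    exact h
  · simp only [t1_eval_sum]
    rw [t1_cl_sum, eval_eq]
    refine Finset.sum_congr rfl fun m _ => ?_
    rw [hf m]

theorem exists_germ {K ι : Type} [Field K] [Finite ι] (b : ℕ) (H : ℕ → MvPolynomial ι K)
    (hH : ∀ᶠ N in U, (H N).IsHomogeneous b) :
    ∃ G : MvPolynomial ι (Kst K), G.IsHomogeneous b ∧
      ∀ z : ℕ → ι → K, eval (gpt z) G = cl fun N => eval (z N) (H N) := by
  classical
  have := Fintype.ofFinite ι
  set S : Finset (ι →₀ ℕ) := Finset.finsuppAntidiag (Finset.univ : Finset ι) b with hS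
  have hmem : ∀ m : ι →₀ ℕ, m ∈ S ↔ m.degree = b := fun m => by
    rw [hS, Finset.mem_finsuppAntidiag, Finsupp.degree_eq_sum]
    simp
  refine ⟨∑ m ∈ S, monomial m (cl fun N => (H N).coeff m), ?_, fun z => ?_⟩
  · exact IsHomogeneous.sum _ _ _ fun m hm => isHomogeneous_monomial _ ((hmem m).1 hm)
  · rw [t1_eval_sum, ← t1_cl_sum S (fun m N => (H N).coeff m) z, cl_eq]
    filter_upwards [hH] with N hN
    rw [eval_eq]
    symm
    refine Finset.sum_subset (fun m hm => ?_) fun m _ hm => ?_
    · rw [mem_support_iff] at hm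
      rw [hmem, Finsupp.degree_eq_weight_one]
      exact hN hm
    · rw [notMem_support_iff] at hm
      rw [hm, zero_mul]

theorem eval_gpt_cst {K ι : Type} [Field K] (z : ℕ → ι → K) (G : MvPolynomial ι K) :
    eval (gpt z) (map (cst K) G) = cl fun N => eval (z N) G := by
  simp only [eval_eq (f := G)]
  rw [t1_cl_sum G.support (fun m _ => G.coeff m) z, eval_map, eval₂_eq]
  rfl

end Pool.Agent.GT
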