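import Pool.Agent.GT.Defs

/-!
The Hilbert function of a strictly larger homogeneous prime grows more slowly.
-/

set_option autoImplicit false

open Filter MvPolynomial

namespace Pool.Agent.GT

theorem drop_fin {k ι : Type} [Field k] [Finite ι] (𝔭 : Ideal (MvPolynomial ι k)) (b : ℕ) :
    Module.Finite k ((homogeneousSubmodule ι k b).map (Ideal.Quotient.mkₐ k 𝔭).toLinearMap) := by
  have h : (homogeneousSubmodule ι k b).FG := homogeneousSubmodule_fg (σ := ι) (R := k) b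
  exact Module.Finite.iff_fg.mpr (h.map _)

theorem drop_mono {k ι : Type} [Field k] [Finite ι] {𝔮 : Ideal (MvPolynomial ι k)}
    (h𝔮 : HPrime 𝔮) (i : ι) (hi : X i ∉ 𝔮) (b : ℕ) : HF 𝔮 b ≤ HF 𝔮 (b + 1) := by
  have := h𝔮.prime
  have := drop_fin 𝔮 (b + 1)
  set x : MvPolynomial ι k ⧸ 𝔮 := Ideal.Quotient.mk 𝔮 (X i) with hx
  have hx0 : x ≠ 0 := fun h => hi (Ideal.Quotient.eq_zero_iff_mem.1 h)
  have hinj : Function.Injective (LinearMap.mulLeft k x) := by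
    intro u v huv
    exact mul_left_cancel₀ hx0 huv
  have hle : ((homogeneousSubmodule ι k b).map
      (Ideal.Quotient.mkₐ k 𝔮).toLinearMap).map (LinearMap.mulLeft k x) ≤
      (homogeneousSubmodule ι k (b + 1)).map (Ideal.Quotient.mkₐ k 𝔮).toLinearMap := by
    rintro _ ⟨_, ⟨G, hG, rfl⟩, rfl⟩
    refine ⟨X i * G, ?_, ?_⟩
    · have h1 := (isHomogeneous_X k i).mul ((mem_homogeneousSubmodule _ _).1 hG)
      rw [add_comm] at h1
      exact (mem_homogeneousSubmodule _ _).2 h1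
    · show Ideal.Quotient.mk 𝔮 (X i * G) = x * Ideal.Quotient.mk 𝔮 G
      rw [map_mul]
  have h1 := Submodule.finrank_mono hle
  rw [← (Submodule.equivMapOfInjective _ hinj _).finrank_eq] at h1
  exact h1

theorem drop_step {k ι : Type} [Field k] [Finite ι] {𝔭 𝔮 : Ideal (MvPolynomial ι k)}
    (h𝔭 : HPrime 𝔭) (hle : 𝔭 ≤ 𝔮) (g : ℕ) (G : MvPolynomial ι k) (hG : G.IsHomogeneous g)
    (hG𝔮 : G ∈ 𝔮) (hG𝔭 : G ∉ 𝔭) (b : ℕ) : HF 𝔮 (b + g) + HF 𝔭 b ≤ HF 𝔭 (b + g) := by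
  have := h𝔭.prime
  have := drop_fin 𝔭 (b + g)
  set x : MvPolynomial ι k ⧸ 𝔭 := Ideal.Quotient.mk 𝔭 G with hx
  have hx0 : x ≠ 0 := fun h => hG𝔭 (Ideal.Quotient.eq_zero_iff_mem.1 h)
  have hinj : Function.Injective (LinearMap.mulLeft k x) := by
    intro u v huv
    exact mul_left_cancel₀ hx0 huv
  set V := (homogeneousSubmodule ι k (b + g)).map (Ideal.Quotient.mkₐ k 𝔭).toLinearMap with hV
  set W := (homogeneousSubmodule ι k b).map (Ideal.Quotient.mkₐ k 𝔭).toLinearMap with hW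
  set ψ : (MvPolynomial ι k ⧸ 𝔭) →ₗ[k] (MvPolynomial ι k ⧸ 𝔮) :=
    (Ideal.Quotient.factorₐ k hle).toLinearMap with hψ
  have hψmk : ∀ H : MvPolynomial ι k, ψ (Ideal.Quotient.mk 𝔭 H) = Ideal.Quotient.mk 𝔮 H := by
    intro H
    rfl
  have h1 := LinearMap.finrank_range_add_finrank_ker (ψ.domRestrict V)
  have h2 : LinearMap.range (ψ.domRestrict V) =
      (homogeneousSubmodule ι k (b + g)).map (Ideal.Quotient.mkₐ k 𝔮).toLinearMap := by
    ext u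
    constructor
    · rintro ⟨⟨_, ⟨H, hH, rfl⟩⟩, rfl⟩
      exact ⟨H, hH, rfl⟩
    · rintro ⟨H, hH, rfl⟩
      exact ⟨⟨Ideal.Quotient.mkₐ k 𝔭 H, ⟨H, hH, rfl⟩⟩, rfl⟩
  have h3 : W.map (LinearMap.mulLeft k x) ≤ (LinearMap.ker (ψ.domRestrict V)).map V.subtype := by
    rintro _ ⟨_, ⟨H, hH, rfl⟩, rfl⟩
    have hmem : LinearMap.mulLeft k x ((Ideal.Quotient.mkₐ k 𝔭).toLinearMap H) ∈ V := by
      refine ⟨G * H, ?_, ?_⟩
      · have h4 := hG.mul ((mem_homogeneousSubmodule _ _).1 hH)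
        rw [add_comm] at h4
        exact (mem_homogeneousSubmodule _ _).2 h4
      · show Ideal.Quotient.mk 𝔭 (G * H) = x * Ideal.Quotient.mk 𝔭 H
        rw [map_mul]
    refine ⟨⟨_, hmem⟩, ?_, rfl⟩
    show ψ.domRestrict V ⟨_, hmem⟩ = 0
    rw [LinearMap.domRestrict_apply]
    show ψ (x * Ideal.Quotient.mk 𝔭 H) = 0
    rw [hx, ← map_mul, hψmk, Ideal.Quotient.eq_zero_iff_mem]
    exact Ideal.mul_mem_right _ _ hG𝔮
  have h4 := Submodule.finrank_mono h3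
  rw [← (Submodule.equivMapOfInjective _ hinj _).finrank_eq,
    ← (Submodule.equivMapOfInjective _ V.injective_subtype _).finrank_eq] at h4
  rw [h2] at h1
  show Module.finrank k _ + Module.finrank k W ≤ Module.finrank k V
  rw [← h1]
  exact Nat.add_le_add_left h4 _

theorem drop_sum {k ι : Type} [Field k] [Finite ι] {𝔭 𝔮 : Ideal (MvPolynomial ι k)}
    (h𝔭 : HPrime 𝔭) (h𝔮 : HPrime 𝔮) (hle : 𝔭 ≤ 𝔮) (i : ι) (hi : X i ∉ 𝔮) (g : ℕ)
    (G : MvPolynomial ι k) (hG : G.IsHomogeneous g) (hG𝔮 : G ∈ 𝔮) (hG𝔭 : G ∉ 𝔭) (b m : ℕ) :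
    m * HF 𝔮 b ≤ HF 𝔭 (b + m * g) := by
  have hmono : Monotone (HF 𝔮) := monotone_nat_of_le_succ (drop_mono h𝔮 i hi)
  induction m with
  | zero => simp
  | succ m ih =>
    have h1 := drop_step h𝔭 hle g G hG hG𝔮 hG𝔭 (b + m * g)
    have h2 : HF 𝔮 b ≤ HF 𝔮 (b + m * g + g) := hmono (by omega)
    have h3 : b + (m + 1) * g = b + m * g + g := by ring
    rw [h3, add_mul, one_mul]
    omega

theorem HB_drop {k ι : Type} [Field k] [Finite ι] {𝔭 𝔮 : Ideal (MvPolynomial ι k)}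
    (h𝔭 : HPrime 𝔭) (h𝔮 : HPrime 𝔮) (hlt : 𝔭 < 𝔮) (i : ι) (hi : X i ∉ 𝔮) (w : ℕ)
    (hw : HB 𝔭 (w + 1)) : HB 𝔮 w := by
  obtain ⟨c, hc⟩ := hw
  obtain ⟨H, hH𝔮, hH𝔭⟩ := Set.exists_of_ssubset hlt
  obtain ⟨g, hg⟩ : ∃ g, homogeneousComponent g H ∉ 𝔭 := by
    by_contra h
    push Not at h
    refine hH𝔭 ?_
    have h1 : H = ∑ b ∈ Finset.range (H.totalDegree + 1), homogeneousComponent b H :=
      (sum_homogeneousComponent H).symm
    show H ∈ 𝔭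
    rw [h1]
    exact Ideal.sum_mem _ fun b _ => h b
  have hG := homogeneousComponent_isHomogeneous g H
  have hG𝔮 := h𝔮.comp H hH𝔮 g
  refine ⟨c * (1 + g) ^ w, fun b => ?_⟩
  rcases Nat.eq_zero_or_pos b with rfl | hb
  · simp
  have h1 := drop_sum h𝔭 h𝔮 hlt.le i hi g _ hG hG𝔮 hg b b
  have h2 := hc (b + b * g)
  have h3 : b + b * g = b * (1 + g) := by ring
  rw [h3] at h1 h2
  have h4 : 0 < b * (1 + g) := by positivity
  have h5 : HF 𝔭 (b * (1 + g)) ≤ c * (b * (1 + g)) ^ w := by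
    refine Nat.le_of_mul_le_mul_left ?_ h4
    calc b * (1 + g) * HF 𝔭 (b * (1 + g)) ≤ c * (b * (1 + g)) ^ (w + 1) := h2
      _ = b * (1 + g) * (c * (b * (1 + g)) ^ w) := by ring
  calc b * HF 𝔮 b ≤ HF 𝔭 (b * (1 + g)) := h1
    _ ≤ c * (b * (1 + g)) ^ w := h5
    _ = c * (1 + g) ^ w * b ^ w := by rw [mul_pow]; ring

end Pool.Agent.GT
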