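import Pool.Agent.GT.Defs

/-!
Basic facts on the Hilbert function.
-/

set_option autoImplicit false

open Filter MvPolynomial

namespace Pool.Agent.GT

theorem finite_hom {k ι : Type} [Field k] [Finite ι] (b : ℕ) :
    Module.Finite k (homogeneousSubmodule ι k b) :=
  Module.Finite.iff_fg.mpr (homogeneousSubmodule_fg (σ := ι) (R := k) b)

theorem hilb_fin {k ι : Type} [Field k] [Finite ι] (𝔭 : Ideal (MvPolynomial ι k)) (b : ℕ) :
    Module.Finite k ((homogeneousSubmodule ι k b).map (Ideal.Quotient.mkₐ k 𝔭).toLinearMap) := by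
  have h : (homogeneousSubmodule ι k b).FG := homogeneousSubmodule_fg (σ := ι) (R := k) b
  exact Module.Finite.iff_fg.mpr (h.map _)

/-- a monomial with exponents at most `b` -/
noncomputable def hilbMon (k : Type) [Field k] {ι : Type} [Finite ι] (b : ℕ)
    (g : ι → Fin (b + 1)) : MvPolynomial ι k :=
  monomial (Finsupp.equivFunOnFinite.symm fun i => (g i : ℕ)) 1

theorem hilb_le_span (k : Type) {ι : Type} [Field k] [Finite ι] (b : ℕ) :
    homogeneousSubmodule ι k b ≤ Submodule.span k (Set.range (hilbMon k (ι := ι) b)) := by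
  classical
  intro G hG
  rw [mem_homogeneousSubmodule] at hG
  rw [G.as_sum]
  refine Submodule.sum_mem _ fun m hm => ?_
  have h1 : ∀ i, m i ≤ b := by
    intro i
    have h2 := hG (mem_support_iff.1 hm)
    rw [← h2, Finsupp.weight_apply]
    by_cases h3 : i ∈ m.support
    · rw [Finsupp.sum]
      have h4 := Finset.single_le_sum (f := fun j => m j • (1 : ι → ℕ) j)
        (fun j _ => Nat.zero_le _) h3
      simpa using h4
    · rw [Finsupp.notMem_support_iff.1 h3]
      exact Nat.zero_le _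
  have h2 : monomial m (coeff m G) =
      coeff m G • hilbMon k b (fun i => (⟨m i, Nat.lt_succ_of_le (h1 i)⟩ : Fin (b + 1))) := by
    have h3 : (Finsupp.equivFunOnFinite.symm fun i => m i : ι →₀ ℕ) = m := by
      ext i
      rfl
    unfold hilbMon
    rw [smul_monomial, smul_eq_mul, mul_one]
    change monomial m (coeff m G) =
      monomial (Finsupp.equivFunOnFinite.symm fun i => m i) (coeff m G)
    rw [h3]
  rw [h2]
  exact Submodule.smul_mem _ _ (Submodule.subset_span ⟨_, rfl⟩)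

theorem HF_bot {k ι : Type} [Field k] [Fintype ι] (b : ℕ) :
    HF (⊥ : Ideal (MvPolynomial ι k)) b ≤ (b + 1) ^ Fintype.card ι := by
  classical
  unfold HF rk
  set f := (Ideal.Quotient.mkₐ k (⊥ : Ideal (MvPolynomial ι k))).toLinearMap with hf
  have h1 : (homogeneousSubmodule ι k b).map f ≤
      Submodule.span k (Set.range (f ∘ hilbMon k (ι := ι) b)) := by
    refine (Submodule.map_mono (hilb_le_span k b)).trans ?_
    rw [Submodule.map_span, ← Set.range_comp]
  have h2 : Module.Finite k (Submodule.span k (Set.range (f ∘ hilbMon k (ι := ι) b))) :=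
    Module.Finite.span_of_finite k (Set.finite_range _)
  have h3 := Submodule.finrank_mono h1
  have h4 := finrank_range_le_card (R := k) (f ∘ hilbMon k (ι := ι) b)
  refine h3.trans (h4.trans (le_of_eq ?_))
  rw [Fintype.card_fun, Fintype.card_fin]

theorem HB_bot {k ι : Type} [Field k] [Fintype ι] :
    HB (⊥ : Ideal (MvPolynomial ι k)) (Fintype.card ι + 1) := by
  refine ⟨2 ^ Fintype.card ι, fun b => ?_⟩
  rcases Nat.eq_zero_or_pos b with rfl | hb
  · rw [zero_mul]
    exact Nat.zero_le _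
  · have h1 := HF_bot (k := k) (ι := ι) b
    calc b * HF (⊥ : Ideal (MvPolynomial ι k)) b ≤ b * (b + 1) ^ Fintype.card ι :=
          Nat.mul_le_mul_left b h1
      _ ≤ b * (2 * b) ^ Fintype.card ι :=
          Nat.mul_le_mul_left b (Nat.pow_le_pow_left (by omega) _)
      _ = 2 ^ Fintype.card ι * b ^ (Fintype.card ι + 1) := by rw [mul_pow, pow_succ]; ring

theorem HB_zero {k ι : Type} [Field k] [Finite ι] {𝔭 : Ideal (MvPolynomial ι k)}
    (h𝔭 : HPrime 𝔭) (h : HB 𝔭 0) (i : ι) : X i ∈ 𝔭 := by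
  obtain ⟨c, hc⟩ := h
  have h1 := hc (c + 1)
  rw [pow_zero, mul_one] at h1
  have h2 : HF 𝔭 (c + 1) = 0 := by
    by_contra h3
    have h4 : 1 ≤ HF 𝔭 (c + 1) := Nat.one_le_iff_ne_zero.2 h3
    have h5 : (c + 1) * 1 ≤ (c + 1) * HF 𝔭 (c + 1) := Nat.mul_le_mul_left _ h4
    omega
  unfold HF rk at h2
  have h3 := hilb_fin 𝔭 (c + 1)
  rw [Submodule.finrank_eq_zero] at h2
  have h4 : (Ideal.Quotient.mkₐ k 𝔭).toLinearMap (X i ^ (c + 1)) ∈
      (homogeneousSubmodule ι k (c + 1)).map (Ideal.Quotient.mkₐ k 𝔭).toLinearMap := by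
    refine Submodule.mem_map_of_mem ?_
    rw [mem_homogeneousSubmodule]
    exact isHomogeneous_X_pow i (c + 1)
  rw [h2, Submodule.mem_bot] at h4
  exact h𝔭.prime.mem_of_pow_mem (c + 1) (Ideal.Quotient.eq_zero_iff_mem.1 h4)

theorem HF_comap {k ι : Type} [Field k] [Finite ι] (𝔭 : Ideal (MvPolynomial ι k))
    (Φ : ι → MvPolynomial ι k) (a : ℕ) (hΦ : ∀ i, (Φ i).IsHomogeneous a) (b : ℕ) :
    HF (𝔭.comap (bind₁ Φ)) b ≤ HF 𝔭 (a * b) := by
  unfold HF rk
  set 𝔮 := 𝔭.comap (bind₁ Φ) with h𝔮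
  let g : (MvPolynomial ι k ⧸ 𝔮) →ₐ[k] (MvPolynomial ι k ⧸ 𝔭) :=
    Ideal.quotientMapₐ 𝔭 (bind₁ Φ) le_rfl
  have hg : Function.Injective g.toLinearMap := by
    intro x y hxy
    obtain ⟨P, rfl⟩ := Ideal.Quotient.mk_surjective x
    obtain ⟨Q, rfl⟩ := Ideal.Quotient.mk_surjective y
    have h1 : Ideal.Quotient.mk 𝔭 (bind₁ Φ P) = Ideal.Quotient.mk 𝔭 (bind₁ Φ Q) := hxy
    rw [Ideal.Quotient.eq, ← map_sub] at h1
    exact Ideal.Quotient.eq.2 h1
  have h1 := (Submodule.equivMapOfInjective g.toLinearMap hg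
    ((homogeneousSubmodule ι k b).map (Ideal.Quotient.mkₐ k 𝔮).toLinearMap)).finrank_eq
  rw [h1]
  have h2 := hilb_fin 𝔭 (a * b)
  refine Submodule.finrank_mono ?_
  rintro _ ⟨_, ⟨G, hG, rfl⟩, rfl⟩
  refine ⟨bind₁ Φ G, ?_, rfl⟩
  have h3 : G.IsHomogeneous b := (mem_homogeneousSubmodule b G).1 hG
  change bind₁ Φ G ∈ homogeneousSubmodule ι k (a * b)
  rw [mem_homogeneousSubmodule, ← aeval_eq_bind₁]
  exact h3.aeval Φ hΦ

end Pool.Agent.GT
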