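import Pool.Agent.GT.Basic

/-!
Evaluation of forms.
-/

set_option autoImplicit false

open Filter MvPolynomial

namespace Pool.Agent.GT

/-- the value of a form at a multiple of a vector -/
theorem eval_smul_form {R ι : Type} [CommRing R] {d : ℕ} {G : MvPolynomial ι R}
    (hG : G.IsHomogeneous d) (c : R) (x : ι → R) :
    eval (fun i => c * x i) G = c ^ d * eval x G := by
  rw [MvPolynomial.eval_eq, MvPolynomial.eval_eq, Finset.mul_sum]
  refine Finset.sum_congr rfl fun m hm => ?_
  have hdeg : ∑ i ∈ m.support, m i = d := by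
    have h := hG (MvPolynomial.mem_support_iff.mp hm)
    rw [← h, Finsupp.weight_apply]
    simp [Finsupp.sum]
  rw [show ∏ i ∈ m.support, (c * x i) ^ m i = c ^ d * ∏ i ∈ m.support, x i ^ m i by
    simp only [mul_pow]
    rw [Finset.prod_mul_distrib, Finset.prod_pow_eq_pow_sum, hdeg]]
  ring

theorem eval_bind {R ι τ : Type} [CommRing R] (x : τ → R) (f : ι → MvPolynomial τ R)
    (G : MvPolynomial ι R) : eval x (bind₁ f G) = eval (fun i => eval x (f i)) G := by
  have h := MvPolynomial.eval₂Hom_bind₁ (RingHom.id R) x f G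
  exact h

theorem bind_hom {R ι τ : Type} [CommRing R] {a b : ℕ} {f : ι → MvPolynomial τ R}
    (hf : ∀ i, (f i).IsHomogeneous a) {G : MvPolynomial ι R} (hG : G.IsHomogeneous b) :
    (bind₁ f G).IsHomogeneous (a * b) := by
  rw [← MvPolynomial.aeval_eq_bind₁]
  exact hG.aeval f hf

/-- pigeonhole for finitely many subfamilies -/
theorem large_cover {T : Type} [Finite T] {θ : ℝ} {A : ℕ → Finset ℕ} (hA : Large θ A)
    (B : T → ℕ → Finset ℕ) (hB : ∀ᶠ N in U, ∀ n ∈ A N, ∃ t, n ∈ B t N) :
    ∃ t, Large θ (B t) := by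
  classical
  have := Fintype.ofFinite T
  obtain ⟨c, hc, h1⟩ := hA
  have h2 : ∀ᶠ N : ℕ in U, ∃ t, ((A N).card : ℝ) ≤ Fintype.card T * ((B t N).card : ℝ) := by
    filter_upwards [hB, h1, ev_ge 1] with N h3 h4 h5
    by_contra hcon
    push Not at hcon
    have h6 : A N ⊆ Finset.univ.biUnion fun t => B t N := by
      intro n hn
      obtain ⟨t, ht⟩ := h3 n hn
      exact Finset.mem_biUnion.mpr ⟨t, Finset.mem_univ t, ht⟩
    have h7 : (A N).card ≤ ∑ t, (B t N).card :=
      (Finset.card_le_card h6).trans Finset.card_biUnion_le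
    have h8 : 0 < c * (N : ℝ) ^ (1 - θ) :=
      mul_pos hc (Real.rpow_pos_of_pos (by exact_mod_cast h5) _)
    have h9 : 0 < ((A N).card : ℝ) := h8.trans_le h4
    have hne : (Finset.univ : Finset T).Nonempty := by
      rcases Finset.card_pos.mp (by exact_mod_cast h9) with ⟨n, hn⟩
      obtain ⟨t, -⟩ := h3 n hn
      exact ⟨t, Finset.mem_univ t⟩
    have h10 : ∑ t : T, ((Fintype.card T : ℝ) * ((B t N).card : ℝ)) <
        ∑ _t : T, ((A N).card : ℝ) := Finset.sum_lt_sum_of_nonempty hne fun t _ => hcon t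
    rw [← Finset.mul_sum, Finset.sum_const, Finset.card_univ, nsmul_eq_mul] at h10
    have h11 : (0 : ℝ) < Fintype.card T := by
      exact_mod_cast Fintype.card_pos_iff.mpr ⟨hne.choose⟩
    have h12 : (∑ t : T, ((B t N).card : ℝ)) < (A N).card := lt_of_mul_lt_mul_left h10 h11.le
    have h13 : ((A N).card : ℝ) ≤ ∑ t : T, ((B t N).card : ℝ) := by exact_mod_cast h7
    linarith
  rcases isEmpty_or_nonempty T with hT | hT
  · obtain ⟨N, t, -⟩ := h2.exists
    exact hT.elim t
  · obtain ⟨t, ht⟩ := exists_fun h2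
    obtain ⟨t₀, ht₀⟩ := exists_const t
    have hpos : (0 : ℝ) < Fintype.card T := by exact_mod_cast Fintype.card_pos
    refine ⟨t₀, c / Fintype.card T, div_pos hc hpos, ?_⟩
    filter_upwards [h1, ht, ht₀] with N h3 h4 h5
    rw [h5] at h4
    rw [div_mul_eq_mul_div, div_le_iff₀ hpos]
    linarith

end Pool.Agent.GT
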