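import Pool.Agent.GT.Split
import Pool.Agent.GT.Tools

/-!
Homogeneous primes above an ideal vanishing on a large family.
-/

set_option autoImplicit false

open Filter MvPolynomial

namespace Pool.Agent.GT

attribute [local instance] MvPolynomial.gradedAlgebra

theorem n1_dec {k ι : Type} [Field k] (G : MvPolynomial ι k) (b : ℕ) :
    ((DirectSum.decompose (homogeneousSubmodule ι k) G b : homogeneousSubmodule ι k b) :
      MvPolynomial ι k) = homogeneousComponent b G :=
  decomposition.decompose'_apply G b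

theorem n1_hom {k ι : Type} [Field k] (I : Ideal (MvPolynomial ι k)) :
    I.IsHomogeneous (homogeneousSubmodule ι k) ↔
      ∀ G ∈ I, ∀ b, homogeneousComponent b G ∈ I := by
  constructor
  · intro h G hG b
    have h1 := h b hG
    rwa [n1_dec] at h1
  · intro h b G hG
    rw [n1_dec]
    exact h G hG b

theorem hprime_bot {k ι : Type} [Field k] : HPrime (⊥ : Ideal (MvPolynomial ι k)) := by
  refine ⟨Ideal.isPrime_bot, fun G hG b => ?_⟩
  rw [Ideal.mem_bot] at hG
  rw [hG, map_zero]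
  exact Ideal.zero_mem _

theorem comp_sup {k ι : Type} [Field k] (I : Ideal (MvPolynomial ι k))
    (hI : ∀ G ∈ I, ∀ b, homogeneousComponent b G ∈ I) (b : ℕ) (H : MvPolynomial ι k)
    (hH : H.IsHomogeneous b) :
    ∀ G ∈ I ⊔ Ideal.span {H}, ∀ b, homogeneousComponent b G ∈ I ⊔ Ideal.span {H} := by
  rw [← n1_hom]
  refine Ideal.IsHomogeneous.sup ((n1_hom I).mpr hI) (Ideal.homogeneous_span _ _ ?_)
  intro x hx
  rw [Set.mem_singleton_iff] at hx
  subst hx
  exact ⟨b, (mem_homogeneousSubmodule b x).mpr hH⟩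

theorem n1_comp_bind {k ι : Type} [Field k] (Φ : ι → MvPolynomial ι k) (a : ℕ) (ha : 1 ≤ a)
    (hΦ : ∀ i, (Φ i).IsHomogeneous a) (G : MvPolynomial ι k) (b : ℕ) :
    homogeneousComponent (a * b) (bind₁ Φ G) = bind₁ Φ (homogeneousComponent b G) := by
  conv_lhs => rw [← sum_homogeneousComponent G]
  rw [map_sum, map_sum]
  have h1 : ∀ c : ℕ, homogeneousComponent (a * b) (bind₁ Φ (homogeneousComponent c G)) =
      if c = b then bind₁ Φ (homogeneousComponent b G) else 0 := by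
    intro c
    have h2 : (bind₁ Φ (homogeneousComponent c G)).IsHomogeneous (a * c) :=
      bind_hom hΦ (homogeneousComponent_isHomogeneous c G)
    rw [homogeneousComponent_of_mem ((mem_homogeneousSubmodule _ _).mpr h2)]
    by_cases hc : c = b
    · subst hc
      simp
    · rw [if_neg hc, if_neg]
      intro h3
      exact hc (Nat.eq_of_mul_eq_mul_left (by omega) h3).symm
  rw [Finset.sum_congr rfl fun c _ => h1 c, Finset.sum_ite_eq']
  split_ifs with h
  · rfl
  · rw [Finset.mem_range, not_lt] at h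
    rw [homogeneousComponent_eq_zero b G (by omega), map_zero]

theorem hprime_comap {k ι : Type} [Field k] {𝔭 : Ideal (MvPolynomial ι k)} (h𝔭 : HPrime 𝔭)
    (Φ : ι → MvPolynomial ι k) (a : ℕ) (ha : 1 ≤ a) (hΦ : ∀ i, (Φ i).IsHomogeneous a) :
    HPrime (𝔭.comap (bind₁ Φ)) := by
  have := h𝔭.prime
  refine ⟨Ideal.comap_isPrime _ _, fun G hG b => ?_⟩
  rw [Ideal.mem_comap] at hG ⊢
  have h1 := h𝔭.comp _ hG (a * b)
  have h2 := n1_comp_bind Φ a ha hΦ G b
  rw [← h2]
  exact h1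

theorem exists_prime_above {K ι : Type} [Field K] [Finite ι] (y : ℕ → ι → K) (θ : ℝ)
    (I : Ideal (MvPolynomial ι (Kst K))) (hI : ∀ G ∈ I, ∀ b, homogeneousComponent b G ∈ I)
    (A : ℕ → Finset ℕ) (hA : Large θ A) (hv : Van y (I : Set (MvPolynomial ι (Kst K))) A) :
    ∃ (𝔮 : Ideal (MvPolynomial ι (Kst K))) (A' : ℕ → Finset ℕ), HPrime 𝔮 ∧ I ≤ 𝔮 ∧
      (∀ N, A' N ⊆ A N) ∧ Large θ A' ∧ Van y (𝔮 : Set (MvPolynomial ι (Kst K))) A' := by
  classical
  let S : Set (Ideal (MvPolynomial ι (Kst K))) :=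
    {J | I ≤ J ∧ (∀ G ∈ J, ∀ b, homogeneousComponent b G ∈ J) ∧ ∃ A' : ℕ → Finset ℕ,
      (∀ N, A' N ⊆ A N) ∧ Large θ A' ∧ Van y (J : Set (MvPolynomial ι (Kst K))) A'}
  have hS : S.Nonempty := ⟨I, le_refl _, hI, A, fun N => Finset.Subset.refl _, hA, hv⟩
  obtain ⟨J, hJS, hmax⟩ := set_has_maximal_iff_noetherian.mpr
    (inferInstance : IsNoetherianRing (MvPolynomial ι (Kst K))) S hS
  obtain ⟨hIJ, hJc, A', hA'A, hA'L, hJv⟩ := hJS
  -- one step: if the form `H` vanishes on a large subfamily, it is in `J`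
  have step : ∀ (B : ℕ → Finset ℕ) (b : ℕ) (H : MvPolynomial ι (Kst K)), H.IsHomogeneous b →
      (∀ N, B N ⊆ A' N) → Large θ B →
      (∀ ν : ℕ → ℕ, (∀ᶠ N in U, ν N ∈ B N) → eval (pt y ν) H = 0) → H ∈ J := by
    intro B b H hH hB hBL hBv
    by_contra hn
    refine hmax (J ⊔ Ideal.span {H}) ⟨hIJ.trans le_sup_left, comp_sup J hJc b H hH, B,
      fun N => (hB N).trans (hA'A N), hBL, ?_⟩ ?_
    · intro ν hν G hG
      rw [SetLike.mem_coe, Submodule.mem_sup] at hG
      obtain ⟨g, hg, r, hr, rfl⟩ := hG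
      rw [Ideal.mem_span_singleton] at hr
      obtain ⟨q, rfl⟩ := hr
      rw [map_add, map_mul, hBv ν hν, zero_mul, add_zero]
      refine hJv ν ?_ g hg
      filter_upwards [hν] with N hN
      exact hB N hN
    · refine lt_of_le_of_ne le_sup_left fun h => hn ?_
      rw [h]
      exact (le_sup_right : Ideal.span {H} ≤ J ⊔ Ideal.span {H})
        (Ideal.mem_span_singleton_self H)
  refine ⟨J, A', ⟨?_, hJc⟩, hIJ, hA'A, hA'L, hJv⟩
  refine Ideal.IsHomogeneous.isPrime_of_homogeneous_mem_or_mem (𝒜 := homogeneousSubmodule ι (Kst K))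
    ((n1_hom J).mpr hJc) ?_ ?_
  · intro htop
    obtain ⟨ν, hν⟩ := large_pt hA'L
    have h1 := hJv ν hν 1 (by rw [htop]; trivial)
    rw [map_one] at h1
    exact one_ne_zero h1
  · rintro G H ⟨b, hG⟩ ⟨c, hH⟩ hGH
    rw [mem_homogeneousSubmodule] at hG hH
    obtain ⟨A₁, hA₁, hz, hnz⟩ := zero_split y A' G
    rcases large_split (A₁ := A₁) hA'L with h1 | h1
    · exact Or.inl (step A₁ b G hG hA₁ h1 hz)
    · refine Or.inr (step (fun N => A' N \ A₁ N) c H hH (fun N => Finset.sdiff_subset) h1 ?_)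
      intro ν hν
      have h2 : ∀ᶠ N in U, ν N ∈ A' N ∧ ν N ∉ A₁ N := by
        filter_upwards [hν] with N hN
        exact Finset.mem_sdiff.mp hN
      have h3 := hJv ν (h2.mono fun N hN => hN.1) (G * H) hGH
      rw [map_mul] at h3
      exact (mul_eq_zero.mp h3).resolve_left (hnz ν h2)

end Pool.Agent.GT
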