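import Pool.Agent.GT.Basic
import Pool.Agent.GT.Hilb
import Pool.Agent.GT.Drop
import Pool.Agent.GT.PrimeAbove

/-!
Few zeros, and the choice of a popular homogeneous prime of least dimension.
-/

set_option autoImplicit false

open Filter MvPolynomial

namespace Pool.Agent.GT

theorem few_zeros {K ι : Type} [Field K] [Finite ι] (y : ℕ → ι → K) (hy : ∀ n, y n ≠ 0)
    (w : ℕ) (θ : ℝ) (hmin : MinW y w θ) {𝔭 : Ideal (MvPolynomial ι (Kst K))}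
    (h𝔭 : HPrime 𝔭) (hw : HB 𝔭 (w + 1)) (κ : ℕ) (A : ℕ → Finset ℕ) (hA : InW κ A)
    (hL : Large θ A) (hv : Van y (𝔭 : Set (MvPolynomial ι (Kst K))) A) (b : ℕ)
    (G : MvPolynomial ι (Kst K)) (hG : G.IsHomogeneous b) (hGv : Van y {G} A) : G ∈ 𝔭 := by
  by_contra hG𝔭
  have hcomp := comp_sup 𝔭 h𝔭.comp b G hG
  have hvan : Van y ((𝔭 ⊔ Ideal.span {G} : Ideal (MvPolynomial ι (Kst K))) :
      Set (MvPolynomial ι (Kst K))) A := by
    intro ν hν H hH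
    obtain ⟨P, hP, Q, hQ, rfl⟩ := Submodule.mem_sup.mp (SetLike.mem_coe.mp hH)
    obtain ⟨R, rfl⟩ := Ideal.mem_span_singleton'.mp hQ
    rw [map_add, map_mul, hv ν hν P hP, hGv ν hν G (Set.mem_singleton G)]
    ring
  obtain ⟨𝔮, A', h𝔮, hle, hA', hL', hv'⟩ := exists_prime_above y θ _ hcomp A hL hvan
  have hlt : 𝔭 < 𝔮 := by
    refine lt_of_le_of_ne (le_sup_left.trans hle) ?_
    rintro rfl
    exact hG𝔭 (hle (Ideal.mem_sup_right (Ideal.mem_span_singleton_self G)))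
  obtain ⟨i, hi⟩ := var_notin hy hL' hv'
  have hdrop := HB_drop h𝔭 h𝔮 hlt i hi w hw
  exact hmin 𝔮 κ A' h𝔮 (inW_sub hA (Eventually.of_forall hA')) hL' hv' hdrop

theorem setup {K ι : Type} [Field K] [Fintype ι] (y : ℕ → ι → K) (hy : ∀ n, y n ≠ 0)
    (c₂ : ℝ) (hc₂ : 1 ≤ c₂) :
    ∃ (w : ℕ) (θ : ℝ), 0 < θ ∧ 6 * θ ≤ 1 ∧ MinW y w (c₂ * θ) ∧
      ∃ (𝔭 : Ideal (MvPolynomial ι (Kst K))) (κ : ℕ) (A : ℕ → Finset ℕ), HPrime 𝔭 ∧
        HB 𝔭 (w + 1) ∧ InW κ A ∧ Large θ A ∧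
        Van y (𝔭 : Set (MvPolynomial ι (Kst K))) A := by
  classical
  set m := Fintype.card ι + 1 with hm
  set thr : ℕ → ℝ := fun w => (1 / (6 * c₂ ^ m)) * c₂ ^ (m - w) with hthr
  have hc₀ : 0 < c₂ := by linarith
  have hthr0 : ∀ w, 0 < thr w := by
    intro w
    simp only [hthr]
    positivity
  have hthr1 : ∀ w, 6 * thr w ≤ 1 := by
    intro w
    simp only [hthr]
    have h1 : c₂ ^ (m - w) ≤ c₂ ^ m := pow_le_pow_right₀ hc₂ (Nat.sub_le m w)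
    have h2 : 0 < c₂ ^ m := pow_pos hc₀ m
    rw [show 6 * (1 / (6 * c₂ ^ m) * c₂ ^ (m - w)) = c₂ ^ (m - w) / c₂ ^ m by
      field_simp]
    rw [div_le_one h2]
    exact h1
  let P : ℕ → Prop := fun w => ∃ (𝔭 : Ideal (MvPolynomial ι (Kst K))) (κ : ℕ)
    (A : ℕ → Finset ℕ), HPrime 𝔭 ∧ HB 𝔭 w ∧ InW κ A ∧ Large (thr w) A ∧
      Van y (𝔭 : Set (MvPolynomial ι (Kst K))) A
  have hPm : P m := by
    refine ⟨⊥, 2, fun N => Finset.Icc N (2 * N), hprime_bot, HB_bot, ?_, ?_, ?_⟩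
    · exact Eventually.of_forall fun N n hn => Finset.mem_Icc.mp hn
    · refine ⟨1, one_pos, ?_⟩
      filter_upwards [ev_ge 1] with N hN
      have h1 : (N : ℝ) ^ (1 - thr m) ≤ (N : ℝ) ^ (1 : ℝ) :=
        Real.rpow_le_rpow_of_exponent_le (by exact_mod_cast hN) (by linarith [hthr0 m])
      rw [Real.rpow_one] at h1
      rw [one_mul, Nat.card_Icc]
      refine h1.trans ?_
      have : N ≤ 2 * N + 1 - N := by omega
      exact_mod_cast this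
    · intro ν _ G hG
      rw [SetLike.mem_coe, Ideal.mem_bot] at hG
      rw [hG, map_zero]
  have hex : ∃ w, P w := ⟨m, hPm⟩
  set w₀ := Nat.find hex with hw₀
  obtain ⟨𝔭, κ, A, h𝔭, hHB, hA, hL, hv⟩ := Nat.find_spec hex
  rw [← hw₀] at hHB hL
  have hle : w₀ ≤ m := Nat.find_min' hex hPm
  have hpos : w₀ ≠ 0 := by
    intro h0
    rw [h0] at hHB
    obtain ⟨i, hi⟩ := var_notin hy hL hv
    exact hi (HB_zero h𝔭 hHB i)
  obtain ⟨w, hw⟩ := Nat.exists_eq_succ_of_ne_zero hpos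
  have hthrw : thr w = c₂ * thr w₀ := by
    simp only [hthr]
    rw [show m - w = (m - w₀) + 1 by omega, pow_succ]
    ring
  refine ⟨w, thr w₀, hthr0 w₀, hthr1 w₀, ?_, 𝔭, κ, A, h𝔭, ?_, hA, hL, hv⟩
  · rw [← hthrw]
    intro 𝔮 κ' A' h𝔮 hA' hL' hv' hHB'
    exact Nat.find_min hex (show w < Nat.find hex by rw [← hw₀]; omega)
      ⟨𝔮, κ', A', h𝔮, hHB', hA', hL', hv'⟩
  · rw [← Nat.succ_eq_add_one, ← hw]
    exact hHB

end Pool.Agent.GT
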