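import Pool.Agent.GT.Level

/-!
Project GT (MP_e3c919_ag), row T2: zero families and representations of shifts at the levels
(helper45 for helper4).
-/

set_option autoImplicit false

open Filter MvPolynomial

namespace Pool.Agent.GT

theorem zero_split {K ι : Type} [Field K] (y : ℕ → ι → K) (A : ℕ → Finset ℕ)
    (G : MvPolynomial ι (Kst K)) :
    ∃ A₁ : ℕ → Finset ℕ, (∀ N, A₁ N ⊆ A N) ∧
      (∀ ν : ℕ → ℕ, (∀ᶠ N in U, ν N ∈ A₁ N) → eval (pt y ν) G = 0) ∧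
      ∀ ν : ℕ → ℕ, (∀ᶠ N in U, ν N ∈ A N ∧ ν N ∉ A₁ N) → eval (pt y ν) G ≠ 0 := by
  classical
  obtain ⟨H, -, hH⟩ := exists_level G
  refine ⟨fun N => (A N).filter fun n => eval (y n) (H N) = 0,
    fun N => Finset.filter_subset _ _, fun ν hν => ?_, fun ν hν => ?_⟩
  · rw [pt_eq, hH, cl_eq_zero]
    filter_upwards [hν] with N hN
    exact (Finset.mem_filter.1 hN).2
  · rw [pt_eq, hH, cl_ne_zero]
    filter_upwards [hν] with N hN h0
    exact hN.2 (Finset.mem_filter.2 ⟨hN.1, h0⟩)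

theorem grep_up {K ι : Type} [Field K] [Finite ι] (y : ℕ → ι → K) (A : ℕ → Finset ℕ)
    (lam : ℕ → ℕ) (a : ℕ) (Φ : ℕ → ι → MvPolynomial ι K) (e : ℕ → ℝ)
    (h : ∀ᶠ N in U, (∀ i, (Φ N i).IsHomogeneous a) ∧
      ((bad y (A N) (lam N) (Φ N)).card : ℝ) ≤ e N) :
    ∃ Φ' : ι → MvPolynomial ι (Kst K), GRep y A lam a Φ' e := by
  classical
  have hex : ∀ i, ∃ G : MvPolynomial ι (Kst K), G.IsHomogeneous a ∧
      ∀ z : ℕ → ι → K, eval (gpt z) G = cl fun N => eval (z N) (Φ N i) := fun i =>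
    exists_germ a (fun N => Φ N i) (h.mono fun N hN => hN.1 i)
  choose Φ' hΦ' using hex
  refine ⟨Φ', fun i => (hΦ' i).1, fun N => bad y (A N) (lam N) (Φ N),
    h.mono fun N hN => hN.2, fun ν hν => ?_⟩
  have hc : ∀ᶠ N in U, ∃ c : K, c ≠ 0 ∧
      ∀ i, eval (y (ν N)) (Φ N i) = c * y (ν N + lam N) i := by
    filter_upwards [hν] with N hN
    by_contra hcon
    exact hN.2 (Finset.mem_filter.2 ⟨hN.1, hcon⟩)
  obtain ⟨c, hc⟩ := Filter.skolem.1 hc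
  refine ⟨cl c, cl_ne_zero.2 (hc.mono fun N hN => hN.1), fun i => ?_⟩
  rw [pt_eq, (hΦ' i).2, pt, ← cl_mul, cl_eq]
  exact hc.mono fun N hN => hN.2 i

theorem grep_down {K ι : Type} [Field K] [Finite ι] (y : ℕ → ι → K) (A : ℕ → Finset ℕ)
    (lam : ℕ → ℕ) (a : ℕ) (Φ' : ι → MvPolynomial ι (Kst K)) (e : ℕ → ℝ)
    (h : GRep y A lam a Φ' e) :
    ∃ Φ : ℕ → ι → MvPolynomial ι K, ∀ᶠ N in U, (∀ i, (Φ N i).IsHomogeneous a) ∧
      ((bad y (A N) (lam N) (Φ N)).card : ℝ) ≤ e N := by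
  classical
  obtain ⟨hhom, E, hE, hrep⟩ := h
  choose H hH1 hH2 using fun i => exists_level (Φ' i)
  refine ⟨fun N i => H i N, ?_⟩
  have hsub : ∀ᶠ N in U, bad y (A N) (lam N) (fun i => H i N) ⊆ E N := by
    by_contra hcon
    have hcon' : ∀ᶠ N in U, ¬ bad y (A N) (lam N) (fun i => H i N) ⊆ E N :=
      Ultrafilter.eventually_not.2 hcon
    have hex : ∀ᶠ N in U, ∃ n, n ∈ bad y (A N) (lam N) (fun i => H i N) ∧ n ∉ E N :=
      hcon'.mono fun N hN => Finset.not_subset.1 hN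
    obtain ⟨ν, hν⟩ := Filter.skolem.1 hex
    obtain ⟨c, hc0, hc⟩ := hrep ν (hν.mono fun N hN => ⟨(Finset.mem_filter.1 hN.1).1, hN.2⟩)
    obtain ⟨f, rfl⟩ := cl_surj c
    have h1 : ∀ᶠ N in U, f N ≠ 0 := cl_ne_zero.1 hc0
    have h2 : ∀ᶠ N in U, ∀ i, eval (y (ν N)) (H i N) = f N * y (ν N + lam N) i := by
      rw [Filter.eventually_all]
      intro i
      have h3 := hc i
      rw [pt_eq, hH2 i, pt, ← cl_mul, cl_eq] at h3
      exact h3
    have hF : ∀ᶠ _N in U, False := by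
      filter_upwards [h1, h2, hν] with N hN1 hN2 hN3
      exact (Finset.mem_filter.1 hN3.1).2 ⟨f N, hN1, hN2⟩
    exact hF.exists.elim fun _ hx => hx
  filter_upwards [hsub, hE] with N hN1 hN2
  refine ⟨fun i => hH1 i a (hhom i) N, ?_⟩
  exact le_trans (by exact_mod_cast Finset.card_le_card hN1) hN2

end Pool.Agent.GT
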