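import Pool.Agent.GT.Tools
import Pool.Agent.GT.Level
import Pool.Agent.GT.Split
import Pool.Agent.GT.Setup

/-!
The least shift without a representation of bounded degree.
-/

set_option autoImplicit false

open Filter MvPolynomial

namespace Pool.Agent.GT

/-- no representation of degree at most `D` of the shift by `l` on `S` -/
def NoRep {K ι : Type} [Field K] (y : ℕ → ι → K) (S : Finset ℕ) (D l : ℕ) (x : ℝ) : Prop :=
  ∀ a, 1 ≤ a → a ≤ D → ∀ Φ : ι → MvPolynomial ι K, (∀ i, (Φ i).IsHomogeneous a) →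
    (3 * (l : ℝ) + 1) * x < ((bad y S l Φ).card : ℝ)

theorem step_least {K ι : Type} [Field K] (y : ℕ → ι → K) (S : Finset ℕ) (D : ℕ) (hD : 1 ≤ D)
    (x : ℝ) (hx : 0 ≤ x) (Y : ℝ) (h : ∃ l : ℕ, (l : ℝ) ≤ Y ∧ NoRep y S D l x) :
    ∃ l : ℕ, 1 ≤ l ∧ (l : ℝ) ≤ Y ∧ NoRep y S D l x ∧ ¬ NoRep y S D (l - 1) x := by
  classical
  obtain ⟨l₁, h1, h2⟩ := h
  have hex : ∃ l : ℕ, NoRep y S D l x := ⟨l₁, h2⟩
  have h3 := Nat.find_min' hex h2
  have h0 : 1 ≤ Nat.find hex := by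
    rw [Nat.one_le_iff_ne_zero]
    intro h0
    have h4 := Nat.find_spec hex
    rw [h0] at h4
    have h5 := h4 1 le_rfl hD X (fun i => isHomogeneous_X K i)
    have h6 : bad y S 0 (X : ι → MvPolynomial ι K) = ∅ := by
      unfold bad
      rw [Finset.filter_eq_empty_iff]
      intro n _ hn
      exact hn ⟨1, one_ne_zero, fun i => by simp⟩
    rw [h6] at h5
    norm_num at h5
    linarith
  refine ⟨Nat.find hex, h0, ?_, Nat.find_spec hex, Nat.find_min hex (by omega)⟩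
  have : (Nat.find hex : ℝ) ≤ l₁ := by exact_mod_cast h3
  linarith

/-- the step lemma -/
theorem step_rep {K T ι : Type} [Field K] [Finite T] [Fintype ι] {δ : T → ℕ}
    {F : T → ι → MvPolynomial ι K} {y : ℕ → ι → K} (h : Orb δ F y) (w : ℕ) (θ θ₂ η : ℝ)
    (hmin : MinW y w θ₂) {𝔭 : Ideal (MvPolynomial ι (Kst K))} (h𝔭 : HPrime 𝔭)
    (hHB : HB 𝔭 (w + 1)) (κ : ℕ) (A : ℕ → Finset ℕ) (hA : InW κ A) (hL : Large θ A)
    (hv : Van y (𝔭 : Set (MvPolynomial ι (Kst K))) A) (hη : 0 < η) (hexp : θ < θ₂ - η)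
    (D : ℕ) (hD : 1 ≤ D)
    (hno : ∀ᶠ N : ℕ in U, ∃ l : ℕ, (l : ℝ) ≤ (N : ℝ) ^ η ∧
      NoRep y (A N) D l ((N : ℝ) ^ (1 - θ₂))) :
    ∃ (lam : ℕ → ℕ) (a : ℕ) (Φ : ι → MvPolynomial ι (Kst K)) (i₀ : ι),
      (∀ᶠ N : ℕ in U, (lam N : ℝ) ≤ (N : ℝ) ^ η) ∧ Φ i₀ ∉ 𝔭 ∧
      GRep y A lam a Φ (fun N => (3 * (lam N : ℝ) - 1) * (N : ℝ) ^ (1 - θ₂)) ∧
      ∀ a', 1 ≤ a' → a' ≤ D → ∀ Ψ : ι → MvPolynomial ι (Kst K),
        ¬ GRep y A lam a' Ψ (fun N => (3 * (lam N : ℝ) + 1) * (N : ℝ) ^ (1 - θ₂)) := by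
  classical
  have h1 : ∀ᶠ N : ℕ in U, ∃ l : ℕ, 1 ≤ l ∧ (l : ℝ) ≤ (N : ℝ) ^ η ∧
      NoRep y (A N) D l ((N : ℝ) ^ (1 - θ₂)) ∧
      ¬ NoRep y (A N) D (l - 1) ((N : ℝ) ^ (1 - θ₂)) :=
    hno.mono fun N hN => step_least y (A N) D hD _ (Real.rpow_nonneg (Nat.cast_nonneg N) _) _ hN
  obtain ⟨lam, hlam⟩ := exists_fun h1
  -- the representation of the shift by `lam - 1`
  have h2 : ∀ᶠ N : ℕ in U, ∃ p : ℕ × (ι → MvPolynomial ι K), 1 ≤ p.1 ∧ p.1 ≤ D ∧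
      (∀ i, (p.2 i).IsHomogeneous p.1) ∧ ((bad y (A N) (lam N - 1) p.2).card : ℝ) ≤
        (3 * ((lam N - 1 : ℕ) : ℝ) + 1) * (N : ℝ) ^ (1 - θ₂) := by
    filter_upwards [hlam] with N hN
    have h3 := hN.2.2.2
    unfold NoRep at h3
    push Not at h3
    obtain ⟨a, ha1, ha2, Φ, hΦ, h4⟩ := h3
    exact ⟨(a, Φ), ha1, ha2, hΦ, h4⟩
  obtain ⟨p, hp⟩ := exists_fun h2
  obtain ⟨a, -, ha⟩ := exists_const_le D (fun N => (p N).1) (hp.mono fun N hN => hN.2.1)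
  obtain ⟨Φ', hΦ', E, hE, hrep⟩ := grep_up y A (fun N => lam N - 1) a (fun N => (p N).2)
    (fun N => (3 * ((lam N - 1 : ℕ) : ℝ) + 1) * (N : ℝ) ^ (1 - θ₂)) (by
      filter_upwards [hp, ha] with N h3 h4
      exact ⟨fun i => by rw [← h4]; exact h3.2.2.1 i, h3.2.2.2⟩)
  -- `A \ E` is large
  have hE2 : ∀ᶠ N : ℕ in U, ((E N).card : ℝ) ≤ 3 * (N : ℝ) ^ (1 - (θ₂ - η)) := by
    filter_upwards [hE, hlam, ev_ge 1] with N h3 h4 h5
    refine h3.trans ?_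
    have h6 : (0 : ℝ) < N := by exact_mod_cast h5
    have h7 : (N : ℝ) ^ (1 - (θ₂ - η)) = (N : ℝ) ^ η * (N : ℝ) ^ (1 - θ₂) := by
      rw [← Real.rpow_add h6]
      congr 1
      ring
    rw [h7, ← mul_assoc]
    apply mul_le_mul_of_nonneg_right _ (Real.rpow_nonneg h6.le _)
    have h8 : ((lam N - 1 : ℕ) : ℝ) = (lam N : ℝ) - 1 := by
      rw [Nat.cast_sub h4.1, Nat.cast_one]
    rw [h8]
    linarith [h4.2.1]
  have hLE : Large θ fun N => A N \ E N := large_sdiff hexp hL 3 hE2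
  -- choice of the tuple
  obtain ⟨t, ht⟩ := large_cover hLE
    (fun t N => (A N \ E N).filter fun n => ∃ i, eval (y (n + (lam N - 1))) (F t i) ≠ 0)
    (Eventually.of_forall fun N n hn => by
      obtain ⟨t, i, hi⟩ := h.step (n + (lam N - 1))
      exact ⟨t, Finset.mem_filter.mpr ⟨hn, i, hi⟩⟩)
  set Φ : ι → MvPolynomial ι (Kst K) := fun i => bind₁ Φ' (map (cst K) (F t i)) with hΦ
  -- the values of the new tuple
  have hval : ∀ ν : ℕ → ℕ, (∀ᶠ N in U, ν N ∈ A N ∧ ν N ∉ E N) → ∃ (c : Kst K) (e : ℕ → K),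
      c ≠ 0 ∧ (∀ i, eval (pt y ν) (Φ i) =
        c * cl fun N => eval (y (ν N + (lam N - 1))) (F t i)) ∧
      ∀ᶠ N in U, ∀ i, eval (y (ν N + (lam N - 1))) (F t i) = e N * y (ν N + lam N) i := by
    intro ν hν
    obtain ⟨c, hc, h3⟩ := hrep ν hν
    choose e he using fun N => h.prop (ν N + (lam N - 1)) t
    refine ⟨c ^ δ t, e, pow_ne_zero _ hc, ?_, ?_⟩
    · intro i
      rw [hΦ]
      simp only
      rw [eval_bind, show (fun i => eval (pt y ν) (Φ' i)) =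
        fun i => c * pt y (fun N => ν N + (lam N - 1)) i from funext h3,
        eval_smul_form ((h.hom t i).map _), pt_eq, eval_gpt_cst]
    · filter_upwards [hlam] with N hN i
      have h4 := he N i
      rw [show ν N + (lam N - 1) + 1 = ν N + lam N by omega] at h4
      exact h4
  have hprop : ∀ ν : ℕ → ℕ, (∀ᶠ N in U, ν N ∈ A N ∧ ν N ∉ E N) → ∃ c : Kst K,
      ∀ i, eval (pt y ν) (Φ i) = c * pt y (fun N => ν N + lam N) i := by
    intro ν hν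
    obtain ⟨c, e, hc, h3, h4⟩ := hval ν hν
    refine ⟨c * cl e, fun i => ?_⟩
    rw [h3 i, mul_assoc]
    congr 1
    unfold pt
    rw [← cl_mul, cl_eq]
    exact h4.mono fun N hN => hN i
  -- one component is not in the prime
  obtain ⟨ν₀, hν₀⟩ := large_pt ht
  obtain ⟨i₀, hi₀⟩ : ∃ i₀, ∀ᶠ N in U, eval (y (ν₀ N + (lam N - 1))) (F t i₀) ≠ 0 := by
    have h3 : ∀ᶠ N in U, ∃ i : ι, eval (y (ν₀ N + (lam N - 1))) (F t i) ≠ 0 :=
      hν₀.mono fun N hN => (Finset.mem_filter.mp hN).2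
    have : Nonempty ι := by
      obtain ⟨N, i, -⟩ := h3.exists
      exact ⟨i⟩
    obtain ⟨f, hf⟩ := exists_fun h3
    obtain ⟨i₀, hi₀⟩ := exists_const f
    refine ⟨i₀, ?_⟩
    filter_upwards [hf, hi₀] with N h4 h5
    rw [← h5]
    exact h4
  have hν₀' : ∀ᶠ N in U, ν₀ N ∈ A N ∧ ν₀ N ∉ E N :=
    hν₀.mono fun N hN => Finset.mem_sdiff.mp (Finset.mem_filter.mp hN).1
  have hi₀𝔭 : Φ i₀ ∉ 𝔭 := by
    intro hmem
    have h3 := hv ν₀ (hν₀'.mono fun N hN => hN.1) (Φ i₀) hmem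
    obtain ⟨c, e, hc, h4, -⟩ := hval ν₀ hν₀'
    rw [h4 i₀] at h3
    rcases mul_eq_zero.mp h3 with h5 | h5
    · exact hc h5
    · exact (cl_ne_zero.mpr hi₀) h5
  have hhom : ∀ i, (Φ i).IsHomogeneous (a * δ t) := fun i =>
    bind_hom hΦ' ((h.hom t i).map _)
  -- the zeros of this component
  obtain ⟨A₁, hA₁, hA₁0, hA₁1⟩ := zero_split y A (Φ i₀)
  have hnl : ¬ Large θ₂ A₁ := by
    intro hl
    apply hi₀𝔭
    refine few_zeros y h.ne w θ₂ hmin h𝔭 hHB κ A₁ ?_ hl (van_sub hv (Eventually.of_forall hA₁))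
      _ _ (hhom i₀) ?_
    · unfold InW
      filter_upwards [hA] with N h3 n hn
      exact h3 n (hA₁ N hn)
    · intro ν hν G hG
      rw [Set.mem_singleton_iff.mp hG]
      exact hA₁0 ν hν
  have hA₁c := not_large hnl 1 one_pos
  refine ⟨lam, a * δ t, Φ, i₀, hlam.mono fun N hN => hN.2.1, hi₀𝔭, ⟨hhom, fun N => E N ∪ A₁ N,
    ?_, ?_⟩, ?_⟩
  · filter_upwards [hE, hA₁c, hlam] with N h3 h4 h5
    have h6 : ((E N ∪ A₁ N).card : ℝ) ≤ (E N).card + (A₁ N).card := by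
      exact_mod_cast Finset.card_union_le _ _
    have h8 : ((lam N - 1 : ℕ) : ℝ) = (lam N : ℝ) - 1 := by
      rw [Nat.cast_sub h5.1, Nat.cast_one]
    rw [h8] at h3
    linarith
  · intro ν hν
    have h3 : ∀ᶠ N in U, ν N ∈ A N ∧ ν N ∉ E N := hν.mono fun N hN =>
      ⟨hN.1, fun h4 => hN.2 (Finset.mem_union_left _ h4)⟩
    obtain ⟨c, hc⟩ := hprop ν h3
    refine ⟨c, ?_, hc⟩
    rintro rfl
    have h4 := hA₁1 ν (hν.mono fun N hN => ⟨hN.1, fun h4 => hN.2 (Finset.mem_union_right _ h4)⟩)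
    rw [hc i₀, zero_mul] at h4
    exact h4 rfl
  · intro a' ha1 ha2 Ψ hG
    obtain ⟨Ψ', hΨ'⟩ := grep_down y A lam a' Ψ _ hG
    obtain ⟨N, h3, h4⟩ := (hlam.and hΨ').exists
    exact absurd (h3.2.2.1 a' ha1 ha2 (Ψ' N) h4.1) (not_lt.mpr h4.2)

end Pool.Agent.GT
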