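import Pool.Agent.GT.Defs
import Pool.Agent.KST.Padic
import Pool.Agent.KST.Det

/-!
The determinant at congruent points of the orbit: `cls_det`.
-/

set_option autoImplicit false

open Filter MvPolynomial Height Height.AdmissibleAbsValues

namespace Pool.Agent.GT

/-- compositions of the tuples `F (τ 0)`, `F (τ 1)`, ... -/
noncomputable def clsdetG {K T ι : Type} [Field K] (F : T → ι → MvPolynomial ι K) (τ : ℕ → T) :
    ℕ → ι → MvPolynomial ι K
  | 0 => X
  | l + 1 => fun i => bind₁ (clsdetG F τ l) (F (τ l) i)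

theorem clsdet_eval_succ {K T ι : Type} [Field K] (F : T → ι → MvPolynomial ι K) (τ : ℕ → T)
    (l : ℕ) (z : ι → K) (i : ι) :
    eval z (clsdetG F τ (l + 1) i) = eval (fun k => eval z (clsdetG F τ l k)) (F (τ l) i) := by
  rw [clsdetG]
  exact MvPolynomial.eval₂Hom_bind₁ (RingHom.id K) z (clsdetG F τ l) (F (τ l) i)

theorem clsdet_range {K ι : Type} [Field K] (v : AbsoluteValue K ℝ) (hv : IsNonarchimedean v)
    (g : MvPolynomial ι K) (hg : ∀ m, v (g.coeff m) ≤ 1) :
    g ∈ (MvPolynomial.map (σ := ι) (KST.padicO v hv).subtype).range := by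
  refine ⟨∑ m ∈ g.support, MvPolynomial.monomial m ⟨g.coeff m, hg m⟩, ?_⟩
  simp only [map_sum, MvPolynomial.map_monomial]
  exact MvPolynomial.support_sum_monomial_coeff g

theorem clsdet_coeff {K ι : Type} [Field K] (v : AbsoluteValue K ℝ) (hv : IsNonarchimedean v)
    (g : MvPolynomial ι K) (hg : g ∈ (MvPolynomial.map (σ := ι) (KST.padicO v hv).subtype).range)
    (m : ι →₀ ℕ) : v (g.coeff m) ≤ 1 := by
  obtain ⟨g', rfl⟩ := hg
  rw [MvPolynomial.coeff_map]
  exact (MvPolynomial.coeff m g').2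

theorem clsdet_int {K T ι : Type} [Field K] (v : AbsoluteValue K ℝ) (hv : IsNonarchimedean v)
    (F : T → ι → MvPolynomial ι K) (hF : ∀ t i m, v ((F t i).coeff m) ≤ 1) (τ : ℕ → T) (l : ℕ) :
    ∀ i, clsdetG F τ l i ∈ (MvPolynomial.map (σ := ι) (KST.padicO v hv).subtype).range := by
  induction l with
  | zero =>
    intro i
    exact ⟨X i, by simp [clsdetG]⟩
  | succ l ih =>
    intro i
    obtain ⟨p, hp⟩ := clsdet_range v hv (F (τ l) i) (hF _ _)
    choose f hf using ih
    refine ⟨bind₁ f p, ?_⟩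
    rw [clsdetG, MvPolynomial.map_bind₁, hp]
    congr 1
    congr 1
    funext k
    exact hf k

theorem clsdet_smul {K ι : Type} [Field K] (d : ℕ) (F : MvPolynomial ι K)
    (hF : F.IsHomogeneous d) (a : K) (y : ι → K) :
    eval (fun i => a * y i) F = a ^ d * eval y F := by
  rw [MvPolynomial.eval_eq, MvPolynomial.eval_eq, Finset.mul_sum]
  refine Finset.sum_congr rfl fun m hm => ?_
  have hdeg : ∑ i ∈ m.support, m i = d := by
    have h1 := hF (MvPolynomial.mem_support_iff.1 hm)
    rw [← h1, Finsupp.weight_apply, Finsupp.sum]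
    simp
  simp only [mul_pow, Finset.prod_mul_distrib]
  rw [Finset.prod_pow_eq_pow_sum, hdeg]
  ring

theorem clsdet_step {K T ι : Type} [Field K] [Fintype ι] [Nonempty ι]
    {δ : T → ℕ} {F : T → ι → MvPolynomial ι K} {y : ℕ → ι → K} (h : Orb δ F y)
    {v : AbsoluteValue K ℝ} {Y : ℝ} {L : ℕ}
    {i₀ : ι} {τ : ℕ → T} {S : Finset ℕ} (hc : Cls δ F y v Y L i₀ τ S) (n : ℕ) (hn : n ∈ S)
    (l : ℕ) (hl : l ≤ L) :
    (∃ κ : K, κ ≠ 0 ∧ ∀ i, eval (fun k => y n k / y n i₀) (clsdetG F τ l i) =
      κ * y (n + l) i) ∧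
    (⨆ i, v (eval (fun k => y n k / y n i₀) (clsdetG F τ l i))) = 1 := by
  induction l with
  | zero =>
    obtain ⟨h0, hmax⟩ := hc.piv n hn
    have hv0 : 0 < v (y n i₀) := v.pos h0
    refine ⟨⟨(y n i₀)⁻¹, inv_ne_zero h0, ?_⟩, ?_⟩
    · intro i
      simp [clsdetG, div_eq_inv_mul]
    · apply le_antisymm
      · refine ciSup_le fun i => ?_
        simp only [clsdetG, eval_X, map_div₀]
        exact div_le_one_of_le₀ (hmax i) hv0.le
      · refine Finite.le_ciSup_of_le i₀ ?_
        simp only [clsdetG, eval_X, map_div₀]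
        rw [div_self hv0.ne']
  | succ l ih =>
    obtain ⟨⟨κ, hκ, he⟩, hs⟩ := ih (by omega)
    obtain ⟨c, hcc⟩ := h.prop (n + l) (τ l)
    have hgood := hc.good n hn l (by omega)
    have hval : ∀ i, eval (fun k => y n k / y n i₀) (clsdetG F τ (l + 1) i) =
        κ ^ δ (τ l) * eval (y (n + l)) (F (τ l) i) := by
      intro i
      rw [clsdet_eval_succ]
      rw [show (fun k => eval (fun k => y n k / y n i₀) (clsdetG F τ l k)) =
        fun k => κ * y (n + l) k from funext he]
      exact clsdet_smul _ _ (h.hom _ _) _ _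
    have hsup : (⨆ i, v (eval (fun k => y n k / y n i₀) (clsdetG F τ (l + 1) i))) = 1 := by
      simp only [hval, map_mul, map_pow]
      rw [← Real.mul_iSup_of_nonneg (pow_nonneg (v.nonneg _) _), hgood, ← mul_pow,
        Real.mul_iSup_of_nonneg (v.nonneg _)]
      simp only [he, map_mul] at hs
      rw [hs, one_pow]
    refine ⟨⟨κ ^ δ (τ l) * c, ?_, ?_⟩, hsup⟩
    · refine mul_ne_zero (pow_ne_zero _ hκ) ?_
      intro hc0
      subst hc0
      have hz : ∀ i, eval (fun k => y n k / y n i₀) (clsdetG F τ (l + 1) i) = 0 := by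
        intro i
        rw [hval, hcc i, zero_mul, mul_zero]
      simp only [hz, map_zero, ciSup_const] at hsup
      exact zero_ne_one hsup
    · intro i
      rw [hval, hcc i, ← mul_assoc, add_assoc]

theorem cls_det {K T ι : Type} [Field K] [NumberField K] [Fintype ι] [Nonempty ι]
    {δ : T → ℕ} {F : T → ι → MvPolynomial ι K} {y : ℕ → ι → K} (h : Orb δ F y)
    {v : AbsoluteValue K ℝ} (hv : v ∈ nonarchAbsVal (K := K)) {Y : ℝ} (hY : 1 ≤ Y) {L : ℕ}
    {i₀ : ι} {τ : ℕ → T} {S : Finset ℕ} (hc : Cls δ F y v Y L i₀ τ S) (s j t : ℕ)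
    (lam : Fin j → ℕ) (hlam : ∀ i, lam i ≤ L) (n : Fin s → ℕ) (hn : ∀ u, n u ∈ S)
    (φ : Fin s → Fin j → ι)
    (hdet : (Matrix.of fun u u' => ∏ i, y (n u + lam i) (φ u' i)).det ≠ 0) :
    Y ^ (t * (s - t ^ Fintype.card ι)) ≤
      (s.factorial : ℝ) ^ totalWeight K * ∏ u, ∏ i, mulHeight (y (n u + lam i)) := by
  classical
  have hna : IsNonarchimedean v := isNonarchimedean v hv
  have hY0 : 0 < Y := lt_of_lt_of_le one_pos hY
  rcases Nat.eq_zero_or_pos s with hs0 | hs0
  · subst hs0
    simp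
  have hstep := fun (u : Fin s) (i : Fin j) => clsdet_step h hc (n u) (hn u) (lam i) (hlam i)
  choose κ hκ he using fun u i => (hstep u i).1
  have hsup := fun u i => (hstep u i).2
  set z : Fin s → ι → K := fun u k => y (n u) k / y (n u) i₀ with hz
  set g : Fin s → (Fin j → ι) → K := fun u ψ => ∏ i, eval (z u) (clsdetG F τ (lam i) (ψ i))
    with hg
  -- the matrix of the values
  have hgy : ∀ u ψ, g u ψ = (∏ i, κ u i) * ∏ i, y (n u + lam i) (ψ i) := by
    intro u ψ
    simp only [hg]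
    rw [← Finset.prod_mul_distrib]
    exact Finset.prod_congr rfl fun i _ => he u i (ψ i)
  have hdet' : (Matrix.of fun u u' => g u (φ u')).det =
      (∏ u, ∏ i, κ u i) * (Matrix.of fun u u' => ∏ i, y (n u + lam i) (φ u' i)).det := by
    rw [← Matrix.det_mul_column]
    congr 1
    ext u u'
    simp only [Matrix.of_apply]
    exact hgy u (φ u')
  have hdet0 : (Matrix.of fun u u' => g u (φ u')).det ≠ 0 := by
    rw [hdet']
    exact mul_ne_zero (Finset.prod_ne_zero_iff.2 fun u _ =>
      Finset.prod_ne_zero_iff.2 fun i _ => hκ u i) hdet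
  -- the height of the vectors
  have hheight : ∀ u, mulHeight (g u) = ∏ i, mulHeight (y (n u + lam i)) := by
    intro u
    have hne : ∀ i : Fin j, (fun k => eval (z u) (clsdetG F τ (lam i) k)) ≠ 0 := by
      intro i hzero
      have := hsup u i
      rw [show (fun k => v (eval (z u) (clsdetG F τ (lam i) k))) = fun _ => (0 : ℝ) by
        funext k
        rw [congrFun hzero k]
        simp, ciSup_const] at this
      exact zero_ne_one this
    have h1 := mulHeight_fun_prod_eq (K := K) (α := Fin j) (ι := fun _ => ι)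
      (x := fun i k => eval (z u) (clsdetG F τ (lam i) k)) hne
    rw [hg]
    rw [h1]
    refine Finset.prod_congr rfl fun i _ => ?_
    rw [show (fun k => eval (z u) (clsdetG F τ (lam i) k)) = κ u i • y (n u + lam i) by
      funext k
      exact he u i k]
    exact mulHeight_smul_eq_mulHeight _ (hκ u i)
  have hlocal : ∀ u, (⨆ ψ, v (g u ψ)) = 1 := by
    intro u
    simp only [hg, map_prod]
    rw [Real.iSup_prod_eq_prod_iSup_of_nonneg (α := Fin j) (ι := fun _ => ι)
      (f := fun i k => v (eval (z u) (clsdetG F τ (lam i) k))) (fun _ _ => v.nonneg _)]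
    exact Finset.prod_eq_one fun i _ => hsup u i
  -- the estimate at the place
  have hb : v (Matrix.of fun u u' => g u (φ u')).det ≤
      (1 / Y) ^ (t * (s - t ^ Fintype.card ι)) := by
    have h2 := KST.padic_det v hna (1 / Y) (by positivity) (by
      rw [div_le_one hY0]
      exact hY) s (fun u' => ∏ i, clsdetG F τ (lam i) (φ u' i)) (by
        intro u m
        refine clsdet_coeff v hna _ ?_ m
        exact Subring.prod_mem _ fun i _ => clsdet_int v hna F hc.int τ (lam i) (φ u i)) z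
      (z ⟨0, hs0⟩) (by
        intro i
        obtain ⟨h0, hmax⟩ := hc.piv (n ⟨0, hs0⟩) (hn _)
        simp only [hz, map_div₀]
        exact div_le_one_of_le₀ (hmax i) (v.nonneg _)) (by
        intro u i
        exact hc.cong (n u) (hn u) (n ⟨0, hs0⟩) (hn _) i) t
    simpa only [map_prod] using h2
  have h3 := KST.det_bound s g φ v hv ((1 / Y) ^ (t * (s - t ^ Fintype.card ι)))
    (by positivity) hdet0 (by
      rw [Finset.prod_congr rfl fun u _ => hlocal u, Finset.prod_const_one, mul_one]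
      exact hb)
  rw [Finset.prod_congr rfl fun u _ => hheight u] at h3
  have h4 : Y ^ (t * (s - t ^ Fintype.card ι)) * 1 ≤ Y ^ (t * (s - t ^ Fintype.card ι)) *
      ((s.factorial : ℝ) ^ totalWeight K * (1 / Y) ^ (t * (s - t ^ Fintype.card ι)) *
        ∏ u, ∏ i, mulHeight (y (n u + lam i))) :=
    mul_le_mul_of_nonneg_left h3 (by positivity)
  rw [mul_one] at h4
  refine h4.trans (le_of_eq ?_)
  have h5 : Y ^ (t * (s - t ^ Fintype.card ι)) * (1 / Y) ^ (t * (s - t ^ Fintype.card ι)) = 1 := by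
    rw [← mul_pow, mul_one_div_cancel hY0.ne', one_pow]
  calc _ = (Y ^ (t * (s - t ^ Fintype.card ι)) * (1 / Y) ^ (t * (s - t ^ Fintype.card ι))) *
        ((s.factorial : ℝ) ^ totalWeight K * ∏ u, ∏ i, mulHeight (y (n u + lam i))) := by ring
    _ = _ := by rw [h5, one_mul]

end Pool.Agent.GT
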