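import Pool.Agent.GT.Defs
import Pool.Agent.KST.Padic

/-!
A common sequence of tuples for a class of congruent points: `pcls_cls`.
-/

set_option autoImplicit false

open Filter MvPolynomial

namespace Pool.Agent.GT

theorem ctau_smul {K ι : Type} [Field K] (d : ℕ) (F : MvPolynomial ι K)
    (hF : F.IsHomogeneous d) (a : K) (y : ι → K) :
    eval (fun i => a * y i) F = a ^ d * eval y F := by
  rw [MvPolynomial.eval_eq, MvPolynomial.eval_eq, Finset.mul_sum]
  refine Finset.sum_congr rfl fun m hm => ?_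
  have hdeg : ∑ i ∈ m.support, m i = d := by
    have h1 := hF (MvPolynomial.mem_support_iff.1 hm)
    rw [← h1, Finsupp.weight_apply, Finsupp.sum]
    simp
  simp only [mul_pow, Finset.prod_mul_distrib]
  rw [Finset.prod_pow_eq_pow_sum, hdeg]
  ring

/-- values of integral polynomials at integral points are integral -/
theorem ctau_int {K ι : Type} [Field K] (v : AbsoluteValue K ℝ) (hv : IsNonarchimedean v)
    (g : MvPolynomial ι K) (hg : ∀ m, v (g.coeff m) ≤ 1) (p : ι → K) (hp : ∀ i, v (p i) ≤ 1) :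
    v (eval p g) ≤ 1 := by
  rw [MvPolynomial.eval_eq]
  refine KST.padic_sum_le v hv _ _ 1 zero_le_one fun m _ => ?_
  rw [map_mul, map_prod]
  refine mul_le_one₀ (hg m) (Finset.prod_nonneg fun i _ => v.nonneg _) ?_
  refine Finset.prod_le_one (fun i _ => v.nonneg _) fun i _ => ?_
  rw [map_pow]
  exact pow_le_one₀ (v.nonneg _) (hp i)

/-- values at a point of the maximal ideal -/
theorem ctau_small {K ι : Type} [Field K] (v : AbsoluteValue K ℝ) (hv : IsNonarchimedean v)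
    (g : MvPolynomial ι K) (hg : ∀ m, v (g.coeff m) ≤ 1) (hg0 : g.coeff 0 = 0) (q : ℝ)
    (hq0 : 0 ≤ q) (hq1 : q ≤ 1) (p : ι → K) (hp : ∀ i, v (p i) ≤ q) : v (eval p g) ≤ q := by
  rw [MvPolynomial.eval_eq]
  refine KST.padic_sum_le v hv _ _ q hq0 fun m hm => ?_
  have hm0 : m ≠ 0 := by
    rintro rfl
    exact (MvPolynomial.mem_support_iff.1 hm) hg0
  obtain ⟨i, hi⟩ := Finsupp.support_nonempty_iff.2 hm0
  rw [map_mul, map_prod]
  have h1 : ∏ i ∈ m.support, v (p i ^ m i) ≤ q := by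
    classical
    rw [← Finset.mul_prod_erase _ _ hi]
    have h2 : v (p i ^ m i) ≤ q := by
      rw [map_pow]
      have h3 : m i ≠ 0 := Finsupp.mem_support_iff.1 hi
      obtain ⟨k, hk⟩ := Nat.exists_eq_succ_of_ne_zero h3
      rw [hk, pow_succ]
      calc v (p i) ^ k * v (p i) ≤ 1 * q :=
            mul_le_mul (pow_le_one₀ (v.nonneg _) ((hp i).trans hq1)) (hp i) (v.nonneg _)
              zero_le_one
        _ = q := one_mul q
    have h4 : ∏ j ∈ m.support.erase i, v (p j ^ m j) ≤ 1 := by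
      refine Finset.prod_le_one (fun j _ => v.nonneg _) fun j _ => ?_
      rw [map_pow]
      exact pow_le_one₀ (v.nonneg _) ((hp j).trans hq1)
    calc v (p i ^ m i) * ∏ j ∈ m.support.erase i, v (p j ^ m j) ≤ q * 1 :=
          mul_le_mul h2 h4 (Finset.prod_nonneg fun j _ => v.nonneg _) hq0
      _ = q := mul_one q
  calc v (g.coeff m) * ∏ i ∈ m.support, v (p i ^ m i) ≤ 1 * q :=
        mul_le_mul (hg m) h1 (Finset.prod_nonneg fun j _ => v.nonneg _) zero_le_one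
    _ = q := one_mul q

/-- values at congruent points are congruent -/
theorem ctau_cong {K ι : Type} [Field K] [Fintype ι] (v : AbsoluteValue K ℝ)
    (hv : IsNonarchimedean v) (g : MvPolynomial ι K) (hg : ∀ m, v (g.coeff m) ≤ 1) (q : ℝ)
    (hq0 : 0 ≤ q) (hq1 : q ≤ 1) (p p₀ : ι → K) (hp₀ : ∀ i, v (p₀ i) ≤ 1)
    (h : ∀ i, v (p i - p₀ i) ≤ q) : v (eval p g - eval p₀ g) ≤ q := by
  obtain ⟨G, hG, hGe⟩ := KST.padic_shift v hv g hg p₀ hp₀
  have h0 : eval p₀ g = G.coeff 0 := by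
    rw [hGe p₀]
    simp only [sub_self]
    rw [← MvPolynomial.constantCoeff_eq, ← MvPolynomial.eval_zero]
    rfl
  have h1 : eval p g - eval p₀ g = eval (fun i => p i - p₀ i) (G - C (G.coeff 0)) := by
    rw [map_sub, eval_C, ← hGe p, h0]
  rw [h1]
  refine ctau_small v hv _ ?_ ?_ q hq0 hq1 _ h
  · intro m
    classical
    rw [coeff_sub, coeff_C]
    split_ifs with hm
    · rw [← hm, sub_self, map_zero]
      exact zero_le_one
    · rw [sub_zero]
      exact hG m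
  · rw [coeff_sub, coeff_zero_C, sub_self]

theorem ctau_lt {K : Type} [Field K] (v : AbsoluteValue K ℝ) (hv : IsNonarchimedean v)
    {a b : K} {q : ℝ} (hq : q < 1) (hab : v (a - b) ≤ q) (hb : v b = 1) (ha : v a ≤ 1) :
    v a = 1 := by
  refine le_antisymm ha ?_
  by_contra hlt
  push Not at hlt
  have h1 : v b ≤ max (v a) (v (b - a)) := by
    have h2 := hv a (b - a)
    rwa [add_sub_cancel] at h2
  rw [v.map_sub b a, hb] at h1
  exact absurd h1 (not_le.2 (max_lt hlt (lt_of_le_of_lt hab hq)))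

theorem ctau_sup {K ι : Type} [Field K] [Fintype ι] [Nonempty ι] (v : AbsoluteValue K ℝ)
    (a : K) (y : ι → K) : (⨆ i, v (a * y i)) = v a * ⨆ i, v (y i) := by
  simp only [map_mul]
  rw [Real.mul_iSup_of_nonneg (v.nonneg _)]

/-- one step of the induction -/
theorem ctau_step {K T ι : Type} [Field K] [Fintype ι] [Nonempty ι] {δ : T → ℕ}
    {F : T → ι → MvPolynomial ι K} {y : ℕ → ι → K} (h : Orb δ F y) {v : AbsoluteValue K ℝ}
    (hv : IsNonarchimedean v) (hint : ∀ t i m, v ((F t i).coeff m) ≤ 1) {q : ℝ} (hq0 : 0 ≤ q)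
    (hq1 : q < 1) {S : Finset ℕ} {n₀ : ℕ} (hn₀ : n₀ ∈ S) (m : ℕ) (t : T)
    (hgood : (⨆ i, v (eval (y (n₀ + m)) (F t i))) = (⨆ i, v (y (n₀ + m) i)) ^ δ t)
    (u : ℕ → ι → K) (hu : ∀ n ∈ S, (∃ a : K, a ≠ 0 ∧ ∀ i, u n i = a * y (n + m) i) ∧
      (⨆ i, v (u n i)) = 1 ∧ ∀ i, v (u n i - u n₀ i) ≤ q) :
    (∀ n ∈ S, (⨆ i, v (eval (y (n + m)) (F t i))) = (⨆ i, v (y (n + m) i)) ^ δ t) ∧
    ∀ n ∈ S, (∃ a : K, a ≠ 0 ∧ ∀ i, eval (u n) (F t i) = a * y (n + (m + 1)) i) ∧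
      (⨆ i, v (eval (u n) (F t i))) = 1 ∧
      ∀ i, v (eval (u n) (F t i) - eval (u n₀) (F t i)) ≤ q := by
  have hle : ∀ n ∈ S, ∀ i, v (u n i) ≤ 1 := by
    intro n hn i
    rw [← (hu n hn).2.1]
    exact Finite.le_ciSup (fun i => v (u n i)) i
  have hcong : ∀ n ∈ S, ∀ i, v (eval (u n) (F t i) - eval (u n₀) (F t i)) ≤ q :=
    fun n hn i => ctau_cong v hv _ (hint t i) q hq0 hq1.le _ _ (hle n₀ hn₀) (hu n hn).2.2
  have hval : ∀ n ∈ S, ∀ a : K, (∀ i, u n i = a * y (n + m) i) → ∀ i,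
      eval (u n) (F t i) = a ^ δ t * eval (y (n + m)) (F t i) := by
    intro n hn a ha i
    rw [show u n = fun k => a * y (n + m) k from funext ha]
    exact ctau_smul _ _ (h.hom _ _) _ _
  -- the supremum at `n₀`
  have hsup₀ : (⨆ i, v (eval (u n₀) (F t i))) = 1 := by
    obtain ⟨⟨a, -, ha⟩, h1, -⟩ := hu n₀ hn₀
    simp only [hval n₀ hn₀ a ha]
    rw [ctau_sup, hgood, map_pow, ← mul_pow, ← ctau_sup]
    simp only [← ha]
    rw [h1, one_pow]
  obtain ⟨i₁, hi₁⟩ := exists_eq_ciSup_of_finite (f := fun i => v (eval (u n₀) (F t i)))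
  have hi₂ : v (eval (u n₀) (F t i₁)) = 1 := by
    rw [← hsup₀]
    exact hi₁
  have hsup : ∀ n ∈ S, (⨆ i, v (eval (u n) (F t i))) = 1 := by
    intro n hn
    have h1 : ∀ i, v (eval (u n) (F t i)) ≤ 1 := fun i =>
      ctau_int v hv _ (hint t i) _ (hle n hn)
    refine le_antisymm (ciSup_le h1) ?_
    refine Finite.le_ciSup_of_le i₁ ?_
    exact (ctau_lt v hv hq1 (hcong n hn i₁) hi₂ (h1 i₁)).ge
  refine ⟨?_, fun n hn => ⟨?_, hsup n hn, hcong n hn⟩⟩
  · intro n hn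
    obtain ⟨⟨a, ha0, ha⟩, h1, -⟩ := hu n hn
    have h2 := hsup n hn
    simp only [hval n hn a ha] at h2
    simp only [ha] at h1
    rw [ctau_sup] at h1 h2
    have hva : v a ≠ 0 := v.ne_zero ha0
    have h3 : v (a ^ δ t) * (⨆ i, v (eval (y (n + m)) (F t i))) =
        v (a ^ δ t) * (⨆ i, v (y (n + m) i)) ^ δ t := by
      rw [h2, map_pow, ← mul_pow, h1, one_pow]
    exact mul_left_cancel₀ (v.ne_zero (pow_ne_zero _ ha0)) h3
  · obtain ⟨⟨a, ha0, ha⟩, -, -⟩ := hu n hn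
    obtain ⟨c, hcc⟩ := h.prop (n + m) t
    refine ⟨a ^ δ t * c, mul_ne_zero (pow_ne_zero _ ha0) ?_, ?_⟩
    · intro hc0
      subst hc0
      have hz : ∀ i, eval (u n) (F t i) = 0 := by
        intro i
        rw [hval n hn a ha, hcc i, zero_mul, mul_zero]
      have h2 := hsup n hn
      simp only [hz, map_zero, ciSup_const] at h2
      exact zero_ne_one h2
    · intro i
      rw [hval n hn a ha, hcc i, ← mul_assoc, add_assoc]

theorem pcls_cls {K T ι : Type} [Field K] [Fintype ι] [Nonempty ι] {δ : T → ℕ}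
    {F : T → ι → MvPolynomial ι K} {y : ℕ → ι → K} (h : Orb δ F y) {v : AbsoluteValue K ℝ}
    (hv : IsNonarchimedean v) {Y : ℝ} (hY : 1 < Y) {L : ℕ} {i₀ : ι} {S : Finset ℕ}
    (hc : PCls δ F y v Y L i₀ S) : ∃ τ : ℕ → T, Cls δ F y v Y L i₀ τ S := by
  classical
  obtain ⟨t₀, -⟩ := h.step 0
  rcases S.eq_empty_or_nonempty with rfl | ⟨n₀, hn₀⟩
  · exact ⟨fun _ => t₀, hc.int, by simp, by simp, by simp⟩
  have hq0 : 0 ≤ 1 / Y := by positivity
  have hq1 : 1 / Y < 1 := by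
    rw [div_lt_one (by linarith)]
    exact hY
  -- the choice of the tuples
  let τ : ℕ → T := fun m => if hm : m < L then (hc.good n₀ hn₀ m hm).choose else t₀
  have hτ : ∀ m < L, (⨆ i, v (eval (y (n₀ + m)) (F (τ m) i))) =
      (⨆ i, v (y (n₀ + m) i)) ^ δ (τ m) := by
    intro m hm
    have h1 := (hc.good n₀ hn₀ m hm).choose_spec
    simp only [τ, dif_pos hm]
    exact h1
  have key : ∀ m ≤ L, ∃ u : ℕ → ι → K, ∀ n ∈ S,
      (∃ a : K, a ≠ 0 ∧ ∀ i, u n i = a * y (n + m) i) ∧ (⨆ i, v (u n i)) = 1 ∧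
      ∀ i, v (u n i - u n₀ i) ≤ 1 / Y := by
    intro m
    induction m with
    | zero =>
      intro _
      refine ⟨fun n i => y n i / y n i₀, fun n hn => ⟨⟨(y n i₀)⁻¹, ?_, ?_⟩, ?_, ?_⟩⟩
      · exact inv_ne_zero (hc.piv n hn).1
      · intro i
        exact div_eq_inv_mul (y n i) (y n i₀)
      · have hv0 : 0 < v (y n i₀) := v.pos (hc.piv n hn).1
        apply le_antisymm
        · refine ciSup_le fun i => ?_
          rw [map_div₀]
          exact div_le_one_of_le₀ ((hc.piv n hn).2 i) hv0.le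
        · refine Finite.le_ciSup_of_le i₀ ?_
          rw [map_div₀, div_self hv0.ne']
      · intro i
        exact hc.cong n hn n₀ hn₀ i
    | succ m ih =>
      intro hm
      obtain ⟨u, hu⟩ := ih (by omega)
      exact ⟨fun n i => eval (u n) (F (τ m) i),
        (ctau_step h hv hc.int hq0 hq1 hn₀ m (τ m) (hτ m (by omega)) u hu).2⟩
  refine ⟨τ, hc.int, hc.piv, ?_, hc.cong⟩
  intro n hn m hm
  obtain ⟨u, hu⟩ := key m hm.le
  exact (ctau_step h hv hc.int hq0 hq1 hn₀ m (τ m) (hτ m hm) u hu).1 n hn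

end Pool.Agent.GT
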