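import Pool.Agent.GT.Defs

/-!
# Project GT, row A6: elementary growth estimates
-/

set_option autoImplicit false

open Filter

namespace Pool.Agent.GT

theorem poly_exp (A T m : ℕ) : ∃ j : ℕ, 2 * ((A * j + 1) * T) ^ m ≤ 2 ^ j := by
  have h := tendsto_pow_const_div_const_pow_of_one_lt m (r := (2 : ℝ)) (by norm_num)
  have hC : (0 : ℝ) < 2 * (((A : ℝ) + 1) * T) ^ m + 1 := by positivity
  have h2 : ∀ᶠ n : ℕ in atTop, (n : ℝ) ^ m / 2 ^ n < 1 / (2 * (((A : ℝ) + 1) * T) ^ m + 1) :=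
    h.eventually (gt_mem_nhds (by positivity))
  obtain ⟨j, hj, hj1⟩ := (h2.and (eventually_ge_atTop 1)).exists
  refine ⟨j, ?_⟩
  have h3 : (j : ℝ) ^ m * (2 * (((A : ℝ) + 1) * T) ^ m + 1) < 2 ^ j := by
    rw [div_lt_div_iff₀ (by positivity) hC, one_mul] at hj
    exact hj
  have h4 : (((A * j + 1) * T : ℕ) : ℝ) ≤ ((A : ℝ) + 1) * T * j := by
    push_cast
    have hj1' : (1 : ℝ) ≤ j := by exact_mod_cast hj1
    have hT : (0 : ℝ) ≤ T := Nat.cast_nonneg T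
    nlinarith [mul_nonneg hT (sub_nonneg.2 hj1')]
  have h5 : ((2 * ((A * j + 1) * T) ^ m : ℕ) : ℝ) ≤ ((2 ^ j : ℕ) : ℝ) := by
    have h6 : ((((A * j + 1) * T : ℕ) : ℝ)) ^ m ≤ (((A : ℝ) + 1) * T * j) ^ m :=
      pow_le_pow_left₀ (Nat.cast_nonneg _) h4 m
    have h7 : (((A : ℝ) + 1) * T * j) ^ m = (((A : ℝ) + 1) * T) ^ m * (j : ℝ) ^ m := mul_pow _ _ _
    have h8 : (0 : ℝ) ≤ (j : ℝ) ^ m := by positivity
    rw [Nat.cast_mul, Nat.cast_pow, Nat.cast_pow, Nat.cast_ofNat]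
    nlinarith
  exact_mod_cast h5

theorem numeric (A m w κ j : ℕ) (η : ℝ) (hη : 0 < η) (T : ℕ) (hT : 1 ≤ T * η) :
    ∀ᶠ N : ℕ in atTop,
      ((2 * ((A * j + 1) * T) ^ m).factorial : ℝ) ^ w *
          ((((κ : ℝ) + 1) * N + 2) ^ A) ^ (2 * ((A * j + 1) * T) ^ m * j) <
        ((N : ℝ) ^ (2 * η)) ^ ((A * j + 1) * T *
          (2 * ((A * j + 1) * T) ^ m - ((A * j + 1) * T) ^ m)) := by
  have hT0 : 0 < T := by
    rcases Nat.eq_zero_or_pos T with h | h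
    · rw [h, Nat.cast_zero, zero_mul] at hT
      linarith
    · exact h
  set s : ℕ := ((A * j + 1) * T) ^ m with hs
  have hs1 : 1 ≤ s := Nat.one_le_pow _ _ (Nat.mul_pos (Nat.succ_pos _) hT0)
  have hsub : 2 * s - s = s := by omega
  rw [hsub]
  set F : ℝ := ((2 * s).factorial : ℝ) ^ w with hF
  have hF0 : 0 ≤ F := by positivity
  set C : ℝ := F * (((κ : ℝ) + 3) ^ A) ^ (2 * s * j) with hC
  have hN := tendsto_natCast_atTop_atTop (R := ℝ)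
  filter_upwards [hN.eventually_gt_atTop C, eventually_ge_atTop 1] with N hCN hN1
  have hN1' : (1 : ℝ) ≤ N := by exact_mod_cast hN1
  have hN0 : (0 : ℝ) < N := by linarith
  have h1 : F * ((((κ : ℝ) + 1) * N + 2) ^ A) ^ (2 * s * j) ≤ C * (N : ℝ) ^ (A * (2 * s * j)) := by
    rw [hC, mul_assoc F]
    apply mul_le_mul_of_nonneg_left _ hF0
    have h2 : (((κ : ℝ) + 1) * N + 2) ≤ ((κ : ℝ) + 3) * N := by nlinarith
    calc ((((κ : ℝ) + 1) * N + 2) ^ A) ^ (2 * s * j)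
        ≤ ((((κ : ℝ) + 3) * N) ^ A) ^ (2 * s * j) := by
          apply pow_le_pow_left₀ (by positivity)
          exact pow_le_pow_left₀ (by positivity) h2 A
      _ = (((κ : ℝ) + 3) ^ A) ^ (2 * s * j) * (N : ℝ) ^ (A * (2 * s * j)) := by
          rw [mul_pow, mul_pow, ← pow_mul (N : ℝ)]
  have h3 : (N : ℝ) ^ (A * (2 * s * j)) * (N : ℝ) ^ (2 * s) ≤
      ((N : ℝ) ^ (2 * η)) ^ ((A * j + 1) * T * s) := by
    rw [← pow_add, ← Real.rpow_natCast (N : ℝ), ← Real.rpow_natCast ((N : ℝ) ^ (2 * η)),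
      ← Real.rpow_mul hN0.le]
    apply Real.rpow_le_rpow_of_exponent_le hN1'
    push_cast
    have h4 : (0 : ℝ) ≤ ((A : ℝ) * j + 1) * s := by positivity
    nlinarith [mul_le_mul_of_nonneg_left hT h4]
  have h5 : C < (N : ℝ) ^ (2 * s) := by
    calc C < N := hCN
      _ = (N : ℝ) ^ 1 := (pow_one _).symm
      _ ≤ (N : ℝ) ^ (2 * s) := pow_le_pow_right₀ hN1' (by omega)
  have h6 : (0 : ℝ) < (N : ℝ) ^ (A * (2 * s * j)) := by positivity
  calc F * ((((κ : ℝ) + 1) * N + 2) ^ A) ^ (2 * s * j)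
      ≤ C * (N : ℝ) ^ (A * (2 * s * j)) := h1
    _ < (N : ℝ) ^ (2 * s) * (N : ℝ) ^ (A * (2 * s * j)) := mul_lt_mul_of_pos_right h5 h6
    _ = (N : ℝ) ^ (A * (2 * s * j)) * (N : ℝ) ^ (2 * s) := mul_comm _ _
    _ ≤ _ := h3

end Pool.Agent.GT
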