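import Pool.Agent.GT.BadBound

/-!
GT-A3: at every point of the orbit there are only boundedly many places of large bad reduction.
-/

set_option autoImplicit false

open Filter MvPolynomial Height Height.AdmissibleAbsValues

namespace Pool.Agent.GT

theorem fb_pow (E : ℕ) (C : ℝ) (hC : 1 ≤ C) (κ : ℕ) (η : ℝ) (C₁ : ℕ)
    (h : (E : ℝ) < 2 * η * (C₁ + 1)) :
    ∀ᶠ N : ℕ in atTop, 1 ≤ N ∧
      C * ((κ : ℝ) * N + 2) ^ E < ((N : ℝ) ^ (2 * η)) ^ (C₁ + 1) := by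
  have h0 : (0 : ℝ) < 2 * η * (C₁ + 1) - E := by linarith
  have ht := (tendsto_rpow_atTop h0).comp (tendsto_natCast_atTop_atTop (R := ℝ))
  filter_upwards [ht.eventually_gt_atTop (C * ((κ : ℝ) + 2) ^ E), eventually_ge_atTop 1] with N hN h1
  refine ⟨h1, ?_⟩
  have hN1 : (1 : ℝ) ≤ N := by exact_mod_cast h1
  have hN0 : (0 : ℝ) < N := by linarith
  simp only [Function.comp] at hN
  have e1 : ((κ : ℝ) * N + 2) ^ E ≤ (((κ : ℝ) + 2) * N) ^ E := by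
    apply pow_le_pow_left₀ (by positivity)
    nlinarith
  calc C * ((κ : ℝ) * N + 2) ^ E ≤ C * (((κ : ℝ) + 2) * N) ^ E := by
        apply mul_le_mul_of_nonneg_left e1 (by linarith)
    _ = (C * ((κ : ℝ) + 2) ^ E) * (N : ℝ) ^ (E : ℝ) := by
        rw [mul_pow, Real.rpow_natCast]; ring
    _ < (N : ℝ) ^ (2 * η * (C₁ + 1) - E) * (N : ℝ) ^ (E : ℝ) := by
        apply mul_lt_mul_of_pos_right hN
        positivity
    _ = ((N : ℝ) ^ (2 * η)) ^ (C₁ + 1) := by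
        rw [← Real.rpow_add hN0, ← Real.rpow_natCast, ← Real.rpow_mul hN0.le]
        congr 1
        push_cast
        ring

theorem few_bad {K T ι : Type} [Field K] [NumberField K] [Finite T] [Fintype ι] [Nonempty ι]
    {δ : T → ℕ} {F : T → ι → MvPolynomial ι K} {y : ℕ → ι → K} (h : Orb δ F y) (A : ℕ)
    (hA : ∀ n, mulHeight (y n) ≤ ((n : ℝ) + 2) ^ A) (η : ℝ) (hη : 0 < η) (κ : ℕ) :
    ∃ C₁ : ℕ, ∀ᶠ N : ℕ in atTop, ∀ m ≤ κ * N, ∀ V : Finset (AbsoluteValue K ℝ),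
      (∀ v ∈ V, v ∈ nonarchAbsVal (K := K) ∧ ∀ t,
        (⨆ i, v (eval (y m) (F t i))) * (N : ℝ) ^ (2 * η) ≤ (⨆ i, v (y m i)) ^ δ t) →
      V.card ≤ C₁ := by
  classical
  have := Fintype.ofFinite T
  choose Cf hCf hb using fun t => bad_bound (δ t) (F t) (h.hom t)
  obtain ⟨E, hE⟩ : ∃ E : ℕ, ∀ t, δ t ≤ E := ⟨∑ t, δ t, fun t =>
    Finset.single_le_sum (f := δ) (fun _ _ => Nat.zero_le _) (Finset.mem_univ t)⟩
  obtain ⟨C, hC1, hC⟩ : ∃ C : ℝ, 1 ≤ C ∧ ∀ t, Cf t ≤ C := by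
    refine ⟨1 + ∑ t, Cf t, ?_, fun t => ?_⟩
    · have : 0 ≤ ∑ t, Cf t := Finset.sum_nonneg fun t _ => by linarith [hCf t]
      linarith
    · have := Finset.single_le_sum (f := Cf) (fun t _ => by linarith [hCf t]) (Finset.mem_univ t)
      linarith
  obtain ⟨C₁, hC₁⟩ := exists_nat_gt ((A * E : ℕ) / (2 * η) : ℝ)
  have hlt : ((A * E : ℕ) : ℝ) < 2 * η * (C₁ + 1) := by
    rw [div_lt_iff₀ (by positivity)] at hC₁
    nlinarith
  refine ⟨C₁, ?_⟩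
  filter_upwards [fb_pow (A * E) C hC1 κ η C₁ hlt] with N hN m hm V hV
  obtain ⟨hN1, hN⟩ := hN
  by_contra hcard
  push Not at hcard
  obtain ⟨t, i, hti⟩ := h.step m
  have hY : (1 : ℝ) ≤ (N : ℝ) ^ (2 * η) :=
    Real.one_le_rpow (by exact_mod_cast hN1) (by positivity)
  have h1 := hb t (y m) (fun h0 => hti (congrFun h0 i)) V ((N : ℝ) ^ (2 * η)) hY
    (fun v hv => ⟨(hV v hv).1, (hV v hv).2 t⟩)
  have h2 : ((N : ℝ) ^ (2 * η)) ^ (C₁ + 1) ≤ ((N : ℝ) ^ (2 * η)) ^ V.card :=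
    pow_le_pow_right₀ hY hcard
  have hm' : (m : ℝ) ≤ κ * N := by exact_mod_cast hm
  have h3 : mulHeight (y m) ^ δ t ≤ ((κ : ℝ) * N + 2) ^ (A * E) := by
    calc mulHeight (y m) ^ δ t ≤ (((m : ℝ) + 2) ^ A) ^ δ t :=
          pow_le_pow_left₀ (by positivity) (hA m) _
      _ = ((m : ℝ) + 2) ^ (A * δ t) := by rw [pow_mul]
      _ ≤ ((m : ℝ) + 2) ^ (A * E) := by
          apply pow_le_pow_right₀ (by linarith [Nat.cast_nonneg (α := ℝ) m])
          exact Nat.mul_le_mul_left _ (hE t)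
      _ ≤ ((κ : ℝ) * N + 2) ^ (A * E) := by
          apply pow_le_pow_left₀ (by positivity)
          linarith
  have h4 : Cf t * mulHeight (y m) ^ δ t ≤ C * ((κ : ℝ) * N + 2) ^ (A * E) :=
    mul_le_mul (hC t) h3 (by positivity) (by linarith)
  linarith

end Pool.Agent.GT
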