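import Pool.Agent.GT.ManyPrimes
import Pool.Agent.GT.FewBad
import Pool.Agent.GT.Tools
import Pool.Agent.KST.Primes
import Pool.Agent.KST.Places
import Pool.Agent.KST.CoverE

/-!
Project GT (MP_e3c919_ag), row A4: choice of a prime and of a pigeonhole class (helper19).
-/

set_option autoImplicit false
set_option maxHeartbeats 400000

open Filter MvPolynomial Height Height.AdmissibleAbsValues

namespace Pool.Agent.GT

/-- Reduction at a place is good, or it loses the size of the residue field. -/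
theorem sl_good {K ι : Type} [Field K] [Fintype ι] [Nonempty ι] {v : AbsoluteValue K ℝ}
    (hv : IsNonarchimedean v) {q : ℝ} (hq : 0 < q) (hd : ∀ a : K, v a < 1 → v a ≤ 1 / q)
    {d : ℕ} {F : ι → MvPolynomial ι K} (hF : ∀ i, (F i).IsHomogeneous d)
    (hint : ∀ i m, v ((F i).coeff m) ≤ 1) {y : ι → K} (hy : y ≠ 0)
    (hne : (⨆ i, v (eval y (F i))) ≠ (⨆ i, v (y i)) ^ d) :
    (⨆ i, v (eval y (F i))) * q ≤ (⨆ i, v (y i)) ^ d := by
  obtain ⟨i₀, hi⟩ := exists_eq_ciSup_of_finite (f := fun i => v (y i))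
  have hi₀ : v (y i₀) = ⨆ i, v (y i) := hi
  have hbdd : ∀ f : ι → ℝ, BddAbove (Set.range f) := fun f => (Set.finite_range f).bddAbove
  have hmax : ∀ i, v (y i) ≤ v (y i₀) := by
    intro i
    rw [hi₀]
    exact le_ciSup (hbdd fun i => v (y i)) i
  have h0 : y i₀ ≠ 0 := by
    intro h0
    apply hy
    funext i
    have h1 := hmax i
    rw [h0, map_zero] at h1
    exact v.eq_zero.mp (le_antisymm h1 (v.nonneg _))
  have hpos : 0 < v (y i₀) := v.pos h0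
  have hpd : 0 < v (y i₀) ^ d := pow_pos hpos d
  obtain ⟨y', hy'⟩ : ∃ y' : ι → K, ∀ i, y' i = y i / y i₀ := ⟨fun i => y i / y i₀, fun _ => rfl⟩
  have hle : ∀ i, v (y' i) ≤ 1 := by
    intro i
    rw [hy', map_div₀, div_le_one hpos]
    exact hmax i
  have hyy : y = fun i => y i₀ * y' i := by
    funext j
    rw [hy', mul_div_cancel₀ _ h0]
  have hev : ∀ i, eval y (F i) = y i₀ ^ d * eval y' (F i) := by
    intro i
    rw [← eval_smul_form (hF i), ← hyy]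
  have hle1 : ∀ i, v (eval y' (F i)) ≤ 1 := by
    intro i
    rw [← KST.padic_mem v hv, MvPolynomial.eval_eq]
    refine Subring.sum_mem _ fun m _ => Subring.mul_mem _ (hint i m) ?_
    exact Subring.prod_mem _ fun j _ => Subring.pow_mem _ (hle j) _
  have hlt : ∀ i, v (eval y' (F i)) < 1 := by
    intro i
    refine lt_of_le_of_ne (hle1 i) fun h1 => hne ?_
    rw [← hi₀]
    apply le_antisymm
    · apply ciSup_le
      intro j
      rw [hev, map_mul, map_pow]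
      exact mul_le_of_le_one_right hpd.le (hle1 j)
    · have h2 : v (eval y (F i)) ≤ ⨆ i, v (eval y (F i)) :=
        le_ciSup (hbdd fun i => v (eval y (F i))) i
      rw [hev i, map_mul, map_pow, h1, mul_one] at h2
      exact h2
  have h3 : (⨆ i, v (eval y (F i))) ≤ v (y i₀) ^ d * (1 / q) := by
    apply ciSup_le
    intro i
    rw [hev, map_mul, map_pow]
    exact mul_le_mul_of_nonneg_left (hd _ (hlt i)) hpd.le
  rw [← hi₀]
  calc (⨆ i, v (eval y (F i))) * q ≤ v (y i₀) ^ d * (1 / q) * q :=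
        mul_le_mul_of_nonneg_right h3 hq.le
    _ = v (y i₀) ^ d := by field_simp

theorem sl_pigeon {α β : Type} [Fintype β] [DecidableEq β] [Nonempty β] (S : Finset α)
    (f : α → β) : ∃ b, S.card ≤ Fintype.card β * (S.filter fun a => f a = b).card := by
  obtain ⟨b, hb⟩ := Finite.exists_max fun b => (S.filter fun a => f a = b).card
  refine ⟨b, ?_⟩
  have h1 := Finset.card_eq_sum_card_fiberwise (s := S) (f := f) (t := Finset.univ)
    (fun _ _ => by simp)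
  have h2 : ∑ c : β, (S.filter fun a => f a = c).card ≤
      ∑ _c : β, (S.filter fun a => f a = b).card := Finset.sum_le_sum fun c _ => hb c
  rw [Finset.sum_const, smul_eq_mul, Finset.card_univ] at h2
  rw [h1]
  exact h2

theorem sl_double {α β : Type} (S : Finset α) (P : Finset β) (hP : P.Nonempty)
    (R : α → β → Prop) [∀ a b, Decidable (R a b)]
    (h : ∀ a ∈ S, 2 * (P.filter fun b => ¬ R a b).card ≤ P.card) :
    ∃ b ∈ P, S.card ≤ 2 * (S.filter fun a => R a b).card := by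
  by_contra hc
  push Not at hc
  have h1 : ∑ b ∈ P, 2 * (S.filter fun a => R a b).card < ∑ _b ∈ P, S.card :=
    Finset.sum_lt_sum_of_nonempty hP fun b hb => hc b hb
  have h2 : ∑ b ∈ P, (S.filter fun a => R a b).card =
      ∑ a ∈ S, (P.filter fun b => R a b).card := by
    simp only [Finset.card_filter]
    exact Finset.sum_comm
  have h3 : ∀ a ∈ S, P.card ≤ 2 * (P.filter fun b => R a b).card := by
    intro a ha
    have h4 := Finset.card_filter_add_card_filter_not (s := P) (p := fun b => R a b)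
    have h5 := h a ha
    omega
  have h6 : ∑ _a ∈ S, P.card ≤ ∑ a ∈ S, 2 * (P.filter fun b => R a b).card :=
    Finset.sum_le_sum h3
  rw [← Finset.mul_sum, h2, Finset.mul_sum, Finset.sum_const, smul_eq_mul] at h1
  rw [Finset.sum_const, smul_eq_mul, mul_comm] at h6
  exact absurd h1 (not_lt.mpr h6)

theorem sl_num (η : ℝ) (hη : 0 < η) (C₁ Y₀ : ℕ) : ∀ᶠ N : ℕ in atTop,
    1 ≤ N ∧ Y₀ ≤ ⌈(N : ℝ) ^ (2 * η)⌉₊ ∧
      2 * (⌊(N : ℝ) ^ η⌋₊ * C₁) ≤ ⌈(N : ℝ) ^ (2 * η)⌉₊ := by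
  have h1 : Tendsto (fun N : ℕ => (N : ℝ) ^ η) atTop atTop :=
    (tendsto_rpow_atTop hη).comp tendsto_natCast_atTop_atTop
  have h2 : Tendsto (fun N : ℕ => (N : ℝ) ^ (2 * η)) atTop atTop :=
    (tendsto_rpow_atTop (by linarith)).comp tendsto_natCast_atTop_atTop
  filter_upwards [eventually_ge_atTop 1, h1.eventually_ge_atTop (2 * C₁ : ℝ),
    h2.eventually_ge_atTop (Y₀ : ℝ)] with N hN h3 h4
  have hN0 : (0 : ℝ) < N := by exact_mod_cast hN
  refine ⟨hN, ?_, ?_⟩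
  · exact_mod_cast h4.trans (Nat.le_ceil _)
  · have h5 : (⌊(N : ℝ) ^ η⌋₊ : ℝ) ≤ (N : ℝ) ^ η := Nat.floor_le (by positivity)
    have h6 : (N : ℝ) ^ (2 * η) = (N : ℝ) ^ η * (N : ℝ) ^ η := by
      rw [← Real.rpow_add hN0]
      congr 1
      ring
    have h7 : (2 * (⌊(N : ℝ) ^ η⌋₊ * C₁) : ℝ) ≤ (N : ℝ) ^ (2 * η) := by
      rw [h6]
      have h8 : (0 : ℝ) ≤ (⌊(N : ℝ) ^ η⌋₊ : ℝ) := by positivity
      have h9 : (0 : ℝ) ≤ (N : ℝ) ^ η := by positivity
      calc (2 * (⌊(N : ℝ) ^ η⌋₊ * C₁) : ℝ) = (⌊(N : ℝ) ^ η⌋₊ : ℝ) * (2 * C₁) := by ring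
        _ ≤ (N : ℝ) ^ η * (N : ℝ) ^ η := mul_le_mul h5 h3 (by positivity) h9
    exact_mod_cast h7.trans (Nat.le_ceil _)

theorem sl_count (η : ℝ) (hη : 0 < η) (d r N q p : ℕ) (hN : 1 ≤ N)
    (hp : p ≤ ⌈(N : ℝ) ^ (2 * η)⌉₊ ^ 2) (hq : q ≤ p ^ d) :
    ((r * q ^ r : ℕ) : ℝ) ≤ r * 2 ^ (2 * d * r) * (N : ℝ) ^ (4 * d * r * η) := by
  have hN1 : (1 : ℝ) ≤ N := by exact_mod_cast hN
  have hN0 : (0 : ℝ) < N := by linarith
  have h1 : (1 : ℝ) ≤ (N : ℝ) ^ (2 * η) := Real.one_le_rpow hN1 (by linarith)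
  have h2 : (⌈(N : ℝ) ^ (2 * η)⌉₊ : ℝ) ≤ 2 * (N : ℝ) ^ (2 * η) := by
    have := (Nat.ceil_lt_add_one (show (0 : ℝ) ≤ (N : ℝ) ^ (2 * η) by positivity)).le
    linarith
  have h3 : q ^ r ≤ ⌈(N : ℝ) ^ (2 * η)⌉₊ ^ (2 * d * r) := by
    calc q ^ r ≤ (p ^ d) ^ r := Nat.pow_le_pow_left hq r
      _ ≤ ((⌈(N : ℝ) ^ (2 * η)⌉₊ ^ 2) ^ d) ^ r :=
        Nat.pow_le_pow_left (Nat.pow_le_pow_left hp d) r
      _ = ⌈(N : ℝ) ^ (2 * η)⌉₊ ^ (2 * d * r) := by rw [← pow_mul, ← pow_mul, mul_assoc]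
  have h4 : ((q ^ r : ℕ) : ℝ) ≤ (⌈(N : ℝ) ^ (2 * η)⌉₊ : ℝ) ^ (2 * d * r) := by
    exact_mod_cast h3
  have h5 : (⌈(N : ℝ) ^ (2 * η)⌉₊ : ℝ) ^ (2 * d * r) ≤
      2 ^ (2 * d * r) * (N : ℝ) ^ (4 * d * r * η) := by
    calc (⌈(N : ℝ) ^ (2 * η)⌉₊ : ℝ) ^ (2 * d * r) ≤ (2 * (N : ℝ) ^ (2 * η)) ^ (2 * d * r) :=
          pow_le_pow_left₀ (by positivity) h2 _
      _ = 2 ^ (2 * d * r) * (N : ℝ) ^ (4 * d * r * η) := by
        rw [mul_pow, ← Real.rpow_natCast ((N : ℝ) ^ (2 * η)), ← Real.rpow_mul hN0.le]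
        congr 2
        push_cast
        ring
  calc ((r * q ^ r : ℕ) : ℝ) = r * ((q ^ r : ℕ) : ℝ) := by push_cast; ring
    _ ≤ r * (2 ^ (2 * d * r) * (N : ℝ) ^ (4 * d * r * η)) :=
      mul_le_mul_of_nonneg_left (h4.trans h5) (by positivity)
    _ = r * 2 ^ (2 * d * r) * (N : ℝ) ^ (4 * d * r * η) := by ring

/-- For all but finitely many places the coefficients of all the forms are integral. -/
theorem sl_int {K T ι : Type} [Field K] [AdmissibleAbsValues K] [Fintype T] [Fintype ι]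
    (F : T → ι → MvPolynomial ι K) :
    ∃ B : Set (AbsoluteValue K ℝ), B.Finite ∧ ∀ v ∈ nonarchAbsVal (K := K), v ∉ B →
      ∀ t i m, v ((F t i).coeff m) ≤ 1 := by
  classical
  obtain ⟨B, hB, h⟩ := KST.places_bad (K := K) (Finset.univ.biUnion fun t : T =>
    Finset.univ.biUnion fun i : ι => (F t i).support.image fun m => (F t i).coeff m)
  refine ⟨B, hB, fun v hv hvB t i m => ?_⟩
  by_cases hm : (F t i).coeff m = 0
  · rw [hm, map_zero]
    exact zero_le_one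
  · apply h v hv hvB
    refine Finset.mem_biUnion.mpr ⟨t, Finset.mem_univ t, ?_⟩
    refine Finset.mem_biUnion.mpr ⟨i, Finset.mem_univ i, ?_⟩
    exact Finset.mem_image.mpr ⟨m, MvPolynomial.mem_support_iff.mpr hm, rfl⟩

theorem sel {K T ι : Type} [Field K] [NumberField K] [Finite T] [Fintype ι] [Nonempty ι]
    {δ : T → ℕ} {F : T → ι → MvPolynomial ι K} {y : ℕ → ι → K} (h : Orb δ F y) (A : ℕ)
    (hA : ∀ n, mulHeight (y n) ≤ ((n : ℝ) + 2) ^ A) :
    ∃ c₁ : ℝ, 0 < c₁ ∧ ∀ η : ℝ, 0 < η → η ≤ 1 → ∀ κ : ℕ, ∃ C : ℝ, 0 < C ∧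
      ∀ᶠ N : ℕ in atTop, ∀ S : Finset ℕ, (∀ n ∈ S, n ≤ κ * N) →
        ∃ S' ⊆ S, (S.card : ℝ) ≤ C * (N : ℝ) ^ (c₁ * η) * S'.card ∧
          ∃ v ∈ nonarchAbsVal (K := K), ∃ i₀,
            PCls δ F y v ((N : ℝ) ^ (2 * η)) ⌊(N : ℝ) ^ η⌋₊ i₀ S' := by
  classical
  have := Fintype.ofFinite T
  set d := Module.finrank ℚ K with hd
  set r := Fintype.card ι with hr
  have hd1 : 0 < d := Module.finrank_pos
  have hr1 : 0 < r := Fintype.card_pos
  refine ⟨4 * d * r, by positivity, fun η hη hη1 κ => ?_⟩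
  obtain ⟨B, hB, hBint⟩ := sl_int F
  obtain ⟨Y₁, hY₁⟩ := KST.finite_bad_primes B hB
  obtain ⟨Y₀, hY₀⟩ := many_primes
  obtain ⟨C₁, hC₁⟩ := few_bad h A hA η hη (κ + 1)
  have hpl : ∀ p : ℕ, ∃ v : AbsoluteValue K ℝ, p.Prime →
      (v ∈ nonarchAbsVal (K := K) ∧ v (p : K) < 1 ∧ ∃ q : ℕ, p ≤ q ∧
      q ≤ p ^ d ∧ (∀ a : K, v a < 1 → v a ≤ 1 / (q : ℝ)) ∧
      ∃ cls : K → Fin q, ∀ a b, v a ≤ 1 → v b ≤ 1 → cls a = cls b → v (a - b) < 1) := by
    intro p
    by_cases hp : p.Prime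
    · obtain ⟨v, hv, hv'⟩ := KST.exists_place K p hp
      exact ⟨v, fun _ => ⟨hv, hv'⟩⟩
    · exact ⟨AbsoluteValue.trivial, fun h => absurd h hp⟩
  choose v hv using hpl
  refine ⟨2 * (r * 2 ^ (2 * d * r)), by positivity, ?_⟩
  filter_upwards [hC₁, sl_num η hη C₁ (Y₀ + Y₁)] with N hfew hnum S hS
  obtain ⟨hN, hYY, hLC⟩ := hnum
  have hN1 : (1 : ℝ) ≤ N := by exact_mod_cast hN
  have hN0 : (0 : ℝ) < N := by linarith
  set L := ⌊(N : ℝ) ^ η⌋₊ with hL
  set Y := ⌈(N : ℝ) ^ (2 * η)⌉₊ with hY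
  have hYN : (N : ℝ) ^ (2 * η) ≤ Y := Nat.le_ceil _
  have hY2 : 0 < (N : ℝ) ^ (2 * η) := Real.rpow_pos_of_pos hN0 _
  have hLN : L ≤ N := by
    have h1 : (N : ℝ) ^ η ≤ N := by
      calc (N : ℝ) ^ η ≤ (N : ℝ) ^ (1 : ℝ) := Real.rpow_le_rpow_of_exponent_le hN1 hη1
        _ = N := Real.rpow_one _
    have h2 : (L : ℝ) ≤ (N : ℝ) ^ η := Nat.floor_le (Real.rpow_nonneg hN0.le _)
    exact_mod_cast h2.trans h1
  obtain ⟨P, hPc, hP⟩ := hY₀ Y (by omega)
  have hPne : P.Nonempty := by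
    rw [← Finset.card_pos]
    have h1 : (0 : ℝ) < Y := hY2.trans_le hYN
    have h2 : 0 < Y := by exact_mod_cast h1
    omega
  have hint : ∀ p ∈ P, ∀ t i m, v p ((F t i).coeff m) ≤ 1 := by
    intro p hp
    obtain ⟨hpp, hYp, -⟩ := hP p hp
    obtain ⟨h1, h2, -⟩ := hv p hpp
    exact hBint (v p) h1 (hY₁ p hpp (by omega) (v p) h1 h2)
  have hinj : Set.InjOn v (P : Set ℕ) := by
    intro p hp p' hp' hpp'
    obtain ⟨h1, h2, -⟩ := hv p (hP p hp).1
    obtain ⟨h1', h2', -⟩ := hv p' (hP p' hp').1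
    rw [← hpp'] at h2'
    exact KST.place_unique (v p) (isNonarchimedean _ h1) p p' (hP p hp).1 (hP p' hp').1 h2 h2'
  have hone : ∀ m ≤ (κ + 1) * N, (P.filter fun p => ∀ t,
      (⨆ i, v p (eval (y m) (F t i))) ≠ (⨆ i, v p (y m i)) ^ δ t).card ≤ C₁ := by
    intro m hm
    rw [← Finset.card_image_of_injOn (f := v) (hinj.mono fun p hp =>
      Finset.mem_of_mem_filter p hp)]
    apply hfew m hm
    intro w hw
    obtain ⟨p, hp, rfl⟩ := Finset.mem_image.mp hw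
    obtain ⟨hpP, hpt⟩ := Finset.mem_filter.mp hp
    obtain ⟨hpp, hYp, -⟩ := hP p hpP
    obtain ⟨h1, h2, q, hq1, hq2, hq3, -⟩ := hv p hpp
    refine ⟨h1, fun t => ?_⟩
    have hq0 : (0 : ℝ) < q := by
      have : 0 < q := lt_of_lt_of_le hpp.pos hq1
      exact_mod_cast this
    have hNq : (N : ℝ) ^ (2 * η) ≤ q := by
      refine hYN.trans ?_
      have : Y ≤ q := by omega
      exact_mod_cast this
    have h3 := sl_good (isNonarchimedean _ h1) hq0 hq3 (h.hom t) (hint p hpP t) (h.ne m) (hpt t)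
    refine le_trans (mul_le_mul_of_nonneg_left hNq ?_) h3
    exact Real.iSup_nonneg fun i => (v p).nonneg _
  obtain ⟨p, hp, hpS⟩ := sl_double S P hPne (fun n p => ∀ m < L, ∃ t,
    (⨆ i, v p (eval (y (n + m)) (F t i))) = (⨆ i, v p (y (n + m) i)) ^ δ t) (by
      intro n hn
      have h1 : (P.filter fun p => ¬ ∀ m < L, ∃ t,
          (⨆ i, v p (eval (y (n + m)) (F t i))) = (⨆ i, v p (y (n + m) i)) ^ δ t) ⊆
          (Finset.range L).biUnion fun m => P.filter fun p => ∀ t,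
            (⨆ i, v p (eval (y (n + m)) (F t i))) ≠ (⨆ i, v p (y (n + m) i)) ^ δ t := by
        intro p hp
        obtain ⟨hpP, hp2⟩ := Finset.mem_filter.mp hp
        push Not at hp2
        obtain ⟨m, hm, hp3⟩ := hp2
        exact Finset.mem_biUnion.mpr ⟨m, Finset.mem_range.mpr hm,
          Finset.mem_filter.mpr ⟨hpP, hp3⟩⟩
      have h2 := (Finset.card_le_card h1).trans (Finset.card_biUnion_le_card_mul
        (Finset.range L) _ C₁ (by
          intro m hm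
          apply hone
          have h3 := hS n hn
          have h4 := Finset.mem_range.mp hm
          nlinarith))
      rw [Finset.card_range] at h2
      omega)
  obtain ⟨hpp, hYp, hpY⟩ := hP p hp
  obtain ⟨hvn, hvp, q, hq1, hq2, hq3, cls, hcls⟩ := hv p hpp
  have hq0 : 0 < q := lt_of_lt_of_le hpp.pos hq1
  have hNq : (N : ℝ) ^ (2 * η) ≤ q := by
    refine hYN.trans ?_
    have : Y ≤ q := by omega
    exact_mod_cast this
  have hmax : ∀ n, ∃ i₀, ∀ i, v p (y n i) ≤ v p (y n i₀) := fun n =>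
    Finite.exists_max fun i => v p (y n i)
  choose piv hpiv using hmax
  have hpiv0 : ∀ n, y n (piv n) ≠ 0 := by
    intro n h0
    apply h.ne n
    funext i
    have h1 := hpiv n i
    rw [h0, map_zero] at h1
    exact (v p).eq_zero.mp (le_antisymm h1 ((v p).nonneg _))
  have : Nonempty (Fin q) := ⟨⟨0, hq0⟩⟩
  obtain ⟨⟨i₀, γ⟩, hb⟩ := sl_pigeon (S.filter fun n => ∀ m < L, ∃ t,
    (⨆ i, v p (eval (y (n + m)) (F t i))) = (⨆ i, v p (y (n + m) i)) ^ δ t)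
    (fun n => (piv n, fun i => cls (y n i / y n (piv n))))
  set S₁ := S.filter fun n => ∀ m < L, ∃ t,
    (⨆ i, v p (eval (y (n + m)) (F t i))) = (⨆ i, v p (y (n + m) i)) ^ δ t with hS₁
  set S' := S₁.filter fun n => (piv n, fun i => cls (y n i / y n (piv n))) = (i₀, γ) with hS'
  have hmem : ∀ n ∈ S', (∀ m < L, ∃ t,
      (⨆ i, v p (eval (y (n + m)) (F t i))) = (⨆ i, v p (y (n + m) i)) ^ δ t) ∧
      piv n = i₀ ∧ ∀ i, cls (y n i / y n i₀) = γ i := by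
    intro n hn
    obtain ⟨h1, h2⟩ := Finset.mem_filter.mp hn
    obtain ⟨h3, h4⟩ := Finset.mem_filter.mp h1
    have h5 := (Prod.ext_iff.mp h2).1
    have h6 := (Prod.ext_iff.mp h2).2
    simp only at h5 h6
    refine ⟨h4, h5, fun i => ?_⟩
    rw [← h6, h5]
  refine ⟨S', (Finset.filter_subset _ _).trans (Finset.filter_subset _ _), ?_, v p, hvn, i₀, ?_⟩
  · have hcard : Fintype.card (ι × (ι → Fin q)) = r * q ^ r := by
      simp [hr]
    rw [hcard] at hb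
    have h1 : (S.card : ℝ) ≤ 2 * (((r * q ^ r : ℕ) : ℝ) * S'.card) := by
      have h2 : S.card ≤ 2 * (r * q ^ r * S'.card) := by omega
      exact_mod_cast h2
    have h2 := sl_count η hη d r N q p hN hpY hq2
    have h3 : (0 : ℝ) ≤ S'.card := by positivity
    calc (S.card : ℝ) ≤ 2 * (((r * q ^ r : ℕ) : ℝ) * S'.card) := h1
      _ ≤ 2 * ((r * 2 ^ (2 * d * r) * (N : ℝ) ^ (4 * d * r * η)) * S'.card) := by
        apply mul_le_mul_of_nonneg_left _ (by norm_num)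
        exact mul_le_mul_of_nonneg_right h2 h3
      _ = 2 * (r * 2 ^ (2 * d * r)) * (N : ℝ) ^ (4 * d * r * η) * S'.card := by ring
  · refine ⟨hint p hp, ?_, fun n hn => (hmem n hn).1, ?_⟩
    · intro n hn
      obtain ⟨-, h2, -⟩ := hmem n hn
      rw [← h2]
      exact ⟨hpiv0 n, hpiv n⟩
    · have hle : ∀ n ∈ S', ∀ i, v p (y n i / y n i₀) ≤ 1 := by
        intro n hn i
        obtain ⟨-, h2, -⟩ := hmem n hn
        rw [← h2, map_div₀, div_le_one ((v p).pos (hpiv0 n))]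
        exact hpiv n i
      intro n hn n' hn' i
      have h1 := hcls _ _ (hle n hn i) (hle n' hn' i)
        (((hmem n hn).2.2 i).trans ((hmem n' hn').2.2 i).symm)
      refine (hq3 _ h1).trans ?_
      exact one_div_le_one_div_of_le hY2 hNq

end Pool.Agent.GT
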