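import Pool.Agent.GT.Basic
import Pool.Agent.GT.Sel
import Pool.Agent.GT.CommonTau
import Pool.Agent.GT.ClsDet
import Pool.Agent.GT.Numeric
import Pool.Agent.KST.CoverA

/-!
Linear relations between products of iterates along a large subfamily.
-/

set_option autoImplicit false

open Filter MvPolynomial Height Height.AdmissibleAbsValues

namespace Pool.Agent.GT

theorem exists_rel {K : Type} [Field K] {s : ℕ} (B : Set ℕ) (g : Fin s → ℕ → K)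
    (h : ∀ n : Fin s → ℕ, (∀ u, n u ∈ B) → (Matrix.of fun u u' => g u' (n u)).det = 0) :
    ∃ c : Fin s → K, c ≠ 0 ∧ ∀ n ∈ B, ∑ u, c u * g u n = 0 := by
  classical
  by_cases hli : LinearIndependent K (fun (u : Fin s) (x : B) => g u x)
  · obtain ⟨n, hn⟩ := KST.exists_det_ne_zero s (fun (u : Fin s) (x : B) => g u x) hli
    exact absurd (h (fun u => n u) fun u => (n u).2) hn
  · rw [Fintype.linearIndependent_iff] at hli
    push Not at hli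
    obtain ⟨c, hc, i, hi⟩ := hli
    refine ⟨c, fun h0 => hi (by rw [h0]; rfl), ?_⟩
    intro n hn
    have h1 := congrFun hc ⟨n, hn⟩
    rw [Finset.sum_apply] at h1
    simpa using h1

/-- the finite form -/
theorem cl_fin {K T ι : Type} [Field K] [NumberField K] [Finite T] [Fintype ι] [Nonempty ι]
    {δ : T → ℕ} {F : T → ι → MvPolynomial ι K} {y : ℕ → ι → K} (h : Orb δ F y) (A : ℕ)
    (hA : ∀ n, mulHeight (y n) ≤ ((n : ℝ) + 2) ^ A) :
    ∃ c₁ : ℝ, 0 < c₁ ∧ ∀ η : ℝ, 0 < η → η ≤ 1 → ∃ j s : ℕ, 1 ≤ s ∧ s ≤ 2 ^ j ∧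
      ∀ κ : ℕ, ∃ C : ℝ, 0 < C ∧ ∀ᶠ N : ℕ in atTop, ∀ S : Finset ℕ, (∀ n ∈ S, n ≤ κ * N) →
        ∃ S' ⊆ S, (S.card : ℝ) ≤ C * (N : ℝ) ^ (c₁ * η) * S'.card ∧
          ∀ lam : Fin j → ℕ, (∀ i, (lam i : ℝ) ≤ (N : ℝ) ^ η) →
            ∀ (n : Fin s → ℕ), (∀ u, n u ∈ S') → ∀ φ : Fin s → Fin j → ι,
              (Matrix.of fun u u' => ∏ i, y (n u + lam i) (φ u' i)).det = 0 := by
  classical
  obtain ⟨c₁, hc₁, hsel⟩ := sel h A hA
  refine ⟨c₁, hc₁, ?_⟩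
  intro η hη hη1
  set T₁ := ⌈1 / η⌉₊ with hT₁
  have hT : 1 ≤ (T₁ : ℝ) * η := by
    have h1 : 1 / η ≤ T₁ := Nat.le_ceil _
    rwa [div_le_iff₀ hη] at h1
  have hT0 : 1 ≤ T₁ := by
    rw [Nat.one_le_iff_ne_zero]
    intro h0
    rw [h0] at hT
    norm_num at hT
  obtain ⟨j, hj⟩ := poly_exp A T₁ (Fintype.card ι)
  set t := (A * j + 1) * T₁ with ht
  set s := 2 * t ^ Fintype.card ι with hs
  have ht0 : 1 ≤ t := Nat.mul_pos (Nat.succ_pos _) hT0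
  have hs1 : 1 ≤ s := by
    have := Nat.one_le_pow (Fintype.card ι) t ht0
    omega
  refine ⟨j, s, hs1, hj, ?_⟩
  intro κ
  obtain ⟨C, hC, hsel2⟩ := hsel η hη hη1 κ
  refine ⟨C, hC, ?_⟩
  have hnum := numeric A (Fintype.card ι) (totalWeight K) κ j η hη T₁ hT
  filter_upwards [hsel2, hnum, eventually_ge_atTop 2] with N h1 h2 hN2 S hS
  obtain ⟨S', hS'S, hcard, v, hv, i₀, hp⟩ := h1 S hS
  refine ⟨S', hS'S, hcard, ?_⟩
  intro lam hlam n hn φ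
  by_contra hdet
  have hN1 : (1 : ℝ) < N := by exact_mod_cast hN2
  have hY1 : (1 : ℝ) < (N : ℝ) ^ (2 * η) := Real.one_lt_rpow hN1 (by linarith)
  obtain ⟨τ, hc⟩ := pcls_cls h (isNonarchimedean v hv) hY1 hp
  have h3 := cls_det h hv hY1.le hc s j t lam
    (fun i => Nat.le_floor (hlam i)) n hn φ hdet
  have h4 : ∏ u : Fin s, ∏ i : Fin j, mulHeight (y (n u + lam i)) ≤
      ((((κ : ℝ) + 1) * N + 2) ^ A) ^ (s * j) := by
    have h5 : ∀ (u : Fin s) (i : Fin j), mulHeight (y (n u + lam i)) ≤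
        (((κ : ℝ) + 1) * N + 2) ^ A := by
      intro u i
      refine (hA _).trans ?_
      apply pow_le_pow_left₀ (by positivity)
      have h6 : (n u : ℝ) ≤ κ * N := by exact_mod_cast hS _ (hS'S (hn u))
      have h7 : (lam i : ℝ) ≤ N := by
        refine (hlam i).trans ?_
        calc (N : ℝ) ^ η ≤ (N : ℝ) ^ (1 : ℝ) :=
              Real.rpow_le_rpow_of_exponent_le hN1.le hη1
          _ = N := Real.rpow_one _
      push_cast
      linarith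
    calc ∏ u : Fin s, ∏ i : Fin j, mulHeight (y (n u + lam i))
        ≤ ∏ _u : Fin s, ∏ _i : Fin j, ((((κ : ℝ) + 1) * N + 2) ^ A) :=
          Finset.prod_le_prod (fun u _ => Finset.prod_nonneg fun i _ => (mulHeight_pos _).le)
            fun u _ => Finset.prod_le_prod (fun i _ => (mulHeight_pos _).le) fun i _ => h5 u i
      _ = ((((κ : ℝ) + 1) * N + 2) ^ A) ^ (s * j) := by
          rw [Finset.prod_const, Finset.prod_const, Finset.card_univ, Finset.card_univ,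
            Fintype.card_fin, Fintype.card_fin, ← pow_mul, mul_comm j s]
  have h5 : (s.factorial : ℝ) ^ totalWeight K * ∏ u : Fin s, ∏ i : Fin j,
      mulHeight (y (n u + lam i)) ≤
      (s.factorial : ℝ) ^ totalWeight K * ((((κ : ℝ) + 1) * N + 2) ^ A) ^ (s * j) :=
    mul_le_mul_of_nonneg_left h4 (by positivity)
  have h6 := h3.trans h5
  rw [show s - t ^ Fintype.card ι = 2 * t ^ Fintype.card ι - t ^ Fintype.card ι by rw [hs]]
    at h6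
  exact absurd h6 (not_le.mpr h2)

theorem CL {K T ι : Type} [Field K] [NumberField K] [Finite T] [Fintype ι] [Nonempty ι]
    {δ : T → ℕ} {F : T → ι → MvPolynomial ι K} {y : ℕ → ι → K} (h : Orb δ F y) (A : ℕ)
    (hA : ∀ n, mulHeight (y n) ≤ ((n : ℝ) + 2) ^ A) :
    ∃ c₁ : ℝ, 0 < c₁ ∧ ∀ η : ℝ, 0 < η → η ≤ 1 → ∃ j s : ℕ, 1 ≤ s ∧ s ≤ 2 ^ j ∧
      ∀ (κ : ℕ) (θ : ℝ) (B : ℕ → Finset ℕ), InW κ B → Large θ B →
        ∃ B' : ℕ → Finset ℕ, (∀ N, B' N ⊆ B N) ∧ Large (θ + c₁ * η) B' ∧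
          ∀ lam : Fin j → ℕ → ℕ, (∀ i, ∀ᶠ N : ℕ in U, (lam i N : ℝ) ≤ (N : ℝ) ^ η) →
            ∀ φ : Fin s → Fin j → ι, ∃ c : Fin s → Kst K, c ≠ 0 ∧
              ∀ ν : ℕ → ℕ, (∀ᶠ N in U, ν N ∈ B' N) →
                ∑ u, c u * ∏ i, pt y (fun N => ν N + lam i N) (φ u i) = 0 := by
  classical
  obtain ⟨c₁, hc₁, hfin⟩ := cl_fin h A hA
  refine ⟨c₁, hc₁, ?_⟩
  intro η hη hη1
  obtain ⟨j, s, hs1, hs2, hfin2⟩ := hfin η hη hη1
  refine ⟨j, s, hs1, hs2, ?_⟩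
  intro κ θ B hB hL
  obtain ⟨C, hC, hfin3⟩ := hfin2 κ
  -- the classes at level `N`
  have h1 : ∀ᶠ N : ℕ in U, ∃ S' : Finset ℕ, S' ⊆ B N ∧
      ((B N).card : ℝ) ≤ C * (N : ℝ) ^ (c₁ * η) * S'.card ∧
      ∀ lam : Fin j → ℕ, (∀ i, (lam i : ℝ) ≤ (N : ℝ) ^ η) →
        ∀ (n : Fin s → ℕ), (∀ u, n u ∈ S') → ∀ φ : Fin s → Fin j → ι,
          (Matrix.of fun u u' => ∏ i, y (n u + lam i) (φ u' i)).det = 0 := by
    filter_upwards [ev_top hfin3, hB] with N h2 h3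
    obtain ⟨S', h4, h5, h6⟩ := h2 (B N) fun n hn => (h3 n hn).2
    exact ⟨S', h4, h5, h6⟩
  obtain ⟨B₁, hB₁⟩ := exists_fun h1
  refine ⟨fun N => B₁ N ∩ B N, fun N => Finset.inter_subset_right, ?_, ?_⟩
  · obtain ⟨c, hc, h2⟩ := hL
    refine ⟨c / C, div_pos hc hC, ?_⟩
    filter_upwards [h2, hB₁, ev_ge 1] with N h3 h4 h5
    rw [Finset.inter_eq_left.mpr h4.1]
    have h6 : (0 : ℝ) < N := by exact_mod_cast h5
    have h7 := h3.trans h4.2.1
    have h8 : (N : ℝ) ^ (1 - θ) = (N : ℝ) ^ (1 - (θ + c₁ * η)) * (N : ℝ) ^ (c₁ * η) := by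
      rw [← Real.rpow_add h6]
      congr 1
      ring
    rw [h8] at h7
    have h9 : 0 < (N : ℝ) ^ (c₁ * η) := Real.rpow_pos_of_pos h6 _
    rw [div_mul_eq_mul_div, div_le_iff₀ hC]
    have h10 : (c * (N : ℝ) ^ (1 - (θ + c₁ * η))) * (N : ℝ) ^ (c₁ * η) ≤
        ((B₁ N).card * C) * (N : ℝ) ^ (c₁ * η) := by
      calc (c * (N : ℝ) ^ (1 - (θ + c₁ * η))) * (N : ℝ) ^ (c₁ * η)
          = c * ((N : ℝ) ^ (1 - (θ + c₁ * η)) * (N : ℝ) ^ (c₁ * η)) := by ring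
        _ ≤ C * (N : ℝ) ^ (c₁ * η) * (B₁ N).card := h7
        _ = _ := by ring
    exact le_of_mul_le_mul_right h10 h9
  · intro lam hlam φ
    have hlam' : ∀ᶠ N : ℕ in U, ∀ i, (lam i N : ℝ) ≤ (N : ℝ) ^ η :=
      Filter.eventually_all.mpr hlam
    have h2 : ∀ᶠ N : ℕ in U, ∃ c : Fin s → K, c ≠ 0 ∧ ∀ n ∈ B₁ N,
        ∑ u, c u * ∏ i, y (n + lam i N) (φ u i) = 0 := by
      filter_upwards [hB₁, hlam'] with N h3 h4
      obtain ⟨c, hc, h5⟩ := exists_rel (↑(B₁ N) : Set ℕ)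
        (fun u n => ∏ i, y (n + lam i N) (φ u i))
        (fun n hn => h3.2.2 (fun i => lam i N) h4 n (fun u => Finset.mem_coe.mp (hn u)) φ)
      exact ⟨c, hc, fun n hn => h5 n (Finset.mem_coe.mpr hn)⟩
    obtain ⟨c, hc⟩ := exists_fun h2
    refine ⟨fun u => cl fun N => c N u, ?_, ?_⟩
    · intro h0
      have h3 : ∀ᶠ N in U, ∀ u, c N u = 0 :=
        Filter.eventually_all.mpr fun u => cl_eq_zero.mp (congrFun h0 u)
      obtain ⟨N, h4, h5⟩ := (h3.and hc).exists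
      exact h5.1 (funext h4)
    · intro ν hν
      have h3 : ∑ u, (cl fun N => c N u) * ∏ i, pt y (fun N => ν N + lam i N) (φ u i) =
          cl fun N => ∑ u, c N u * ∏ i, y (ν N + lam i N) (φ u i) := by
        rw [cl_sum]
        refine Finset.sum_congr rfl fun u _ => ?_
        rw [cl_mul, cl_prod]
        rfl
      rw [h3, cl_eq_zero]
      filter_upwards [hc, hν] with N h4 h5
      exact h4.2 _ (Finset.mem_inter.mp h5).1

end Pool.Agent.GT
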