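import Pool.Agent.GT.Defs

/-!
Linear Noether normalisation by forms vanishing at a point.
-/

set_option autoImplicit false

open Filter MvPolynomial

namespace Pool.Agent.GT

theorem npt_coeff {A σ : Type} [CommRing A] (s : Finset σ) (m : σ → ℕ) (y c : σ → A) :
    (∏ t ∈ s, (Polynomial.C (y t) + Polynomial.C (c t) * Polynomial.X) ^ m t).natDegree ≤
        ∑ t ∈ s, m t ∧
      (∏ t ∈ s, (Polynomial.C (y t) + Polynomial.C (c t) * Polynomial.X) ^ m t).coeff
        (∑ t ∈ s, m t) = ∏ t ∈ s, c t ^ m t := by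
  classical
  induction s using Finset.induction_on with
  | empty => simp
  | insert a s ha ih =>
    have h1 : (Polynomial.C (y a) + Polynomial.C (c a) * Polynomial.X).natDegree ≤ 1 := by
      apply (Polynomial.natDegree_add_le _ _).trans
      apply max_le
      · rw [Polynomial.natDegree_C]; exact Nat.zero_le _
      · exact (Polynomial.natDegree_C_mul_le _ _).trans Polynomial.natDegree_X_le
    have h2 : ((Polynomial.C (y a) + Polynomial.C (c a) * Polynomial.X) ^ m a).natDegree ≤ m a := by
      apply Polynomial.natDegree_pow_le.trans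
      calc m a * _ ≤ m a * 1 := Nat.mul_le_mul_left _ h1
        _ = m a := mul_one _
    have h3 : ((Polynomial.C (y a) + Polynomial.C (c a) * Polynomial.X) ^ m a).coeff (m a) =
        c a ^ m a := by
      have h4 := Polynomial.coeff_pow_of_natDegree_le (m := m a) h1
      rw [mul_one] at h4
      rw [h4]
      simp
    rw [Finset.prod_insert ha, Finset.sum_insert ha, Finset.prod_insert ha]
    refine ⟨Polynomial.natDegree_mul_le.trans (Nat.add_le_add h2 ih.1), ?_⟩
    rw [Polynomial.coeff_mul_add_eq_of_natDegree_le h2 ih.1, h3, ih.2]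

theorem npt_integral {k σ B R : Type} [Field k] [Fintype σ] [CommRing B] [CommRing R]
    [Algebra k B] [Algebra k R] (f : B →ₐ[k] R) (P : MvPolynomial σ k) (d : ℕ)
    (hP : P.IsHomogeneous d) (c : σ → k) (hc : eval c P ≠ 0) (y : σ → B) (x : R)
    (h : aeval (fun t => f (y t) + algebraMap k R (c t) * x) P = 0) :
    f.toRingHom.IsIntegralElem x := by
  classical
  have hdeg : ∀ m ∈ P.support, ∑ i, m i = d := by
    intro m hm
    have h1 := hP (mem_support_iff.1 hm)
    rw [← h1, Finsupp.weight_apply, Finsupp.sum_fintype _ _ (by simp)]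
    simp
  set Q : Polynomial B := ∑ m ∈ P.support, Polynomial.C (algebraMap k B (coeff m P)) *
    ∏ t, (Polynomial.C (y t) + Polynomial.C (algebraMap k B (c t)) * Polynomial.X) ^ m t with hQ
  have hQd : Q.natDegree ≤ d := by
    apply Polynomial.natDegree_sum_le_of_forall_le
    intro m hm
    apply (Polynomial.natDegree_C_mul_le _ _).trans
    rw [← hdeg m hm]
    exact (npt_coeff Finset.univ m y _).1
  have hQc : Q.coeff d = algebraMap k B (eval c P) := by
    rw [hQ, Polynomial.finsetSum_coeff, eval_eq', map_sum]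
    refine Finset.sum_congr rfl fun m hm => ?_
    rw [Polynomial.coeff_C_mul, ← hdeg m hm, (npt_coeff Finset.univ m y _).2, map_mul, map_prod]
    congr 1
    refine Finset.prod_congr rfl fun t _ => ?_
    rw [map_pow]
  have hQe : Q.eval₂ f.toRingHom x = 0 := by
    rw [← h, aeval_def, eval₂_eq', hQ, Polynomial.eval₂_finsetSum]
    refine Finset.sum_congr rfl fun m _ => ?_
    rw [Polynomial.eval₂_mul, Polynomial.eval₂_C, Polynomial.eval₂_finsetProd]
    congr 1
    · exact f.commutes _
    · refine Finset.prod_congr rfl fun t _ => ?_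
      rw [Polynomial.eval₂_pow, Polynomial.eval₂_add, Polynomial.eval₂_mul, Polynomial.eval₂_C,
        Polynomial.eval₂_C, Polynomial.eval₂_X]
      congr 2
      exact congrArg (· * x) (f.commutes _)
  refine ⟨Polynomial.C (algebraMap k B (eval c P)⁻¹) * Q, ?_, ?_⟩
  · apply Polynomial.monic_of_natDegree_le_of_coeff_eq_one d
    · exact (Polynomial.natDegree_C_mul_le _ _).trans hQd
    · rw [Polynomial.coeff_C_mul, hQc, ← map_mul, inv_mul_cancel₀ hc, map_one]
  · rw [Polynomial.eval₂_mul, hQe, mul_zero]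

/-- transitivity -/
theorem npt_trans {k R : Type} [Field k] [CommRing R] [Algebra k R] {r s : ℕ}
    (f : MvPolynomial (Fin r) k →ₐ[k] R) (g : MvPolynomial (Fin s) k →ₐ[k] R)
    (hg : g.toRingHom.IsIntegral) (h : ∀ t, f.toRingHom.IsIntegralElem (g (X t))) :
    f.toRingHom.IsIntegral := by
  let := f.toRingHom.toAlgebra
  have hC : ∀ p, g p ∈ integralClosure (MvPolynomial (Fin r) k) R := by
    intro p
    induction p using MvPolynomial.induction_on with
    | C a =>
      have h1 : g (C a) = algebraMap (MvPolynomial (Fin r) k) R (C a) := by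
        have h2 : g (C a) = algebraMap k R a := g.commutes a
        have h3 : f (C a) = algebraMap k R a := f.commutes a
        rw [h2, ← h3]
        rfl
      rw [h1]
      exact Subalgebra.algebraMap_mem _ _
    | add p q hp hq => rw [map_add]; exact Subalgebra.add_mem _ hp hq
    | mul_X p t hp =>
      rw [map_mul]
      exact Subalgebra.mul_mem _ hp (h t)
  intro x
  obtain ⟨p, hp, hpx⟩ := hg x
  have hx : IsIntegral (integralClosure (MvPolynomial (Fin r) k) R) x := by
    refine ⟨p.map (g.toRingHom.codRestrict (integralClosure (MvPolynomial (Fin r) k) R)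
      (fun p => hC p)), hp.map _, ?_⟩
    rw [Polynomial.eval₂_map]
    exact hpx
  exact isIntegral_trans x hx

theorem npt_deg {k σ : Type} [Field k] [Fintype σ] {P : MvPolynomial σ k} {d : ℕ}
    (hP : P.IsHomogeneous d) : ∀ m ∈ P.support, ∑ i, m i = d := by
  intro m hm
  have h1 := hP (mem_support_iff.1 hm)
  rw [← h1, Finsupp.weight_apply, Finsupp.sum_fintype _ _ (by simp)]
  simp

theorem npt_smul {k σ R : Type} [Field k] [Fintype σ] [CommRing R] [Algebra k R]
    {P : MvPolynomial σ k} {d : ℕ} (hP : P.IsHomogeneous d) (u : R) (c : σ → R) :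
    aeval (fun i => u * c i) P = u ^ d * aeval c P := by
  rw [aeval_def, aeval_def, eval₂_eq', eval₂_eq', Finset.mul_sum]
  refine Finset.sum_congr rfl fun m hm => ?_
  simp only [mul_pow, Finset.prod_mul_distrib, Finset.prod_pow_eq_pow_sum, npt_deg hP m hm]
  ring

theorem npt_bind {k ι : Type} [Field k] {r : ℕ} (L : Fin r → MvPolynomial ι k)
    (hL : ∀ t, (L t).IsHomogeneous 1) (P : MvPolynomial (Fin r) k) (d : ℕ) :
    bind₁ L (homogeneousComponent d P) = homogeneousComponent d (bind₁ L P) := by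
  have h1 : ∀ i, (bind₁ L (homogeneousComponent i P)).IsHomogeneous i := by
    intro i
    have h2 := (homogeneousComponent_isHomogeneous i P).aeval L hL
    rw [one_mul] at h2
    exact h2
  conv_rhs => rw [← sum_homogeneousComponent P, map_sum, map_sum]
  by_cases hd : d ∈ Finset.range (P.totalDegree + 1)
  · rw [Finset.sum_eq_single d]
    · rw [homogeneousComponent_of_mem (h1 d), if_pos rfl]
    · intro i _ hi
      rw [homogeneousComponent_of_mem (h1 i), if_neg (Ne.symm hi)]
    · intro h; exact absurd hd h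
  · have h3 : homogeneousComponent d P = 0 := by
      apply homogeneousComponent_eq_zero
      rw [Finset.mem_range] at hd
      omega
    rw [h3, map_zero]
    symm
    apply Finset.sum_eq_zero
    intro i hi
    rw [homogeneousComponent_of_mem (h1 i), if_neg]
    rintro rfl
    exact hd hi

theorem npt_ind {k ι : Type} [Field k] [Infinite k] {𝔮 : Ideal (MvPolynomial ι k)}
    (h𝔮 : HPrime 𝔮) (z : ι → k) (r : ℕ) : ∀ L : Fin r → MvPolynomial ι k,
      (∀ t, (L t).IsHomogeneous 1 ∧ eval z (L t) = 0) →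
      ((Ideal.Quotient.mkₐ k 𝔮).comp (bind₁ L)).toRingHom.IsIntegral →
      ∃ (r : ℕ) (L : Fin r → MvPolynomial ι k),
        (∀ t, (L t).IsHomogeneous 1 ∧ eval z (L t) = 0) ∧
        (∀ P : MvPolynomial (Fin r) k, bind₁ L P ∈ 𝔮 → P = 0) ∧
        ((Ideal.Quotient.mkₐ k 𝔮).comp (bind₁ L)).toRingHom.IsIntegral := by
  induction r with
  | zero =>
    intro L hL hint
    refine ⟨0, L, hL, ?_, hint⟩
    intro P hP
    by_contra hP0
    have h1 : P = C (coeff 0 P) := by
      ext m
      rw [coeff_C, Subsingleton.elim m 0, if_pos rfl]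
    have h2 : coeff 0 P ≠ 0 := by
      intro h
      rw [h, map_zero] at h1
      exact hP0 h1
    rw [h1] at hP
    have h3 : bind₁ L (C (coeff 0 P)) = C (coeff 0 P) := by
      rw [bind₁_C_right]
    rw [h3] at hP
    apply h𝔮.prime.ne_top
    rw [Ideal.eq_top_iff_one]
    have h4 := 𝔮.mul_mem_left (C (coeff 0 P)⁻¹) hP
    rwa [← map_mul, inv_mul_cancel₀ h2, map_one] at h4
  | succ r ih =>
    intro L hL hint
    by_cases hind : ∀ P : MvPolynomial (Fin (r + 1)) k, bind₁ L P ∈ 𝔮 → P = 0
    · exact ⟨r + 1, L, hL, hind, hint⟩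
    push Not at hind
    obtain ⟨P, hP, hP0⟩ := hind
    obtain ⟨d, hd⟩ : ∃ d, homogeneousComponent d P ≠ 0 := by
      by_contra hcon
      push Not at hcon
      apply hP0
      rw [← sum_homogeneousComponent P]
      exact Finset.sum_eq_zero fun i _ => hcon i
    set Pd := homogeneousComponent d P with hPd
    have hPdh : Pd.IsHomogeneous d := homogeneousComponent_isHomogeneous d P
    have hPdq : bind₁ L Pd ∈ 𝔮 := by
      rw [hPd, npt_bind L (fun t => (hL t).1)]
      exact h𝔮.comp _ hP d
    obtain ⟨a, ha⟩ : ∃ a : Fin (r + 1) → k, eval a Pd ≠ 0 := by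
      by_contra hcon
      push Not at hcon
      apply hd
      apply MvPolynomial.funext
      intro x
      rw [hcon, map_zero]
    have hd1 : d ≠ 0 := by
      rintro rfl
      have h1 : Pd = C (coeff 0 Pd) := by
        rw [hPd, homogeneousComponent_zero, coeff_C, if_pos rfl]
      have h2 : coeff 0 Pd ≠ 0 := by
        intro h
        rw [h, map_zero] at h1
        exact hd h1
      rw [h1, bind₁_C_right] at hPdq
      apply h𝔮.prime.ne_top
      rw [Ideal.eq_top_iff_one]
      have h4 := 𝔮.mul_mem_left (C (coeff 0 Pd)⁻¹) hPdq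
      rwa [← map_mul, inv_mul_cancel₀ h2, map_one] at h4
    obtain ⟨s, hs⟩ : ∃ s, a s ≠ 0 := by
      by_contra hcon
      push Not at hcon
      apply ha
      have h1 := npt_smul (R := k) hPdh (0 : k) a
      rw [zero_pow hd1, zero_mul] at h1
      have h2 : (fun i => (0 : k) * a i) = a := by
        funext i
        rw [hcon i, mul_zero]
      rw [h2] at h1
      exact h1
    have hca : eval (fun t => a t / a s) Pd ≠ 0 := by
      intro h
      apply ha
      have h1 := npt_smul (R := k) hPdh (a s) (fun t => a t / a s)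
      have h2 : (fun i => a s * (a i / a s)) = a := by
        funext i
        field_simp
      have h3 : aeval (fun t => a t / a s) Pd = 0 := h
      rw [h2, h3, mul_zero] at h1
      exact h1
    -- the new forms
    let L' : Fin r → MvPolynomial ι k := fun t =>
      L (s.succAbove t) - C (a (s.succAbove t) / a s) * L s
    have hL' : ∀ t, (L' t).IsHomogeneous 1 ∧ eval z (L' t) = 0 := by
      intro t
      refine ⟨?_, ?_⟩
      · apply (hL _).1.sub
        have h1 := (isHomogeneous_C ι (a (s.succAbove t) / a s)).mul (hL s).1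
        rwa [zero_add] at h1
      · simp only [L', map_sub, map_mul, (hL _).2, mul_zero, sub_zero]
    refine ih L' hL' ?_
    have hf : ∀ t, ((Ideal.Quotient.mkₐ k 𝔮).comp (bind₁ L')) (X t) =
        Ideal.Quotient.mk 𝔮 (L' t) := by
      intro t
      rw [AlgHom.comp_apply, bind₁_X_right]
      rfl
    -- `L s` is integral
    have hs1 : ((Ideal.Quotient.mkₐ k 𝔮).comp (bind₁ L')).toRingHom.IsIntegralElem
        (Ideal.Quotient.mk 𝔮 (L s)) := by
      refine npt_integral _ Pd d hPdh (fun t => a t / a s) hca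
        (s.insertNth (α := fun _ => MvPolynomial (Fin r) k) 0 (fun t => X t)) _ ?_
      have h1 : (fun t => ((Ideal.Quotient.mkₐ k 𝔮).comp (bind₁ L'))
          (s.insertNth (α := fun _ => MvPolynomial (Fin r) k) 0 (fun t => X t) t) +
          algebraMap k (MvPolynomial ι k ⧸ 𝔮) (a t / a s) * Ideal.Quotient.mk 𝔮 (L s)) =
          fun t => Ideal.Quotient.mkₐ k 𝔮 (L t) := by
        funext t
        have h0 : ∀ c : k, algebraMap k (MvPolynomial ι k ⧸ 𝔮) c =
            Ideal.Quotient.mk 𝔮 (C c) := fun c => rfl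
        refine Fin.forall_iff_succAbove (P := fun t => ((Ideal.Quotient.mkₐ k 𝔮).comp (bind₁ L'))
          (s.insertNth (α := fun _ => MvPolynomial (Fin r) k) 0 (fun t => X t) t) +
          algebraMap k (MvPolynomial ι k ⧸ 𝔮) (a t / a s) * Ideal.Quotient.mk 𝔮 (L s) =
          Ideal.Quotient.mkₐ k 𝔮 (L t)) s |>.2 ⟨?_, ?_⟩ t
        · rw [Fin.insertNth_apply_same, map_zero, zero_add, div_self hs, map_one, one_mul]
          rfl
        · intro t
          rw [Fin.insertNth_apply_succAbove, hf, h0, ← map_mul, ← map_add]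
          show Ideal.Quotient.mk 𝔮 _ = Ideal.Quotient.mk 𝔮 (L (s.succAbove t))
          congr 1
          simp only [L']
          ring
      rw [h1]
      have h2 : aeval (fun t => Ideal.Quotient.mkₐ k 𝔮 (L t)) Pd =
          Ideal.Quotient.mkₐ k 𝔮 (bind₁ L Pd) := by
        exact (MvPolynomial.comp_aeval_apply _ _ _).symm
      rw [h2]
      exact Ideal.Quotient.eq_zero_iff_mem.2 hPdq
    refine npt_trans _ ((Ideal.Quotient.mkₐ k 𝔮).comp (bind₁ L)) hint ?_
    intro t
    rw [AlgHom.comp_apply, bind₁_X_right]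
    refine Fin.forall_iff_succAbove (P := fun t => ((Ideal.Quotient.mkₐ k 𝔮).comp
      (bind₁ L')).toRingHom.IsIntegralElem (Ideal.Quotient.mkₐ k 𝔮 (L t))) s |>.2 ⟨hs1, ?_⟩ t
    intro t
    have h1 : Ideal.Quotient.mkₐ k 𝔮 (L (s.succAbove t)) =
        ((Ideal.Quotient.mkₐ k 𝔮).comp (bind₁ L')).toRingHom (X t) +
        ((Ideal.Quotient.mkₐ k 𝔮).comp (bind₁ L')).toRingHom (C (a (s.succAbove t) / a s)) *
          Ideal.Quotient.mk 𝔮 (L s) := by
      show _ = ((Ideal.Quotient.mkₐ k 𝔮).comp (bind₁ L')) (X t) +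
        (Ideal.Quotient.mkₐ k 𝔮) (bind₁ L' (C (a (s.succAbove t) / a s))) * _
      rw [hf, bind₁_C_right]
      show Ideal.Quotient.mk 𝔮 _ = Ideal.Quotient.mk 𝔮 _ + Ideal.Quotient.mk 𝔮 _ * _
      rw [← map_mul, ← map_add]
      congr 1
      simp only [L']
      ring
    rw [h1]
    exact RingHom.IsIntegralElem.add _ (RingHom.isIntegralElem_map _)
      (RingHom.IsIntegralElem.mul _ (RingHom.isIntegralElem_map _) hs1)

theorem noether_point {k ι : Type} [Field k] [Infinite k] [Fintype ι]
    {𝔮 : Ideal (MvPolynomial ι k)} (h𝔮 : HPrime 𝔮) (z : ι → k) (b : ℕ)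
    (G : MvPolynomial ι k) (hG : G.IsHomogeneous b) (hG𝔮 : G ∈ 𝔮) (hGz : eval z G ≠ 0) :
    ∃ (r : ℕ) (L : Fin r → MvPolynomial ι k),
      (∀ t, (L t).IsHomogeneous 1 ∧ eval z (L t) = 0) ∧
      (∀ P : MvPolynomial (Fin r) k, bind₁ L P ∈ 𝔮 → P = 0) ∧
      ((Ideal.Quotient.mk 𝔮).comp (bind₁ L).toRingHom).IsIntegral := by
  obtain ⟨i₀, hi₀⟩ : ∃ i, z i ≠ 0 := by
    by_contra hcon
    push Not at hcon
    rcases Nat.eq_zero_or_pos b with hb | hb
    · subst hb
      have h1 : G = C (coeff 0 G) := by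
        have h2 := homogeneousComponent_of_mem (m := 0) hG
        rw [if_pos rfl, homogeneousComponent_zero] at h2
        exact h2.symm
      have h2 : coeff 0 G ≠ 0 := by
        intro h
        rw [h1, h, map_zero, map_zero] at hGz
        exact hGz rfl
      rw [h1] at hG𝔮
      apply h𝔮.prime.ne_top
      rw [Ideal.eq_top_iff_one]
      have h4 := 𝔮.mul_mem_left (C (coeff 0 G)⁻¹) hG𝔮
      rwa [← map_mul, inv_mul_cancel₀ h2, map_one] at h4
    · apply hGz
      have h1 := npt_smul (R := k) hG (0 : k) z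
      rw [zero_pow hb.ne', zero_mul] at h1
      have h2 : (fun i => (0 : k) * z i) = z := by
        funext i
        rw [hcon i, mul_zero]
      rw [h2] at h1
      exact h1
  let e := Fintype.equivFin ι
  let L : Fin (Fintype.card ι) → MvPolynomial ι k := fun t =>
    C (z i₀) * X (e.symm t) - C (z (e.symm t)) * X i₀
  have hL : ∀ t, (L t).IsHomogeneous 1 ∧ eval z (L t) = 0 := by
    intro t
    refine ⟨?_, ?_⟩
    · apply IsHomogeneous.sub
      · have h1 := (isHomogeneous_C ι (z i₀)).mul (isHomogeneous_X k (e.symm t))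
        rwa [zero_add] at h1
      · have h1 := (isHomogeneous_C ι (z (e.symm t))).mul (isHomogeneous_X k i₀)
        rwa [zero_add] at h1
    · simp only [L, map_sub, map_mul, eval_C, eval_X]
      ring
  set f := (Ideal.Quotient.mkₐ k 𝔮).comp (bind₁ L) with hfd
  have h0 : ∀ c : k, algebraMap k (MvPolynomial ι k ⧸ 𝔮) c =
      Ideal.Quotient.mk 𝔮 (C c) := fun c => rfl
  have hf : ∀ t, f (X t) = Ideal.Quotient.mk 𝔮 (L t) := by
    intro t
    rw [hfd, AlgHom.comp_apply, bind₁_X_right]
    rfl
  have hfC : ∀ c : k, f.toRingHom (C c) = Ideal.Quotient.mk 𝔮 (C c) := by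
    intro c
    show Ideal.Quotient.mk 𝔮 (bind₁ L (C c)) = _
    rw [bind₁_C_right]
  have hx : f.toRingHom.IsIntegralElem (Ideal.Quotient.mk 𝔮 (X i₀)) := by
    refine npt_integral f G b hG z hGz (fun j => X (e j)) _ ?_
    have h1 : (fun t => f (X (e t)) +
        algebraMap k (MvPolynomial ι k ⧸ 𝔮) (z t) * Ideal.Quotient.mk 𝔮 (X i₀)) =
        fun t => Ideal.Quotient.mk 𝔮 (C (z i₀)) * Ideal.Quotient.mkₐ k 𝔮 (X t) := by
      funext t
      rw [hf, h0, ← map_mul, ← map_add]
      show Ideal.Quotient.mk 𝔮 _ = Ideal.Quotient.mk 𝔮 _ * Ideal.Quotient.mk 𝔮 _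
      rw [← map_mul]
      congr 1
      simp only [L, Equiv.symm_apply_apply]
      ring
    rw [h1, npt_smul hG]
    have h2 : aeval (fun t => Ideal.Quotient.mkₐ k 𝔮 (X t)) G = Ideal.Quotient.mkₐ k 𝔮 G := by
      rw [← MvPolynomial.comp_aeval_apply, aeval_X_left_apply]
    rw [h2]
    have h3 : Ideal.Quotient.mkₐ k 𝔮 G = 0 := Ideal.Quotient.eq_zero_iff_mem.2 hG𝔮
    rw [h3, mul_zero]
  have hX : ∀ j, f.toRingHom.IsIntegralElem (Ideal.Quotient.mk 𝔮 (X j)) := by
    intro j
    have h1 : Ideal.Quotient.mk 𝔮 (X j) = f.toRingHom (C (z i₀)⁻¹) *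
        (f.toRingHom (X (e j)) + f.toRingHom (C (z j)) * Ideal.Quotient.mk 𝔮 (X i₀)) := by
      rw [hfC, hfC]
      show _ = _ * (f (X (e j)) + _)
      rw [hf, ← map_mul, ← map_add, ← map_mul]
      congr 1
      simp only [L, Equiv.symm_apply_apply]
      have h2 : C (z i₀)⁻¹ * C (z i₀) = (1 : MvPolynomial ι k) := by
        rw [← map_mul, inv_mul_cancel₀ hi₀, map_one]
      linear_combination -h2 * X j
    rw [h1]
    exact RingHom.IsIntegralElem.mul _ (RingHom.isIntegralElem_map _)
      (RingHom.IsIntegralElem.add _ (RingHom.isIntegralElem_map _)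
        (RingHom.IsIntegralElem.mul _ (RingHom.isIntegralElem_map _) hx))
  have hint : f.toRingHom.IsIntegral := by
    intro x
    obtain ⟨p, rfl⟩ := Ideal.Quotient.mk_surjective x
    induction p using MvPolynomial.induction_on with
    | C a =>
      rw [← hfC]
      exact RingHom.isIntegralElem_map _
    | add p q hp hq => rw [map_add]; exact RingHom.IsIntegralElem.add _ hp hq
    | mul_X p t hp => rw [map_mul]; exact RingHom.IsIntegralElem.mul _ hp (hX t)
  exact npt_ind h𝔮 z _ L hL hint

end Pool.Agent.GT
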