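import Pool.Agent.GT.Defs

/-!
Project GT (MP_e3c919_ag), row I5 (helper29): forms which vanish on a tail of the orbit vanish
on the whole orbit.
-/

set_option autoImplicit false

open Filter MvPolynomial

namespace Pool.Agent.GT

theorem whole_irr_prod {K ι α : Type} [Field K] (y : ℕ → ι → K) (hirr : Irr y) (s : Finset α)
    (a : α → ℕ) (G : α → MvPolynomial ι K) (hG : ∀ i ∈ s, (G i).IsHomogeneous (a i))
    (h : ∀ n, eval (y n) (∏ i ∈ s, G i) = 0) : ∃ i ∈ s, ∀ n, eval (y n) (G i) = 0 := by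
  classical
  induction s using Finset.induction_on with
  | empty => exact absurd (h 0) (by simp)
  | insert i s hi ih =>
    rw [Finset.prod_insert hi] at h
    have h1 : (∏ j ∈ s, G j).IsHomogeneous (∑ j ∈ s, a j) :=
      IsHomogeneous.prod s G a fun j hj => hG j (Finset.mem_insert_of_mem hj)
    rcases hirr _ _ _ _ (hG i (Finset.mem_insert_self i s)) h1 h with h2 | h2
    · exact ⟨i, Finset.mem_insert_self i s, h2⟩
    · obtain ⟨j, hj, h3⟩ := ih (fun j hj => hG j (Finset.mem_insert_of_mem hj)) h2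
      exact ⟨j, Finset.mem_insert_of_mem hj, h3⟩

theorem whole_eval_smul {K ι : Type} [Field K] {G : MvPolynomial ι K} {b : ℕ}
    (hG : G.IsHomogeneous b) (c : K) (z : ι → K) :
    eval (fun i => c * z i) G = c ^ b * eval z G := by
  rw [eval_eq, eval_eq, Finset.mul_sum]
  refine Finset.sum_congr rfl fun d hd => ?_
  have h1 : ∏ i ∈ d.support, (c * z i) ^ d i = c ^ b * ∏ i ∈ d.support, z i ^ d i := by
    simp only [mul_pow]
    rw [Finset.prod_mul_distrib, Finset.prod_pow_eq_pow_sum]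
    congr 2
    have h2 := hG (mem_support_iff.1 hd)
    rw [← h2, Finsupp.weight_apply, Finsupp.sum]
    simp
  rw [h1]
  ring

theorem tail_dense {K ι : Type} [Field K] (y : ℕ → ι → K) (hy : ∀ n, y n ≠ 0)
    (hirr : Irr y) (b n₀ : ℕ) (G : MvPolynomial ι K) (hG : G.IsHomogeneous b)
    (h : ∀ n, n₀ ≤ n → eval (y n) G = 0) (n : ℕ) : eval (y n) G = 0 := by
  by_cases hA : ∀ m < n₀, ∃ (a : ℕ) (H : MvPolynomial ι K), H.IsHomogeneous a ∧
      eval (y m) H = 0 ∧ ∃ m', eval (y m') H ≠ 0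
  · have hA' : ∀ m, ∃ (a : ℕ) (H : MvPolynomial ι K), H.IsHomogeneous a ∧
        (m < n₀ → eval (y m) H = 0 ∧ ∃ m', eval (y m') H ≠ 0) := by
      intro m
      by_cases hm : m < n₀
      · obtain ⟨a, H, h1, h2, h3⟩ := hA m hm
        exact ⟨a, H, h1, fun _ => ⟨h2, h3⟩⟩
      · exact ⟨0, 0, isHomogeneous_zero ι K 0, fun h1 => absurd h1 hm⟩
    choose a H hH hH' using hA'
    have hP : (∏ m ∈ Finset.range n₀, H m).IsHomogeneous (∑ m ∈ Finset.range n₀, a m) :=
      IsHomogeneous.prod _ H a fun m _ => hH m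
    have h1 : ∀ m, eval (y m) (G * ∏ m ∈ Finset.range n₀, H m) = 0 := by
      intro m
      rw [map_mul]
      rcases lt_or_ge m n₀ with hm | hm
      · rw [map_prod, Finset.prod_eq_zero (Finset.mem_range.2 hm) (hH' m hm).1, mul_zero]
      · rw [h m hm, zero_mul]
    rcases hirr _ _ _ _ hG hP h1 with h2 | h2
    · exact h2 n
    · obtain ⟨m, hm, h3⟩ := whole_irr_prod y hirr _ a H (fun m _ => hH m) h2
      obtain ⟨m', hm'⟩ := (hH' m (Finset.mem_range.1 hm)).2
      exact absurd (h3 m') hm'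
  · push Not at hA
    obtain ⟨m, -, hm⟩ := hA
    obtain ⟨i₀, hi₀⟩ := Function.ne_iff.1 (hy m)
    rw [Pi.zero_apply] at hi₀
    have hprop : ∀ m' i, y m' i = y m' i₀ / y m i₀ * y m i := by
      intro m' i
      have h1 : (C (y m i₀) * X i - C (y m i) * X i₀ : MvPolynomial ι K).IsHomogeneous 1 := by
        have e1 : (C (y m i₀) * X i : MvPolynomial ι K).IsHomogeneous (0 + 1) :=
          (isHomogeneous_C ι (y m i₀)).mul (isHomogeneous_X K i)
        have e2 : (C (y m i) * X i₀ : MvPolynomial ι K).IsHomogeneous (0 + 1) :=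
          (isHomogeneous_C ι (y m i)).mul (isHomogeneous_X K i₀)
        simpa using e1.sub e2
      have h2 := hm 1 _ h1 (by simp [mul_comm]) m'
      simp only [map_sub, map_mul, eval_C, eval_X] at h2
      rw [div_mul_eq_mul_div, eq_div_iff hi₀]
      linear_combination h2
    have hy0 : y n₀ = fun i => y n₀ i₀ / y m i₀ * y m i := funext (hprop n₀)
    have hc : y n₀ i₀ / y m i₀ ≠ 0 := by
      intro h0
      apply hy n₀
      rw [hy0]
      funext i
      rw [h0, zero_mul]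
      rfl
    have h4 : eval (y m) G = 0 := by
      have h5 := h n₀ le_rfl
      rw [hy0, whole_eval_smul hG] at h5
      exact (mul_eq_zero.1 h5).resolve_left (pow_ne_zero _ hc)
    rw [show y n = fun i => y n i₀ / y m i₀ * y m i from funext (hprop n), whole_eval_smul hG, h4,
      mul_zero]

theorem whole {K ι : Type} [Field K] (y : ℕ → ι → K) (hy : ∀ n, y n ≠ 0) (hirr : Irr y)
    (D l l' μ : ℕ) (hl : l < l') (B : ℕ → Finset ℕ)
    (h : ∀ m, ∃ k, l ≤ k ∧ k < l' ∧ Hull y D (B k) (y (μ + m))) :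
    ∃ k, l ≤ k ∧ k < l' ∧ ∀ n, Hull y D (B k) (y n) := by
  by_contra hne
  push Not at hne
  have h1 : ∀ k, ∃ (b : ℕ) (G : MvPolynomial ι K), G.IsHomogeneous b ∧ (l ≤ k → k < l' →
      b ≤ D ∧ (∀ m ∈ B k, eval (y m) G = 0) ∧ ∃ n, eval (y n) G ≠ 0) := by
    intro k
    by_cases hk : l ≤ k ∧ k < l'
    · obtain ⟨n, hn⟩ := hne k hk.1 hk.2
      unfold Hull at hn
      push Not at hn
      obtain ⟨b, hb, G, hG, hz, hG0⟩ := hn
      exact ⟨b, G, hG, fun _ _ => ⟨hb, hz, n, hG0⟩⟩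
    · exact ⟨0, 0, isHomogeneous_zero ι K 0, fun h2 h3 => absurd ⟨h2, h3⟩ hk⟩
  choose b G hG hG' using h1
  have hP : (∏ k ∈ Finset.Ico l l', G k).IsHomogeneous (∑ k ∈ Finset.Ico l l', b k) :=
    IsHomogeneous.prod _ G b fun k _ => hG k
  have h2 : ∀ n, μ ≤ n → eval (y n) (∏ k ∈ Finset.Ico l l', G k) = 0 := by
    intro n hn
    obtain ⟨m, rfl⟩ := Nat.exists_eq_add_of_le hn
    obtain ⟨k, hk1, hk2, hk3⟩ := h m
    obtain ⟨hb, hz, -⟩ := hG' k hk1 hk2
    rw [map_prod]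
    exact Finset.prod_eq_zero (Finset.mem_Ico.2 ⟨hk1, hk2⟩) (hk3 (b k) hb (G k) (hG k) hz)
  obtain ⟨k, hk, h3⟩ := whole_irr_prod y hirr _ b G (fun k _ => hG k)
    (tail_dense y hy hirr _ μ _ hP h2)
  obtain ⟨-, -, n, hn⟩ := hG' k (Finset.mem_Ico.1 hk).1 (Finset.mem_Ico.1 hk).2
  exact hn (h3 n)

end Pool.Agent.GT
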