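import Pool.Agent.GT.Defs

/-! # Two sets of a large family of large sets meet in a large set -/

set_option autoImplicit false

open Finset

namespace Pool.Agent.GT

theorem gti2_sum (Ω : Finset ℕ) (C : Finset ℕ) (hC : C ⊆ Ω) :
    ∑ n ∈ Ω, (if n ∈ C then (1 : ℝ) else 0) = (C.card : ℝ) := by
  rw [Finset.sum_ite_mem, Finset.inter_eq_right.2 hC]
  simp

theorem pair_count (L : ℕ) (hL : 0 < L) (Ω : Finset ℕ) (B : ℕ → Finset ℕ)
    (hB : ∀ l < L, B l ⊆ Ω) (x g : ℝ) (hx0 : 0 ≤ x) (hx : ∀ l < L, x ≤ ((B l).card : ℝ))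
    (hg0 : 0 < g) (hg : g ≤ x ^ 2 / Ω.card - Ω.card / L) :
    ∃ l l', l < l' ∧ l' < L ∧ g ≤ ((B l ∩ B l').card : ℝ) := by
  by_contra hcon
  push Not at hcon
  have hL' : (0 : ℝ) < L := by exact_mod_cast hL
  rcases Nat.eq_zero_or_pos Ω.card with h0 | h0
  · rw [h0] at hg
    simp at hg
    linarith
  have hΩ : (0 : ℝ) < Ω.card := by exact_mod_cast h0
  have h1 : ∑ n ∈ Ω, ∑ l ∈ range L, (if n ∈ B l then (1 : ℝ) else 0) =
      ∑ l ∈ range L, ((B l).card : ℝ) := by
    rw [Finset.sum_comm]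
    exact Finset.sum_congr rfl fun l hl => gti2_sum Ω _ (hB l (Finset.mem_range.1 hl))
  have h2 : ∑ n ∈ Ω, (∑ l ∈ range L, (if n ∈ B l then (1 : ℝ) else 0)) ^ 2 =
      ∑ l ∈ range L, ∑ l' ∈ range L, ((B l ∩ B l').card : ℝ) := by
    have h3 : ∀ n ∈ Ω, (∑ l ∈ range L, (if n ∈ B l then (1 : ℝ) else 0)) ^ 2 =
        ∑ l ∈ range L, ∑ l' ∈ range L, (if n ∈ B l ∩ B l' then (1 : ℝ) else 0) := by
      intro n _
      rw [sq, Finset.sum_mul_sum]
      refine Finset.sum_congr rfl fun l _ => Finset.sum_congr rfl fun l' _ => ?_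
      by_cases ha : n ∈ B l <;> by_cases hb : n ∈ B l' <;> simp [ha, hb]
    rw [Finset.sum_congr rfl h3, Finset.sum_comm]
    refine Finset.sum_congr rfl fun l hl => ?_
    rw [Finset.sum_comm]
    exact Finset.sum_congr rfl fun l' _ =>
      gti2_sum Ω _ (Finset.inter_subset_left.trans (hB l (Finset.mem_range.1 hl)))
  have h4 : L * x ≤ ∑ l ∈ range L, ((B l).card : ℝ) := by
    have := Finset.card_nsmul_le_sum (range L) (fun l => ((B l).card : ℝ)) x
      fun l hl => hx l (Finset.mem_range.1 hl)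
    simpa using this
  have h5 : ∑ l ∈ range L, ∑ l' ∈ range L, ((B l ∩ B l').card : ℝ) ≤
      L * Ω.card + L * (L - 1) * g := by
    have h6 : ∀ l ∈ range L, ∑ l' ∈ range L, ((B l ∩ B l').card : ℝ) ≤
        Ω.card + (L - 1) * g := by
      intro l hl
      rw [← Finset.add_sum_erase _ _ hl]
      have h7 : ((B l ∩ B l).card : ℝ) ≤ Ω.card := by
        exact_mod_cast Finset.card_le_card
          (Finset.inter_subset_left.trans (hB l (Finset.mem_range.1 hl)))
      have h8 : ∑ l' ∈ (range L).erase l, ((B l ∩ B l').card : ℝ) ≤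
          ((range L).erase l).card • g := by
        refine Finset.sum_le_card_nsmul _ _ _ fun l' hl' => ?_
        rw [Finset.mem_erase, Finset.mem_range] at hl'
        rcases lt_or_gt_of_ne hl'.1 with h9 | h9
        · rw [Finset.inter_comm]
          exact (hcon l' l h9 (Finset.mem_range.1 hl)).le
        · exact (hcon l l' h9 hl'.2).le
      rw [Finset.card_erase_of_mem hl, Finset.card_range, nsmul_eq_mul,
        Nat.cast_sub (by omega : 1 ≤ L), Nat.cast_one] at h8
      linarith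
    refine (Finset.sum_le_sum h6).trans (le_of_eq ?_)
    rw [Finset.sum_const, Finset.card_range, nsmul_eq_mul]
    ring
  have h6 := sq_sum_le_card_mul_sum_sq (s := Ω)
    (f := fun n => ∑ l ∈ range L, (if n ∈ B l then (1 : ℝ) else 0))
  rw [h1, h2] at h6
  have h7 : (L * x) ^ 2 ≤ Ω.card * (L * Ω.card + L * (L - 1) * g) :=
    (pow_le_pow_left₀ (by positivity) h4 2).trans
      (h6.trans (mul_le_mul_of_nonneg_left h5 hΩ.le))
  have h8 : x ^ 2 / Ω.card ≤ Ω.card / L + (L - 1) / L * g := by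
    rw [div_le_iff₀ hΩ]
    have h9 : (Ω.card / L + (L - 1) / L * g) * (Ω.card : ℝ) =
        Ω.card * (L * Ω.card + L * (L - 1) * g) / L ^ 2 := by
      field_simp
    rw [h9, le_div_iff₀ (by positivity)]
    calc x ^ 2 * (L : ℝ) ^ 2 = (L * x) ^ 2 := by ring
      _ ≤ _ := h7
  have h9 : ((L : ℝ) - 1) / L * g < g := by
    have : ((L : ℝ) - 1) / L < 1 := by
      rw [div_lt_one hL']
      linarith
    nlinarith
  linarith

end Pool.Agent.GT
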