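import Pool.Agent.GT.Defs
import Pool.Agent.KST.Det

/-!
# Project GT, row A1: many bad places make the height large
-/

set_option autoImplicit false

open MvPolynomial Height Height.AdmissibleAbsValues

namespace Pool.Agent.GT

section

variable {K ι : Type} [Field K] [AdmissibleAbsValues K]

theorem badb_supp [Finite ι] [Nonempty ι] (p : ι → MvPolynomial ι K) :
    (fun v : nonarchAbsVal (K := K) ↦
      ⨆ j, max (⨆ s : (p j).support, v.val (coeff s.val (p j))) 1).HasFiniteMulSupport := by
  refine Function.HasFiniteMulSupport.iSup fun j ↦ ?_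
  rcases isEmpty_or_nonempty (p j).support with hs₀ | hs₀
  · simp [Function.hasFiniteMulSupport_one]
  have H (s : (p j).support) : coeff s.val (p j) ≠ 0 := mem_support_iff.mp s.prop
  fun_prop (disch := simp [H])

theorem badb_main [Finite ι] [Nonempty ι] (d : ℕ) (F : ι → MvPolynomial ι K)
    (hF : ∀ i, (F i).IsHomogeneous d) (y : ι → K) (hy : y ≠ 0)
    (h0 : (fun i => eval y (F i)) ≠ 0) (V : Finset (AbsoluteValue K ℝ)) (Y : ℝ) (hY : 1 ≤ Y)
    (hV : ∀ v ∈ V, v ∈ nonarchAbsVal (K := K) ∧
      (⨆ i, v (eval y (F i))) * Y ≤ (⨆ i, v (y i)) ^ d) :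
    Y ^ V.card ≤ mulHeightBound F * mulHeight y ^ d := by
  classical
  have hY0 : 0 < Y := lt_of_lt_of_le one_pos hY
  set B : nonarchAbsVal (K := K) → ℝ := fun v =>
    ⨆ j, max (⨆ s : (F j).support, v.val (coeff s.val (F j))) 1 with hB
  set g : nonarchAbsVal (K := K) → ℝ := fun v => if v.val ∈ V then Y⁻¹ else 1 with hg
  have hB1 : ∀ v, 1 ≤ B v := fun v =>
    (le_max_right _ _).trans (Finite.le_ciSup (fun j => max (⨆ s : (F j).support,
      v.val (coeff s.val (F j))) 1) (Classical.arbitrary ι))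
  have suppB : B.HasFiniteMulSupport := badb_supp F
  set W : Finset (nonarchAbsVal (K := K)) :=
    V.attach.image fun v => ⟨v.val, (hV v.val v.2).1⟩ with hW
  have memW : ∀ v : nonarchAbsVal (K := K), v ∈ W ↔ v.val ∈ V := by
    intro v
    rw [hW, Finset.mem_image]
    constructor
    · rintro ⟨w, -, rfl⟩
      exact w.2
    · intro h
      exact ⟨⟨v.val, h⟩, Finset.mem_attach _ _, rfl⟩
  have cardW : W.card = V.card := by
    rw [hW, Finset.card_image_of_injective, Finset.card_attach]
    intro a b hab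
    have h := congrArg (fun w : nonarchAbsVal (K := K) => w.val) hab
    exact Subtype.ext h
  have suppg : g.HasFiniteMulSupport := by
    refine (W.finite_toSet).subset ?_
    intro v hv
    by_contra hne
    apply hv
    have : v.val ∉ V := fun h => hne ((memW v).mpr h)
    simp only [hg, if_neg this]
  have prodg : ∏ᶠ v, g v = (Y ^ V.card)⁻¹ := by
    rw [finprod_eq_prod_of_mulSupport_subset g (s := W) (by
      intro v hv
      by_contra hne
      apply hv
      have : v.val ∉ V := fun h => hne ((memW v).mpr h)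
      simp only [hg, if_neg this])]
    have h1 : ∏ v ∈ W, g v = ∏ _v ∈ W, Y⁻¹ := by
      refine Finset.prod_congr rfl fun v hv => ?_
      simp only [hg, if_pos ((memW v).mp hv)]
    rw [h1, Finset.prod_const, cardW, inv_pow]
  have hnn : ∀ (w : AbsoluteValue K ℝ) (z : ι → K), 0 ≤ ⨆ i, w (z i) := fun w z =>
    Real.iSup_nonneg_of_nonnegHomClass w _
  have suppy : (fun v : nonarchAbsVal (K := K) ↦ ⨆ i, v.val (y i)).HasFiniteMulSupport :=
    KST.supp_iSup hy
  have suppF : (fun v : nonarchAbsVal (K := K) ↦ ⨆ i, v.val (eval y (F i))).HasFiniteMulSupport :=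
    KST.supp_iSup h0
  -- nonarchimedean places
  have hna : ∏ᶠ v : nonarchAbsVal (K := K), ⨆ i, v.val (eval y (F i)) ≤
      (Y ^ V.card)⁻¹ * ((∏ᶠ v, B v) * (∏ᶠ v : nonarchAbsVal (K := K), ⨆ i, v.val (y i)) ^ d) := by
    rw [← prodg, finprod_pow suppy, ← finprod_mul_distrib suppB (by fun_prop),
      ← finprod_mul_distrib suppg (by fun_prop)]
    refine finprod_le_finprod suppF (fun v => hnn v.val _) (by fun_prop) fun v => ?_
    have hpow : 0 ≤ (⨆ i, v.val (y i)) ^ d := pow_nonneg (hnn v.val _) _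
    show (⨆ i, v.val (eval y (F i))) ≤ g v * (B v * (⨆ i, v.val (y i)) ^ d)
    by_cases hv : v.val ∈ V
    · simp only [hg, if_pos hv]
      have h1 := (hV v.val hv).2
      have h2 : (⨆ i, v.val (y i)) ^ d ≤ B v * (⨆ i, v.val (y i)) ^ d :=
        le_mul_of_one_le_left hpow (hB1 v)
      rw [← mul_le_mul_iff_left₀ hY0, mul_comm Y⁻¹, mul_assoc, mul_assoc, inv_mul_cancel₀ hY0.ne',
        mul_one]
      exact h1.trans h2
    · simp only [hg, if_neg hv, one_mul]
      refine Real.iSup_le (fun j => ?_) (mul_nonneg (zero_le_one.trans (hB1 v)) hpow)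
      refine ((isNonarchimedean _ v.prop).eval_mvPolynomial_le (hF j) y).trans ?_
      refine mul_le_mul_of_nonneg_right ?_ hpow
      exact (le_max_left _ _).trans (Finite.le_ciSup (fun j => max (⨆ s : (F j).support,
        v.val (coeff s.val (F j))) 1) j)
  -- archimedean places
  have H₀ (v : AbsoluteValue K ℝ) :
      0 ≤ ⨆ j, (AddMonoidAlgebra.coeff <| F j).sum fun _ c ↦ v c :=
    Real.iSup_nonneg (fun j ↦ Finset.sum_nonneg' <| fun s ↦ by positivity)
  have harch : (archAbsVal.map fun v : AbsoluteValue K ℝ => ⨆ i, v (eval y (F i))).prod ≤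
      (archAbsVal.map fun v ↦ ⨆ j, (AddMonoidAlgebra.coeff <| F j).sum (fun _ c ↦ v c)).prod *
        (archAbsVal.map fun v : AbsoluteValue K ℝ => ⨆ i, v (y i)).prod ^ d := by
    rw [← Multiset.prod_map_pow, ← Multiset.prod_map_mul]
    refine Multiset.prod_map_le_prod_map₀ _ _ (fun v _ ↦ hnn v _)
      fun v _ ↦ Real.iSup_le (fun j ↦ ?_) <| mul_nonneg (H₀ v) (pow_nonneg (hnn v _) _)
    refine (v.eval_mvPolynomial_le (hF j) y).trans ?_
    refine mul_le_mul_of_nonneg_right ?_ (pow_nonneg (hnn v _) _)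
    exact Finite.le_ciSup (fun j ↦ (AddMonoidAlgebra.coeff <| F j).sum fun _ c ↦ v c) j
  have h1 : 1 ≤ mulHeight fun i => eval y (F i) := one_le_mulHeight _
  rw [mulHeight_eq h0] at h1
  have h2 := h1.trans (mul_le_mul harch hna (finprod_nonneg fun v => hnn v.val _)
    (mul_nonneg (Multiset.prod_map_nonneg fun v _ => H₀ v)
      (pow_nonneg (Multiset.prod_map_nonneg fun v _ => hnn v _) _)))
  have hYp : 0 < Y ^ V.card := by positivity
  rw [mulHeight_eq hy, mulHeightBound_eq, mul_pow]
  have h3 := mul_le_mul_of_nonneg_left h2 hYp.le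
  rw [mul_one] at h3
  refine h3.trans (le_of_eq ?_)
  have h4 : Y ^ V.card * (Y ^ V.card)⁻¹ = 1 := mul_inv_cancel₀ hYp.ne'
  show Y ^ V.card * (_ * ((Y ^ V.card)⁻¹ * ((∏ᶠ v, B v) * _))) = _ * (∏ᶠ v, B v) * _
  linear_combination ((archAbsVal.map fun v ↦ ⨆ j, (AddMonoidAlgebra.coeff <| F j).sum (fun _ c ↦ v c)).prod *
        (archAbsVal.map fun v : AbsoluteValue K ℝ => ⨆ i, v (y i)).prod ^ d) *
        ((∏ᶠ v, B v) * (∏ᶠ v : nonarchAbsVal (K := K), ⨆ i, v.val (y i)) ^ d) * h4

end

theorem bad_bound {K ι : Type} [Field K] [NumberField K] [Fintype ι] [Nonempty ι] (d : ℕ)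
    (F : ι → MvPolynomial ι K) (hF : ∀ i, (F i).IsHomogeneous d) :
    ∃ C : ℝ, 1 ≤ C ∧ ∀ y : ι → K, (fun i => eval y (F i)) ≠ 0 →
      ∀ (V : Finset (AbsoluteValue K ℝ)) (Y : ℝ), 1 ≤ Y →
        (∀ v ∈ V, v ∈ nonarchAbsVal (K := K) ∧
          (⨆ i, v (eval y (F i))) * Y ≤ (⨆ i, v (y i)) ^ d) →
        Y ^ V.card ≤ C * mulHeight y ^ d := by
  refine ⟨max (mulHeightBound F) 1, le_max_right _ _, fun y h0 V Y hY hV => ?_⟩
  by_cases hy : y = 0
  · -- then the forms are constants
    subst hy
    have hd : d = 0 := by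
      by_contra hd
      apply h0
      funext i
      have h1 := (hF i).coeff_eq_zero (d := 0) (by simpa using Ne.symm hd)
      have h2 : eval (0 : ι → K) (F i) = constantCoeff (F i) := by
        rw [← eval_zero]
      rw [h2]
      exact h1
    subst hd
    have hconst : ∀ i (z : ι → K), eval z (F i) = eval 0 (F i) := by
      intro i z
      have h1 : F i = C ((F i).coeff 0) := by
        have := totalDegree_eq_zero_iff_eq_C.mp (Nat.le_zero.mp (hF i).totalDegree_le)
        exact this
      rw [h1]; simp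
    have h1 := badb_main 0 F hF (fun _ => (1 : K)) (by
        intro h
        have := congrFun h (Classical.arbitrary ι)
        simp at this) (by
        intro h
        apply h0
        funext i
        have := congrFun h i
        rw [hconst] at this
        exact this) V Y hY (by
        intro v hv
        obtain ⟨h1, h2⟩ := hV v hv
        refine ⟨h1, ?_⟩
        simp only [hconst, pow_zero] at h2 ⊢
        exact h2)
    simp only [pow_zero, mul_one] at h1 ⊢
    exact h1.trans (le_max_left _ _)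
  · have h1 := badb_main d F hF y hy h0 V Y hY hV
    refine h1.trans (mul_le_mul_of_nonneg_right (le_max_left _ _) ?_)
    have := one_le_mulHeight y
    positivity

end Pool.Agent.GT
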