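import Pool.Agent.GT.Doubling
import Pool.Agent.GT.ProdSpan

/-!
Project GT, row Z2: representations of all shifts, and the greedy choice of shifts whose
products have large rank modulo the ideal of the orbit.
-/

set_option autoImplicit false

open Filter MvPolynomial

namespace Pool.Agent.GT

theorem greedy_eval_smul {K ι : Type} [Field K] {G : MvPolynomial ι K} {b : ℕ}
    (hG : G.IsHomogeneous b) (c : K) (z : ι → K) :
    eval (fun i => c * z i) G = c ^ b * eval z G := by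
  rw [eval_eq, eval_eq, Finset.mul_sum]
  refine Finset.sum_congr rfl fun d hd => ?_
  have h1 : ∏ i ∈ d.support, (c * z i) ^ d i = c ^ b * ∏ i ∈ d.support, z i ^ d i := by
    simp only [mul_pow]
    rw [Finset.prod_mul_distrib, Finset.prod_pow_eq_pow_sum, hG.degree_eq_sum_deg_support hd]
  rw [h1]
  ring

theorem greedy_eval_bind {K ι : Type} [Field K] (z : ι → K) (Φ : ι → MvPolynomial ι K)
    (G : MvPolynomial ι K) : eval z (bind₁ Φ G) = eval (fun i => eval z (Φ i)) G := by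
  have h := aeval_bind₁ (S := K) z Φ G
  simpa [MvPolynomial.coe_aeval_eq_eval] using h

theorem greedy_hom_bind {K ι : Type} [Field K] {Φ : ι → MvPolynomial ι K} {e b : ℕ}
    (hΦ : ∀ i, (Φ i).IsHomogeneous e) {G : MvPolynomial ι K} (hG : G.IsHomogeneous b) :
    (bind₁ Φ G).IsHomogeneous (e * b) := by
  rw [← aeval_eq_bind₁]
  exact hG.aeval Φ hΦ

theorem exists_rep {K T ι : Type} [Field K] {δ : T → ℕ}
    {F : T → ι → MvPolynomial ι K} {y : ℕ → ι → K} (h : Orb δ F y) (l n : ℕ) :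
    ∃ (e : ℕ) (Φ : ι → MvPolynomial ι K), Rep y l e Φ ∧ ∃ i, eval (y n) (Φ i) ≠ 0 := by
  induction l with
  | zero =>
    obtain ⟨i, hi⟩ := Function.ne_iff.1 (h.ne n)
    have h1 : eval (y n) (X i : MvPolynomial ι K) ≠ 0 := by
      rw [eval_X]
      exact hi
    refine ⟨1, X, ⟨fun i => isHomogeneous_X K i, ⟨n, i, h1⟩, fun m => ⟨1, fun i => ?_⟩⟩, i, h1⟩
    rw [eval_X, one_mul]
    rfl
  | succ l ih =>
    obtain ⟨e, Φ, ⟨hΦ1, -, hΦ3⟩, i, hi⟩ := ih
    obtain ⟨c, hc⟩ := hΦ3 n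
    have hc0 : c ≠ 0 := by
      intro h0
      rw [hc, h0, zero_mul] at hi
      exact hi rfl
    obtain ⟨t, i', hi'⟩ := h.step (n + l)
    have key : ∀ (m : ℕ) (c : K), (∀ i, eval (y m) (Φ i) = c * y (m + l) i) → ∀ j,
        eval (y m) (bind₁ Φ (F t j)) = c ^ δ t * eval (y (m + l)) (F t j) := by
      intro m c hc j
      have e1 : (fun i => eval (y m) (Φ i)) = fun i => c * y (m + l) i := funext hc
      rw [greedy_eval_bind, e1, greedy_eval_smul (h.hom t j)]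
    have hne : eval (y n) (bind₁ Φ (F t i')) ≠ 0 := by
      rw [key n c hc i']
      exact mul_ne_zero (pow_ne_zero _ hc0) hi'
    refine ⟨e * δ t, fun j => bind₁ Φ (F t j), ⟨fun j => greedy_hom_bind hΦ1 (h.hom t j),
      ⟨n, i', hne⟩, fun m => ?_⟩, i', hne⟩
    obtain ⟨c1, hc1⟩ := hΦ3 m
    obtain ⟨c2, hc2⟩ := h.prop (m + l) t
    refine ⟨c1 ^ δ t * c2, fun j => ?_⟩
    rw [key m c1 hc1 j, hc2 j]
    have e2 : m + (l + 1) = m + l + 1 := rfl
    rw [e2, mul_assoc]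

/-- two representations of the same shift are proportional modulo the ideal of the orbit -/
theorem greedy_cross {K ι : Type} [Field K] {y : ℕ → ι → K} {𝔭 : Ideal (MvPolynomial ι K)}
    (hmem : ∀ (b : ℕ) (G : MvPolynomial ι K), G.IsHomogeneous b →
      (G ∈ 𝔭 ↔ ∀ n, eval (y n) G = 0)) {l a b : ℕ} {Φ Ψ : ι → MvPolynomial ι K}
    (hΦ : Rep y l a Φ) (hΨ : Rep y l b Ψ) (i j : ι) : Φ i * Ψ j - Φ j * Ψ i ∈ 𝔭 := by
  rw [hmem (a + b) _ (((hΦ.1 i).mul (hΨ.1 j)).sub ((hΦ.1 j).mul (hΨ.1 i)))]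
  intro n
  obtain ⟨c, hc⟩ := hΦ.2.2 n
  obtain ⟨c', hc'⟩ := hΨ.2.2 n
  rw [map_sub, map_mul, map_mul, hc, hc, hc', hc']
  ring

theorem greedy {K T ι : Type} [Field K] [Fintype ι] {δ : T → ℕ}
    {F : T → ι → MvPolynomial ι K} {y : ℕ → ι → K} (h : Orb δ F y)
    {𝔭 : Ideal (MvPolynomial ι K)} (h𝔭 : HPrime 𝔭)
    (hmem : ∀ (b : ℕ) (G : MvPolynomial ι K), G.IsHomogeneous b →
      (G ∈ 𝔭 ↔ ∀ n, eval (y n) G = 0))
    (hunb : ∀ B, ∃ l, ∀ e ≤ B, ∀ Φ : ι → MvPolynomial ι K, ¬ Rep y l e Φ) (j : ℕ) :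
    ∃ (l a : Fin j → ℕ) (Φ : Fin j → ι → MvPolynomial ι K), (∀ i, Rep y (l i) (a i) (Φ i)) ∧
      2 ^ j ≤ rk 𝔭 (prodSpan Φ) := by
  induction j with
  | zero =>
    refine ⟨Fin.elim0, Fin.elim0, fun i => i.elim0, fun i => i.elim0, ?_⟩
    rw [rk_prodSpan_zero h𝔭.prime, pow_zero]
  | succ j ih =>
    obtain ⟨l, a, Φ, hrep, hrk⟩ := ih
    obtain ⟨l', hl'⟩ := hunb (Fintype.card ι * (∑ i, a i) + 1)
    obtain ⟨e, Φ', hΦ', -⟩ := exists_rep h l' 0
    refine ⟨Fin.snoc (α := fun _ => ℕ) l l', Fin.snoc (α := fun _ => ℕ) a e,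
      Fin.snoc (α := fun _ => ι → MvPolynomial ι K) Φ Φ', fun i => ?_, ?_⟩
    · refine Fin.lastCases ?_ (fun i => ?_) i
      · rw [Fin.snoc_last, Fin.snoc_last, Fin.snoc_last]
        exact hΦ'
      · rw [Fin.snoc_castSucc, Fin.snoc_castSucc, Fin.snoc_castSucc]
        exact hrep i
    · by_contra hcon
      push Not at hcon
      rw [prodSpan_snoc] at hcon
      have hpos : 1 ≤ rk 𝔭 (prodSpan Φ) := le_trans Nat.one_le_two_pow hrk
      have hlt : rk 𝔭 (prodSpan Φ * Submodule.span K (Set.range Φ')) <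
          2 * rk 𝔭 (prodSpan Φ) := by
        refine lt_of_lt_of_le hcon ?_
        rw [pow_succ, mul_comm]
        exact Nat.mul_le_mul_left 2 hrk
      obtain ⟨n₀, i₀, hi₀⟩ := hΦ'.2.1
      have hi₀' : Φ' i₀ ∉ 𝔭 := fun hc => hi₀ ((hmem e _ (hΦ'.1 i₀)).1 hc n₀)
      obtain ⟨j₀, hj₀⟩ := Function.ne_iff.1 (h.ne 0)
      have hj₀' : (X j₀ : MvPolynomial ι K) ∉ 𝔭 := fun hc => by
        have h1 := (hmem 1 _ (isHomogeneous_X K j₀)).1 hc 0
        rw [eval_X] at h1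
        exact hj₀ h1
      obtain ⟨Ψ, V, b, hΨ1, hV1, hV2, hΨ2⟩ := doubling h𝔭.prime (∑ i, a i) e (prodSpan Φ)
        (prodSpan_hom Φ a fun i t => (hrep i).1 t) hpos Φ' hΦ'.1 i₀ hi₀' j₀ hj₀' hlt
      refine hl' _ le_rfl Ψ ⟨hΨ1, ?_, fun n => ?_⟩
      · by_contra hc
        push Not at hc
        have h1 : Ψ i₀ ∈ 𝔭 := (hmem _ _ (hΨ1 i₀)).2 fun n => hc n i₀
        have h2 : Φ' i₀ * V ∈ 𝔭 := by
          have h3 := 𝔭.sub_mem (𝔭.mul_mem_right (Φ' i₀) h1) (hΨ2 i₀)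
          rwa [sub_sub_cancel] at h3
        rcases h𝔭.prime.mem_or_mem h2 with h3 | h3
        · exact hi₀' h3
        · exact hV2 h3
      · obtain ⟨e2, Φn, hΦn, i1, hi1⟩ := exists_rep h l' n
        have hcross : ∀ i i', Ψ i * Φn i' - Ψ i' * Φn i ∈ 𝔭 := by
          intro i i'
          have h1 : (Ψ i * Φn i' - Ψ i' * Φn i) * Φ' i₀ ∈ 𝔭 := by
            have e3 : (Ψ i * Φn i' - Ψ i' * Φn i) * Φ' i₀ =
                Φn i' * (Ψ i * Φ' i₀ - Φ' i * V) - Φn i * (Ψ i' * Φ' i₀ - Φ' i' * V) +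
                  V * (Φ' i * Φn i' - Φ' i' * Φn i) := by ring
            rw [e3]
            exact 𝔭.add_mem (𝔭.sub_mem (𝔭.mul_mem_left _ (hΨ2 i)) (𝔭.mul_mem_left _ (hΨ2 i')))
              (𝔭.mul_mem_left _ (greedy_cross hmem hΦ' hΦn i i'))
          exact (h𝔭.prime.mem_or_mem h1).resolve_right hi₀'
        have hev : ∀ i i', eval (y n) (Ψ i) * eval (y n) (Φn i') =
            eval (y n) (Ψ i') * eval (y n) (Φn i) := by
          intro i i'
          have h1 := (hmem _ _ (((hΨ1 i).mul (hΦn.1 i')).sub ((hΨ1 i').mul (hΦn.1 i)))).1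
            (hcross i i') n
          rw [map_sub, map_mul, map_mul, sub_eq_zero] at h1
          exact h1
        obtain ⟨c, hc⟩ := hΦn.2.2 n
        refine ⟨eval (y n) (Ψ i1) / eval (y n) (Φn i1) * c, fun i => ?_⟩
        have h2 := hev i i1
        rw [hc i] at h2
        field_simp
        linear_combination h2

end Pool.Agent.GT
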