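import Pool.Agent.GT.Defs

/-!
Project GT (MP_e3c919_ag), row Z1: the homogeneous prime of an orbit (helper84).
-/

set_option autoImplicit false

open Filter MvPolynomial

namespace Pool.Agent.GT

section OrbitPrime

attribute [local instance] MvPolynomial.gradedAlgebra

theorem orbitPrime_eval {K ι : Type} [Field K] (y : ℕ → ι → K) (n : ℕ)
    (G : MvPolynomial ι K)
    (hG : G ∈ Ideal.span {G : MvPolynomial ι K | ∃ b, G.IsHomogeneous b ∧
      ∀ n, eval (y n) G = 0}) : eval (y n) G = 0 := by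
  have h : Ideal.span {G : MvPolynomial ι K | ∃ b, G.IsHomogeneous b ∧
      ∀ n, eval (y n) G = 0} ≤ RingHom.ker (eval (y n)) := by
    rw [Ideal.span_le]
    rintro G ⟨b, _, h⟩
    exact RingHom.mem_ker.mpr (h n)
  exact RingHom.mem_ker.mp (h hG)

theorem orbit_prime {K ι : Type} [Field K] [Infinite K] [Finite ι] (y : ℕ → ι → K)
    (hirr : Irr y) :
    ∃ 𝔭 : Ideal (MvPolynomial ι K), HPrime 𝔭 ∧
      ∀ (b : ℕ) (G : MvPolynomial ι K), G.IsHomogeneous b →
        (G ∈ 𝔭 ↔ ∀ n, eval (y n) G = 0) := by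
  classical
  have hhom : (Ideal.span {G : MvPolynomial ι K | ∃ b, G.IsHomogeneous b ∧
      ∀ n, eval (y n) G = 0}).IsHomogeneous (homogeneousSubmodule ι K) := by
    refine Ideal.homogeneous_span _ _ ?_
    rintro G ⟨b, hb, _⟩
    exact ⟨b, hb⟩
  refine ⟨Ideal.span {G : MvPolynomial ι K | ∃ b, G.IsHomogeneous b ∧
    ∀ n, eval (y n) G = 0}, ⟨?_, ?_⟩, ?_⟩
  · refine hhom.isPrime_of_homogeneous_mem_or_mem ?_ ?_
    · intro h
      have h1 : (1 : MvPolynomial ι K) ∈ Ideal.span {G : MvPolynomial ι K | ∃ b,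
          G.IsHomogeneous b ∧ ∀ n, eval (y n) G = 0} := by
        rw [h]
        exact Submodule.mem_top
      have h2 := orbitPrime_eval y 0 1 h1
      rw [map_one] at h2
      exact one_ne_zero h2
    · rintro G H ⟨a, ha⟩ ⟨b, hb⟩ hGH
      rcases hirr a b G H ha hb fun n => orbitPrime_eval y n _ hGH with h | h
      · exact Or.inl (Ideal.subset_span ⟨a, ha, h⟩)
      · exact Or.inr (Ideal.subset_span ⟨b, hb, h⟩)
  · intro G hG b
    exact (mem_iff_homogeneousComponent_mem hhom G).mp hG b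
  · intro b G hG
    exact ⟨fun h n => orbitPrime_eval y n G h, fun h => Ideal.subset_span ⟨b, hG, h⟩⟩

end OrbitPrime

end Pool.Agent.GT
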