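import Pool.Agent.GT.Defs

/-!
Basic facts on large families of indices.
-/

set_option autoImplicit false

open Filter MvPolynomial

namespace Pool.Agent.GT

theorem ev_not {P : ℕ → Prop} : (¬ ∀ᶠ N in U, P N) ↔ ∀ᶠ N in U, ¬ P N :=
  Ultrafilter.eventually_not.symm

theorem ev_or {P Q : ℕ → Prop} :
    (∀ᶠ N in U, P N ∨ Q N) ↔ (∀ᶠ N in U, P N) ∨ ∀ᶠ N in U, Q N :=
  Ultrafilter.eventually_or

theorem ev_top {P : ℕ → Prop} (h : ∀ᶠ N in atTop, P N) : ∀ᶠ N in U, P N :=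
  Nat.hyperfilter_le_atTop h

theorem ev_ge (n : ℕ) : ∀ᶠ N in U, n ≤ N := ev_top (eventually_ge_atTop n)

theorem exists_fun {X : Type} [Nonempty X] {P : ℕ → X → Prop}
    (h : ∀ᶠ N in U, ∃ x, P N x) : ∃ f : ℕ → X, ∀ᶠ N in U, P N (f N) := by
  classical
  refine ⟨fun N => if hN : ∃ x, P N x then hN.choose else Classical.arbitrary X, ?_⟩
  filter_upwards [h] with N hN
  rw [dif_pos hN]
  exact hN.choose_spec

theorem exists_const {X : Type} [Finite X] (a : ℕ → X) : ∃ b, ∀ᶠ N in U, a N = b := by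
  by_contra hc
  push Not at hc
  have h1 : ∀ b : X, ∀ᶠ N in U, ¬ a N = b := fun b => hc b
  have h2 : ∀ᶠ N in U, ∀ b : X, ¬ a N = b := Filter.eventually_all.mpr h1
  obtain ⟨N, hN⟩ := h2.exists
  exact hN (a N) rfl

theorem exists_const_le (C : ℕ) (a : ℕ → ℕ) (h : ∀ᶠ N in U, a N ≤ C) :
    ∃ b ≤ C, ∀ᶠ N in U, a N = b := by
  obtain ⟨b, hb⟩ := exists_const (fun N => (⟨min (a N) C, by omega⟩ : Fin (C + 1)))
  refine ⟨b, Nat.lt_succ_iff.mp b.2, ?_⟩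
  filter_upwards [h, hb] with N h1 h2
  have h3 := congrArg Fin.val h2
  simp only at h3
  omega

theorem rpow_mono_exp (θ θ' : ℝ) (h : θ ≤ θ') {N : ℕ} (hN : 1 ≤ N) :
    (N : ℝ) ^ (1 - θ') ≤ (N : ℝ) ^ (1 - θ) :=
  Real.rpow_le_rpow_of_exponent_le (by exact_mod_cast hN) (by linarith)

theorem large_mono {θ θ' : ℝ} (h : θ ≤ θ') {A : ℕ → Finset ℕ} (hA : Large θ A) :
    Large θ' A := by
  obtain ⟨c, hc, h1⟩ := hA
  refine ⟨c, hc, ?_⟩
  filter_upwards [h1, ev_ge 1] with N h2 h3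
  exact (mul_le_mul_of_nonneg_left (rpow_mono_exp θ θ' h h3) hc.le).trans h2

theorem large_congr {θ : ℝ} {A B : ℕ → Finset ℕ} (h : ∀ᶠ N in U, (A N).card ≤ (B N).card)
    (hA : Large θ A) : Large θ B := by
  obtain ⟨c, hc, h1⟩ := hA
  refine ⟨c, hc, ?_⟩
  filter_upwards [h1, h] with N h2 h3
  exact h2.trans (by exact_mod_cast h3)

theorem large_nonempty {θ : ℝ} {A : ℕ → Finset ℕ} (hA : Large θ A) :
    ∀ᶠ N in U, (A N).Nonempty := by
  obtain ⟨c, hc, h1⟩ := hA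
  filter_upwards [h1, ev_ge 1] with N h2 h3
  rw [← Finset.card_pos]
  have h4 : 0 < c * (N : ℝ) ^ (1 - θ) :=
    mul_pos hc (Real.rpow_pos_of_pos (by exact_mod_cast h3) _)
  exact_mod_cast h4.trans_le h2

theorem large_pt {θ : ℝ} {A : ℕ → Finset ℕ} (hA : Large θ A) :
    ∃ ν : ℕ → ℕ, ∀ᶠ N in U, ν N ∈ A N :=
  exists_fun ((large_nonempty hA).mono fun _ h => h)

theorem not_large {θ : ℝ} {A : ℕ → Finset ℕ} (h : ¬ Large θ A) (c : ℝ) (hc : 0 < c) :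
    ∀ᶠ N : ℕ in U, ((A N).card : ℝ) < c * (N : ℝ) ^ (1 - θ) := by
  have h1 : ¬ ∀ᶠ N : ℕ in U, c * (N : ℝ) ^ (1 - θ) ≤ ((A N).card : ℝ) := fun h2 =>
    h ⟨c, hc, h2⟩
  exact (ev_not.mp h1).mono fun N hN => not_le.mp hN

theorem large_split {θ : ℝ} {A A₁ : ℕ → Finset ℕ} (hA : Large θ A) :
    Large θ A₁ ∨ Large θ fun N => A N \ A₁ N := by
  obtain ⟨c, hc, h1⟩ := hA
  have h2 : ∀ᶠ N : ℕ in U, c / 2 * (N : ℝ) ^ (1 - θ) ≤ ((A₁ N).card : ℝ) ∨
      c / 2 * (N : ℝ) ^ (1 - θ) ≤ ((A N \ A₁ N).card : ℝ) := by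
    filter_upwards [h1] with N h3
    by_contra hc
    push Not at hc
    have h4 : (A N).card ≤ (A₁ N).card + (A N \ A₁ N).card := by
      have h5 := Finset.le_card_sdiff (A₁ N) (A N)
      omega
    have h5 : ((A N).card : ℝ) ≤ (A₁ N).card + (A N \ A₁ N).card := by exact_mod_cast h4
    linarith
  rcases ev_or.mp h2 with h3 | h3
  · exact Or.inl ⟨c / 2, by linarith, h3⟩
  · exact Or.inr ⟨c / 2, by linarith, h3⟩

/-- removing few elements from a large family -/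
theorem large_sdiff {θ θ' : ℝ} (h : θ < θ') {A E : ℕ → Finset ℕ} (hA : Large θ A) (C : ℝ)
    (hE : ∀ᶠ N : ℕ in U, ((E N).card : ℝ) ≤ C * (N : ℝ) ^ (1 - θ')) :
    Large θ fun N => A N \ E N := by
  obtain ⟨c, hc, h1⟩ := hA
  refine ⟨c / 2, by linarith, ?_⟩
  have h2 : ∀ᶠ N : ℕ in U, C * (N : ℝ) ^ (1 - θ') ≤ c / 2 * (N : ℝ) ^ (1 - θ) := by
    apply ev_top
    have h3 : Tendsto (fun N : ℕ => (N : ℝ) ^ (θ' - θ)) atTop atTop :=
      (tendsto_rpow_atTop (by linarith)).comp tendsto_natCast_atTop_atTop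
    filter_upwards [h3.eventually_ge_atTop (2 * C / c), eventually_ge_atTop 1] with N h4 h5
    have h6 : (0 : ℝ) < N := by exact_mod_cast h5
    have h7 : (N : ℝ) ^ (1 - θ) = (N : ℝ) ^ (1 - θ') * (N : ℝ) ^ (θ' - θ) := by
      rw [← Real.rpow_add h6]
      congr 1
      ring
    rw [h7]
    have h8 : 0 < (N : ℝ) ^ (1 - θ') := Real.rpow_pos_of_pos h6 _
    have h9 : C ≤ c / 2 * (N : ℝ) ^ (θ' - θ) := by
      rw [div_le_iff₀ hc] at h4
      linarith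
    nlinarith
  filter_upwards [h1, h2, hE] with N h3 h4 h5
  have h6 : (A N).card ≤ (E N).card + (A N \ E N).card := by
    have h5 := Finset.le_card_sdiff (E N) (A N)
    omega
  have h7 : ((A N).card : ℝ) ≤ (E N).card + (A N \ E N).card := by exact_mod_cast h6
  linarith

theorem van_sub {K ι : Type} [Field K] {y : ℕ → ι → K} {I : Set (MvPolynomial ι (Kst K))}
    {A B : ℕ → Finset ℕ} (h : Van y I A) (hB : ∀ᶠ N in U, B N ⊆ A N) : Van y I B := by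
  intro ν hν
  apply h
  filter_upwards [hν, hB] with N h1 h2
  exact h2 h1

theorem inW_sub {κ : ℕ} {A B : ℕ → Finset ℕ} (h : InW κ A) (hB : ∀ᶠ N in U, B N ⊆ A N) :
    InW κ B := by
  unfold InW
  filter_upwards [h, hB] with N h1 h2 n hn
  exact h1 n (h2 hn)

theorem pt_ne {K ι : Type} [Field K] [Finite ι] {y : ℕ → ι → K} (hy : ∀ n, y n ≠ 0)
    (ν : ℕ → ℕ) : ∃ i, pt y ν i ≠ 0 := by
  have h1 : ∀ N, ∃ i, y (ν N) i ≠ 0 := fun N => Function.ne_iff.mp (hy (ν N))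
  choose f hf using h1
  obtain ⟨i, hi⟩ := exists_const f
  refine ⟨i, ?_⟩
  unfold pt
  rw [cl_ne_zero]
  filter_upwards [hi] with N hN
  rw [← hN]
  exact hf N

theorem var_notin {K ι : Type} [Field K] [Finite ι] {y : ℕ → ι → K} (hy : ∀ n, y n ≠ 0)
    {I : Set (MvPolynomial ι (Kst K))} {θ : ℝ} {A : ℕ → Finset ℕ} (hA : Large θ A)
    (hv : Van y I A) : ∃ i, X i ∉ I := by
  obtain ⟨ν, hν⟩ := large_pt hA
  obtain ⟨i, hi⟩ := pt_ne hy ν
  refine ⟨i, fun h => hi ?_⟩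
  have := hv ν hν _ h
  rwa [eval_X] at this

end Pool.Agent.GT
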