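import Mathlib

/-!
Orbits of logarithmic height of rational self-maps: definitions.

`K` is a field, `ι` the finite index set of the homogeneous coordinates. Scales are natural
numbers `N`; `Kst K` is the ultrapower of `K` along a nonprincipal ultrafilter on the scales,
`cl f` the class of a sequence `f`.
-/

set_option autoImplicit false

open Filter MvPolynomial

namespace Pool.Agent.GT

/-- the filter (a nonprincipal ultrafilter) on the scales -/
noncomputable abbrev U : Filter ℕ := (hyperfilter ℕ : Filter ℕ)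

/-- the ultrapower of `K` along the scales -/
noncomputable def Kst (K : Type) : Type := Germ (hyperfilter ℕ : Filter ℕ) K

noncomputable instance {K : Type} [Field K] : Field (Kst K) :=
  inferInstanceAs (Field (Germ (hyperfilter ℕ : Filter ℕ) K))

/-- the class of a sequence -/
noncomputable def cl {K : Type} (f : ℕ → K) : Kst K := (f : Germ (hyperfilter ℕ : Filter ℕ) K)

section cl

variable {K : Type} [Field K]

omit [Field K] in
theorem cl_surj (a : Kst K) : ∃ f : ℕ → K, cl f = a :=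
  Quotient.exists_rep a

omit [Field K] in
theorem cl_eq {f g : ℕ → K} : cl f = cl g ↔ ∀ᶠ N in U, f N = g N :=
  Germ.coe_eq

theorem cl_add (f g : ℕ → K) : cl (fun N => f N + g N) = cl f + cl g := rfl

theorem cl_mul (f g : ℕ → K) : cl (fun N => f N * g N) = cl f * cl g := rfl

theorem cl_zero : cl (fun _ => (0 : K)) = 0 := rfl

theorem cl_one : cl (fun _ => (1 : K)) = 1 := rfl

theorem cl_neg (f : ℕ → K) : cl (fun N => - f N) = - cl f := rfl

/-- the class of a sequence as a homomorphism -/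
noncomputable def clHom (K : Type) [Field K] : (ℕ → K) →+* Kst K where
  toFun f := cl f
  map_one' := rfl
  map_mul' _ _ := rfl
  map_zero' := rfl
  map_add' _ _ := rfl

theorem clHom_apply (f : ℕ → K) : clHom K f = cl f := rfl

theorem cl_sum {A : Type} (s : Finset A) (f : A → ℕ → K) :
    cl (fun N => ∑ a ∈ s, f a N) = ∑ a ∈ s, cl (f a) := by
  have h := map_sum (clHom K) f s
  rw [clHom_apply] at h
  rw [show (fun N => ∑ a ∈ s, f a N) = ∑ a ∈ s, f a by funext N; simp]
  exact h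

theorem cl_prod {A : Type} (s : Finset A) (f : A → ℕ → K) :
    cl (fun N => ∏ a ∈ s, f a N) = ∏ a ∈ s, cl (f a) := by
  have h := map_prod (clHom K) f s
  rw [clHom_apply] at h
  rw [show (fun N => ∏ a ∈ s, f a N) = ∏ a ∈ s, f a by funext N; simp]
  exact h

theorem cl_pow (f : ℕ → K) (n : ℕ) : cl (fun N => f N ^ n) = cl f ^ n := by
  have h := map_pow (clHom K) f n
  exact h

theorem cl_eq_zero {f : ℕ → K} : cl f = 0 ↔ ∀ᶠ N in U, f N = 0 := by
  rw [← cl_zero, cl_eq]

theorem cl_ne_zero {f : ℕ → K} : cl f ≠ 0 ↔ ∀ᶠ N in U, f N ≠ 0 := by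
  rw [Ne, cl_eq_zero]
  exact Ultrafilter.eventually_not.symm

/-- the constants in the ultrapower -/
noncomputable def cst (K : Type) [Field K] : K →+* Kst K where
  toFun a := cl fun _ => a
  map_one' := rfl
  map_mul' _ _ := rfl
  map_zero' := rfl
  map_add' _ _ := rfl

theorem cst_apply (a : K) : cst K a = cl fun _ => a := rfl

instance [Infinite K] : Infinite (Kst K) :=
  Infinite.of_injective (cst K) (cst K).injective

end cl

/-- the vector with internal coordinates `z N i` -/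
noncomputable def gpt {K ι : Type} (z : ℕ → ι → K) : ι → Kst K := fun i => cl fun N => z N i

/-- the point of the orbit with internal index `ν` -/
noncomputable def pt {K ι : Type} (y : ℕ → ι → K) (ν : ℕ → ℕ) : ι → Kst K := fun i => cl fun N => y (ν N) i

theorem pt_eq {K ι : Type} (y : ℕ → ι → K) (ν : ℕ → ℕ) : pt y ν = gpt fun N => y (ν N) := rfl

/-- The vectors `y n` represent the orbit of a point under the rational map given by the tuples
`F t` of forms of degree `δ t` (all the tuples represent the same map), and at every point of the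
orbit one of the tuples does not vanish. -/
structure Orb {K T ι : Type} [Field K] (δ : T → ℕ) (F : T → ι → MvPolynomial ι K)
    (y : ℕ → ι → K) : Prop where
  hom : ∀ t i, (F t i).IsHomogeneous (δ t)
  ne : ∀ n, y n ≠ 0
  prop : ∀ n t, ∃ c : K, ∀ i, eval (y n) (F t i) = c * y (n + 1) i
  step : ∀ n, ∃ t, ∃ i, eval (y n) (F t i) ≠ 0

/-- The Zariski closure of the set of the points `y n` is irreducible. -/
def Irr {K ι : Type} [Field K] (y : ℕ → ι → K) : Prop :=
  ∀ (a b : ℕ) (G H : MvPolynomial ι K), G.IsHomogeneous a → H.IsHomogeneous b →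
    (∀ n, eval (y n) (G * H) = 0) → (∀ n, eval (y n) G = 0) ∨ ∀ n, eval (y n) H = 0

/-- `A N` consists of numbers between `N` and `κ N`. -/
def InW (κ : ℕ) (A : ℕ → Finset ℕ) : Prop :=
  ∀ᶠ N in U, ∀ n ∈ A N, N ≤ n ∧ n ≤ κ * N

/-- `A N` has at least `c N ^ (1 - θ)` elements. -/
def Large (θ : ℝ) (A : ℕ → Finset ℕ) : Prop :=
  ∃ c : ℝ, 0 < c ∧ ∀ᶠ N : ℕ in U, c * (N : ℝ) ^ (1 - θ) ≤ ((A N).card : ℝ)

/-- The polynomials of `I` vanish at the points of the orbit with indices in the family `A`. -/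
def Van {K ι : Type} [Field K] (y : ℕ → ι → K) (I : Set (MvPolynomial ι (Kst K)))
    (A : ℕ → Finset ℕ) : Prop :=
  ∀ ν : ℕ → ℕ, (∀ᶠ N in U, ν N ∈ A N) → ∀ G ∈ I, eval (pt y ν) G = 0

/-- A homogeneous prime ideal. -/
structure HPrime {k ι : Type} [Field k] (𝔭 : Ideal (MvPolynomial ι k)) : Prop where
  prime : 𝔭.IsPrime
  comp : ∀ G ∈ 𝔭, ∀ b, homogeneousComponent b G ∈ 𝔭

/-- The dimension of the image of a space of polynomials modulo an ideal. -/
noncomputable def rk {k ι : Type} [Field k] (𝔭 : Ideal (MvPolynomial ι k))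
    (W : Submodule k (MvPolynomial ι k)) : ℕ :=
  Module.finrank k (W.map (Ideal.Quotient.mkₐ k 𝔭).toLinearMap)

/-- The Hilbert function. -/
noncomputable def HF {k ι : Type} [Field k] (𝔭 : Ideal (MvPolynomial ι k)) (b : ℕ) : ℕ :=
  rk 𝔭 (homogeneousSubmodule ι k b)

/-- The Hilbert function grows at most like the one of a variety of dimension `w - 1`. -/
def HBc {k ι : Type} [Field k] (𝔭 : Ideal (MvPolynomial ι k)) (w c : ℕ) : Prop :=
  ∀ b, b * HF 𝔭 b ≤ c * b ^ w

/-- The same with an unspecified constant. -/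
def HB {k ι : Type} [Field k] (𝔭 : Ideal (MvPolynomial ι k)) (w : ℕ) : Prop :=
  ∃ c, HBc 𝔭 w c

/-- The span of the products `∏ i, Φ i (φ i)`. -/
noncomputable def prodSpan {k ι : Type} [Field k] {j : ℕ} (Φ : Fin j → ι → MvPolynomial ι k) :
    Submodule k (MvPolynomial ι k) :=
  Submodule.span k (Set.range fun φ : Fin j → ι => ∏ i, Φ i (φ i))

/-- The forms `Φ i` of degree `a` represent the shift by `lam N` along the family `A` outside a
family of at most `e N` indices. -/
def GRep {K ι : Type} [Field K] (y : ℕ → ι → K) (A : ℕ → Finset ℕ) (lam : ℕ → ℕ) (a : ℕ)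
    (Φ : ι → MvPolynomial ι (Kst K)) (e : ℕ → ℝ) : Prop :=
  (∀ i, (Φ i).IsHomogeneous a) ∧ ∃ E : ℕ → Finset ℕ,
    (∀ᶠ N in U, ((E N).card : ℝ) ≤ e N) ∧
    ∀ ν : ℕ → ℕ, (∀ᶠ N in U, ν N ∈ A N ∧ ν N ∉ E N) →
      ∃ c : Kst K, c ≠ 0 ∧ ∀ i, eval (pt y ν) (Φ i) = c * pt y (fun N => ν N + lam N) i

open Classical in
/-- The indices `n` in `S` at which the values of the forms `Φ i` at `y n` are not proportional
to `y (n + l)`. -/
noncomputable def bad {K ι : Type} [Field K] (y : ℕ → ι → K) (S : Finset ℕ) (l : ℕ)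
    (Φ : ι → MvPolynomial ι K) : Finset ℕ :=
  S.filter fun n => ¬ ∃ c : K, c ≠ 0 ∧ ∀ i, eval (y n) (Φ i) = c * y (n + l) i

/-- The indices `n + l` where `n` in `S` is not bad. -/
noncomputable def sh {K ι : Type} [Field K] (y : ℕ → ι → K) (S : Finset ℕ) (l : ℕ)
    (Φ : ι → MvPolynomial ι K) : Finset ℕ :=
  (S \ bad y S l Φ).image fun n => n + l

/-- A pigeonhole class for a place `v`: the coefficients of the forms are integral, for every
`n` in `S` the first `L` steps of the orbit have good reduction for the tuples `F (τ m)`, and the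
points `y n`, `n` in `S`, are congruent. -/
structure Cls {K T ι : Type} [Field K] [Fintype ι] (δ : T → ℕ) (F : T → ι → MvPolynomial ι K)
    (y : ℕ → ι → K) (v : AbsoluteValue K ℝ) (Y : ℝ) (L : ℕ) (i₀ : ι) (τ : ℕ → T)
    (S : Finset ℕ) : Prop where
  int : ∀ t i m, v ((F t i).coeff m) ≤ 1
  piv : ∀ n ∈ S, y n i₀ ≠ 0 ∧ ∀ i, v (y n i) ≤ v (y n i₀)
  good : ∀ n ∈ S, ∀ m < L,
    (⨆ i, v (eval (y (n + m)) (F (τ m) i))) = (⨆ i, v (y (n + m) i)) ^ δ (τ m)
  cong : ∀ n ∈ S, ∀ n' ∈ S, ∀ i, v (y n i / y n i₀ - y n' i / y n' i₀) ≤ 1 / Y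

/-- A preliminary class. -/
structure PCls {K T ι : Type} [Field K] [Fintype ι] (δ : T → ℕ) (F : T → ι → MvPolynomial ι K)
    (y : ℕ → ι → K) (v : AbsoluteValue K ℝ) (Y : ℝ) (L : ℕ) (i₀ : ι) (S : Finset ℕ) :
    Prop where
  int : ∀ t i m, v ((F t i).coeff m) ≤ 1
  piv : ∀ n ∈ S, y n i₀ ≠ 0 ∧ ∀ i, v (y n i) ≤ v (y n i₀)
  good : ∀ n ∈ S, ∀ m < L, ∃ t,
    (⨆ i, v (eval (y (n + m)) (F t i))) = (⨆ i, v (y (n + m) i)) ^ δ t
  cong : ∀ n ∈ S, ∀ n' ∈ S, ∀ i, v (y n i / y n i₀ - y n' i / y n' i₀) ≤ 1 / Y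

/-- The forms `Φ i` of degree `e`, not all zero on the orbit, represent the shift by `l`. -/
def Rep {K ι : Type} [Field K] (y : ℕ → ι → K) (l e : ℕ) (Φ : ι → MvPolynomial ι K) : Prop :=
  (∀ i, (Φ i).IsHomogeneous e) ∧ (∃ n i, eval (y n) (Φ i) ≠ 0) ∧
    ∀ n, ∃ c : K, ∀ i, eval (y n) (Φ i) = c * y (n + l) i

/-- `z` is a zero of all forms of degree at most `D` which vanish at the points `y m`, `m ∈ B`. -/
def Hull {K ι : Type} [Field K] (y : ℕ → ι → K) (D : ℕ) (B : Finset ℕ) (z : ι → K) : Prop :=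
  ∀ b ≤ D, ∀ G : MvPolynomial ι K, G.IsHomogeneous b → (∀ m ∈ B, eval (y m) G = 0) →
    eval z G = 0

/-- Homogeneous primes of dimension at most `w - 1` vanish on no large family. -/
def MinW {K ι : Type} [Field K] (y : ℕ → ι → K) (w : ℕ) (θ : ℝ) : Prop :=
  ∀ (𝔮 : Ideal (MvPolynomial ι (Kst K))) (κ : ℕ) (A : ℕ → Finset ℕ), HPrime 𝔮 → InW κ A →
    Large θ A → Van y (𝔮 : Set (MvPolynomial ι (Kst K))) A → ¬ HB 𝔮 w

end Pool.Agent.GT
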