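import Pool.Agent.GT.Level
import Pool.Agent.GT.Hilb
import Pool.Agent.GT.Drop
import Pool.Agent.GT.PrimeAbove
import Pool.Agent.GT.Basic

/-!
Project GT (MP_e3c919_ag), row I1: image of a prime under a shift (helper99 for helper4).
-/

set_option autoImplicit false

open Filter MvPolynomial

namespace Pool.Agent.GT

/-! ### auxiliary lemmas -/

theorem imagePrime_eval_bind {k ι : Type} [Field k] (Φ : ι → MvPolynomial ι k) (x z : ι → k)
    (c : k) (h : ∀ i, eval x (Φ i) = c * z i) (b : ℕ) (G : MvPolynomial ι k)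
    (hG : G.IsHomogeneous b) : eval x (bind₁ Φ G) = c ^ b * eval z G := by
  have h1 : eval x (bind₁ Φ G) = eval (fun i => c * z i) G := by
    have h2 : (fun i => eval x (Φ i)) = fun i => c * z i := funext h
    rw [← h2]
    change (eval x) (bind₁ Φ G) = _
    rw [← MvPolynomial.coe_aeval_eq_eval, ← MvPolynomial.coe_aeval_eq_eval]
    change aeval x (bind₁ Φ G) = aeval (fun i => aeval x (Φ i)) G
    rw [MvPolynomial.aeval_bind₁]
  rw [h1]
  rw [MvPolynomial.eval_eq, MvPolynomial.eval_eq, Finset.mul_sum]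
  refine Finset.sum_congr rfl fun m hm => ?_
  have hd : m.degree = b := by
    have := hG (MvPolynomial.mem_support_iff.1 hm)
    rw [← this]
    rw [Finsupp.degree_eq_weight_one]
    rfl
  have h3 : ∏ i ∈ m.support, (c * z i) ^ m i = c ^ b * ∏ i ∈ m.support, z i ^ m i := by
    simp only [mul_pow]
    rw [Finset.prod_mul_distrib, Finset.prod_pow_eq_pow_sum]
    congr 2
  rw [h3]
  ring

theorem imagePrime_eval_zero {k ι : Type} [Field k] (z : ι → k) (G : MvPolynomial ι k)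
    (h : ∀ b, eval z (homogeneousComponent b G) = 0) : eval z G = 0 := by
  conv_lhs => rw [← MvPolynomial.sum_homogeneousComponent G]
  rw [map_sum]
  exact Finset.sum_eq_zero fun b _ => h b

theorem imagePrime_bind_hom {k ι : Type} [Field k] (Φ : ι → MvPolynomial ι k) (a : ℕ)
    (hΦ : ∀ i, (Φ i).IsHomogeneous a) (b : ℕ) (G : MvPolynomial ι k)
    (hG : G.IsHomogeneous b) : (bind₁ Φ G).IsHomogeneous (a * b) := by
  have := hG.aeval Φ hΦ
  exact this

/-- the constant of a point outside the bad set -/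
theorem imagePrime_const {K ι : Type} [Field K] [Finite ι] (y : ℕ → ι → K) (A : ℕ → Finset ℕ)
    (lam : ℕ → ℕ) (Φ : ℕ → ι → MvPolynomial ι K) (Φ' : ι → MvPolynomial ι (Kst K))
    (hΦ' : ∀ i, ∀ z : ℕ → ι → K, eval (gpt z) (Φ' i) = cl fun N => eval (z N) (Φ N i))
    (ν : ℕ → ℕ) (hν : ∀ᶠ N in U, ν N ∈ A N \ bad y (A N) (lam N) (Φ N)) :
    ∃ c : Kst K, c ≠ 0 ∧
      ∀ i, eval (pt y ν) (Φ' i) = c * pt y (fun N => ν N + lam N) i := by
  classical
  have h1 : ∀ᶠ N in U, ∃ c : K, c ≠ 0 ∧ ∀ i, eval (y (ν N)) (Φ N i) = c * y (ν N + lam N) i := by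
    filter_upwards [hν] with N hN
    rw [Finset.mem_sdiff] at hN
    by_contra hcon
    exact hN.2 (by
      unfold bad
      exact Finset.mem_filter.2 ⟨hN.1, hcon⟩)
  have h2 : ∀ N, ∃ c : K, (∃ c : K, c ≠ 0 ∧
      ∀ i, eval (y (ν N)) (Φ N i) = c * y (ν N + lam N) i) →
      c ≠ 0 ∧ ∀ i, eval (y (ν N)) (Φ N i) = c * y (ν N + lam N) i := by
    intro N
    by_cases h : ∃ c : K, c ≠ 0 ∧ ∀ i, eval (y (ν N)) (Φ N i) = c * y (ν N + lam N) i
    · obtain ⟨c, hc⟩ := h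
      exact ⟨c, fun _ => hc⟩
    · exact ⟨0, fun h' => absurd h' h⟩
  choose c hc using h2
  refine ⟨cl c, cl_ne_zero.2 ?_, fun i => ?_⟩
  · filter_upwards [h1] with N hN using (hc N hN).1
  · rw [pt_eq, hΦ' i]
    change _ = cl c * cl (fun N => y (ν N + lam N) i)
    rw [← cl_mul]
    refine cl_eq.2 ?_
    filter_upwards [h1] with N hN using (hc N hN).2 i

/-- A form which vanishes along a large family on which the minimal prime vanishes lies in it. -/
theorem imagePrime_few_zeros {K ι : Type} [Field K] [Finite ι] (y : ℕ → ι → K)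
    (hy : ∀ n, y n ≠ 0) (w : ℕ) (θ : ℝ) (hmin : MinW y w θ)
    {𝔭 : Ideal (MvPolynomial ι (Kst K))} (h𝔭 : HPrime 𝔭) (hw : HB 𝔭 (w + 1)) (κ : ℕ)
    (A : ℕ → Finset ℕ) (hA : InW κ A) (hL : Large θ A)
    (hv : Van y (𝔭 : Set (MvPolynomial ι (Kst K))) A) (b : ℕ)
    (G : MvPolynomial ι (Kst K)) (hG : G.IsHomogeneous b) (hGv : Van y {G} A) : G ∈ 𝔭 := by
  by_contra hcon
  have hvan : Van y ((𝔭 ⊔ Ideal.span {G} : Ideal (MvPolynomial ι (Kst K))) :
      Set (MvPolynomial ι (Kst K))) A := by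
    intro ν hν F hF
    have h1 : (𝔭 ⊔ Ideal.span {G} : Ideal (MvPolynomial ι (Kst K))) ≤
        RingHom.ker (eval (pt y ν)) := by
      refine sup_le ?_ ?_
      · intro P hP
        exact hv ν hν P hP
      · rw [Ideal.span_le, Set.singleton_subset_iff]
        exact hGv ν hν G rfl
    exact h1 hF
  obtain ⟨𝔮, A', h𝔮, hle, hsub, hL', hv'⟩ := exists_prime_above y θ _
    (comp_sup 𝔭 h𝔭.comp b G hG) A hL hvan
  have hlt : 𝔭 < 𝔮 := by
    refine lt_of_le_of_ne (le_sup_left.trans hle) ?_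
    rintro rfl
    exact hcon (hle (Ideal.mem_sup_right (Ideal.mem_span_singleton_self G)))
  obtain ⟨i, hi⟩ := var_notin hy hL' hv'
  refine hmin 𝔮 κ A' h𝔮 ?_ hL' hv' (HB_drop h𝔭 h𝔮 hlt i hi w hw)
  filter_upwards [hA] with N hN n hn using hN n (hsub N hn)

theorem imagePrime_large {θ θ₂ : ℝ} (h : θ ≤ θ₂) {A : ℕ → Finset ℕ} (hA : Large θ A) :
    Large θ₂ A := by
  obtain ⟨c, hc, h1⟩ := hA
  refine ⟨c, hc, ?_⟩
  have h2 : ∀ᶠ N : ℕ in U, 1 ≤ N := (Nat.hyperfilter_le_atTop) (eventually_ge_atTop 1)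
  filter_upwards [h1, h2] with N hN hN1
  refine le_trans ?_ hN
  refine mul_le_mul_of_nonneg_left ?_ hc.le
  exact Real.rpow_le_rpow_of_exponent_le (by exact_mod_cast hN1) (by linarith)

theorem image_prime {K ι : Type} [Field K] [Fintype ι] (y : ℕ → ι → K) (hy : ∀ n, y n ≠ 0)
    (w : ℕ) (θ θ₂ : ℝ) (hθ : θ ≤ θ₂) (hmin : MinW y w θ₂)
    {𝔭 : Ideal (MvPolynomial ι (Kst K))} (h𝔭 : HPrime 𝔭) (c : ℕ) (hc : HBc 𝔭 (w + 1) c)
    (κ : ℕ) (A : ℕ → Finset ℕ) (hA : InW κ A)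
    (hv : Van y (𝔭 : Set (MvPolynomial ι (Kst K))) A) (lam : ℕ → ℕ)
    (hlam : ∀ᶠ N in U, lam N ≤ N) (a C : ℕ) (ha : 1 ≤ a) (haC : a ≤ C)
    (Φ : ℕ → ι → MvPolynomial ι K) (hΦ : ∀ᶠ N in U, ∀ i, (Φ N i).IsHomogeneous a)
    (hL : Large θ fun N => A N \ bad y (A N) (lam N) (Φ N)) :
    ∃ 𝔮 : Ideal (MvPolynomial ι (Kst K)), HPrime 𝔮 ∧ HBc 𝔮 (w + 1) (c * C ^ (w + 1)) ∧
      ¬ HB 𝔮 w ∧
      Van y (𝔮 : Set (MvPolynomial ι (Kst K))) (fun N => sh y (A N) (lam N) (Φ N)) ∧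
      ∀ (b : ℕ) (G : MvPolynomial ι (Kst K)), G.IsHomogeneous b →
        Van y {G} (fun N => sh y (A N) (lam N) (Φ N)) → G ∈ 𝔮 := by
  classical
  have h1 : ∀ i, ∃ G : MvPolynomial ι (Kst K), G.IsHomogeneous a ∧
      ∀ z : ℕ → ι → K, eval (gpt z) G = cl fun N => eval (z N) (Φ N i) := fun i =>
    exists_germ a (fun N => Φ N i) (by filter_upwards [hΦ] with N hN using hN i)
  choose Φ' hΦ'1 hΦ'2 using h1
  have hprime : HPrime (𝔭.comap (bind₁ Φ')) := hprime_comap h𝔭 Φ' a ha hΦ'1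
  have hvan : Van y ((𝔭.comap (bind₁ Φ') : Ideal (MvPolynomial ι (Kst K))) :
      Set (MvPolynomial ι (Kst K))) (fun N => sh y (A N) (lam N) (Φ N)) := by
    intro μ hμ G hG
    have h3 : ∀ N, ∃ n, μ N ∈ sh y (A N) (lam N) (Φ N) →
        n ∈ A N \ bad y (A N) (lam N) (Φ N) ∧ n + lam N = μ N := by
      intro N
      by_cases h : μ N ∈ sh y (A N) (lam N) (Φ N)
      · have h' := h
        unfold sh at h'
        obtain ⟨n, hn, hn'⟩ := Finset.mem_image.1 h'
        exact ⟨n, fun _ => ⟨hn, hn'⟩⟩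
      · exact ⟨0, fun h' => absurd h' h⟩
    choose ν hν using h3
    have hν1 : ∀ᶠ N in U, ν N ∈ A N \ bad y (A N) (lam N) (Φ N) := by
      filter_upwards [hμ] with N hN using (hν N hN).1
    have hν2 : pt y (fun N => ν N + lam N) = pt y μ := by
      funext i
      refine cl_eq.2 ?_
      filter_upwards [hμ] with N hN
      rw [(hν N hN).2]
    obtain ⟨c', hc'0, hc'⟩ := imagePrime_const y A lam Φ Φ' hΦ'2 ν hν1
    rw [hν2] at hc'
    refine imagePrime_eval_zero _ _ fun b => ?_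
    have hGb : homogeneousComponent b G ∈ 𝔭.comap (bind₁ Φ') := hprime.comp G hG b
    have h4 : eval (pt y ν) (bind₁ Φ' (homogeneousComponent b G)) = 0 := by
      refine hv ν ?_ _ hGb
      filter_upwards [hν1] with N hN using (Finset.mem_sdiff.1 hN).1
    rw [imagePrime_eval_bind Φ' _ _ c' hc' b _ (homogeneousComponent_isHomogeneous b G)] at h4
    exact (mul_eq_zero.1 h4).resolve_left (pow_ne_zero _ hc'0)
  refine ⟨𝔭.comap (bind₁ Φ'), hprime, ?_, ?_, hvan, ?_⟩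
  · intro b
    have h2 := HF_comap 𝔭 Φ' a hΦ'1 b
    have h3 := hc (a * b)
    calc b * HF (𝔭.comap (bind₁ Φ')) b ≤ b * HF 𝔭 (a * b) := Nat.mul_le_mul_left _ h2
      _ ≤ a * b * HF 𝔭 (a * b) := by
          rw [mul_assoc]
          exact Nat.le_mul_of_pos_left _ ha
      _ ≤ c * (a * b) ^ (w + 1) := h3
      _ = c * a ^ (w + 1) * b ^ (w + 1) := by rw [mul_pow]; ring
      _ ≤ c * C ^ (w + 1) * b ^ (w + 1) :=
          Nat.mul_le_mul_right _ (Nat.mul_le_mul_left _ (Nat.pow_le_pow_left haC _))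
  · refine hmin _ (κ + 1) (fun N => sh y (A N) (lam N) (Φ N)) hprime ?_ ?_ hvan
    · filter_upwards [hA, hlam] with N hN hlN m hm
      unfold sh at hm
      obtain ⟨n, hn, rfl⟩ := Finset.mem_image.1 hm
      have := hN n (Finset.mem_sdiff.1 hn).1
      constructor
      · omega
      · have h5 : (κ + 1) * N = κ * N + N := by ring
        omega
    · refine imagePrime_large hθ ?_
      obtain ⟨c₀, hc₀, h6⟩ := hL
      refine ⟨c₀, hc₀, ?_⟩
      filter_upwards [h6] with N hN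
      have h7 : (sh y (A N) (lam N) (Φ N)).card =
          (A N \ bad y (A N) (lam N) (Φ N)).card := by
        unfold sh
        exact Finset.card_image_of_injective _ (add_left_injective _)
      rw [h7]
      exact hN
  · intro b G hG hGv
    change bind₁ Φ' G ∈ 𝔭
    refine imagePrime_few_zeros y hy w θ₂ hmin h𝔭 ⟨c, hc⟩ κ
      (fun N => A N \ bad y (A N) (lam N) (Φ N)) ?_ (imagePrime_large hθ hL) ?_ (a * b) _
      (imagePrime_bind_hom Φ' a hΦ'1 b G hG) ?_
    · filter_upwards [hA] with N hN n hn using hN n (Finset.mem_sdiff.1 hn).1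
    · intro ν hν F hF
      refine hv ν ?_ F hF
      filter_upwards [hν] with N hN using (Finset.mem_sdiff.1 hN).1
    · intro ν hν F hF
      rw [Set.mem_singleton_iff] at hF
      subst hF
      obtain ⟨c', hc'0, hc'⟩ := imagePrime_const y A lam Φ Φ' hΦ'2 ν hν
      rw [imagePrime_eval_bind Φ' _ _ c' hc' b _ hG]
      have h8 : eval (pt y fun N => ν N + lam N) G = 0 := by
        refine hGv (fun N => ν N + lam N) ?_ G rfl
        filter_upwards [hν] with N hN
        unfold sh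
        exact Finset.mem_image.2 ⟨ν N, hN, rfl⟩
      rw [h8, mul_zero]

end Pool.Agent.GT
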