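import Pool.Agent.GT.Defs

/-!
Orbits of logarithmic height (project GT), section C2: a homogeneous prime whose coordinate ring is
integral over `r` linear forms has a Hilbert function of order at most `b ^ (r - 1)`.
-/

set_option autoImplicit false

open MvPolynomial

namespace Pool.Agent.GT

/-- monomials of degree `c` in `r` variables -/
noncomputable def c2Mon (r c : ℕ) : Finset (Fin r →₀ ℕ) :=
  Finset.finsuppAntidiag (Finset.univ : Finset (Fin r)) c

theorem c2_mem_mon {r c : ℕ} {m : Fin r →₀ ℕ} : m ∈ c2Mon r c ↔ ∑ i, m i = c := by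
  unfold c2Mon
  rw [Finset.mem_finsuppAntidiag]
  constructor
  · rintro ⟨h, -⟩
    exact h
  · intro h
    exact ⟨h, Finset.subset_univ _⟩

theorem c2_card_mon_succ (n c : ℕ) : (c2Mon (n + 1) c).card ≤ (c + 1) ^ n := by
  classical
  have h1 : (Fintype.piFinset fun _ : Fin n => Finset.range (c + 1)).card = (c + 1) ^ n := by
    rw [Fintype.card_piFinset]
    simp
  rw [← h1]
  refine Finset.card_le_card_of_injOn (fun m (i : Fin n) => m (Fin.castSucc i)) ?_ ?_
  · intro m hm
    rw [Finset.mem_coe, c2_mem_mon] at hm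
    rw [Finset.mem_coe, Fintype.mem_piFinset]
    intro i
    rw [Finset.mem_range]
    change m (Fin.castSucc i) < c + 1
    have h2 : m (Fin.castSucc i) ≤ ∑ j, m j :=
      Finset.single_le_sum (f := fun j => m j) (fun _ _ => Nat.zero_le _) (Finset.mem_univ _)
    omega
  · intro m hm m' hm' h
    rw [Finset.mem_coe, c2_mem_mon, Fin.sum_univ_castSucc] at hm hm'
    have h3 : ∀ i : Fin n, m (Fin.castSucc i) = m' (Fin.castSucc i) := fun i => congrFun h i
    have h4 : ∑ i : Fin n, m (Fin.castSucc i) = ∑ i : Fin n, m' (Fin.castSucc i) :=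
      Finset.sum_congr rfl fun i _ => h3 i
    ext i
    refine Fin.lastCases ?_ (fun i => h3 i) i
    omega

theorem c2_card_mon_zero (c : ℕ) : (c2Mon 0 c).card ≤ 1 ∧ (0 < c → (c2Mon 0 c).card = 0) := by
  constructor
  · rw [Finset.card_le_one]
    intro a _ b _
    exact Subsingleton.elim _ _
  · intro hc
    rw [Finset.card_eq_zero, Finset.eq_empty_iff_forall_notMem]
    intro m hm
    rw [c2_mem_mon] at hm
    simp at hm
    omega

theorem c2_finite_gen {A R : Type} [CommRing A] [CommRing R] (f : A →+* R) (hf : f.Finite) :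
    ∃ s : Finset R, ∀ x : R, ∃ a : R → A, ∑ ρ ∈ s, f (a ρ) * ρ = x := by
  let _ := f.toAlgebra
  have hM : Module.Finite A R := hf
  obtain ⟨s, hs⟩ := hM.fg_top
  refine ⟨s, fun x => ?_⟩
  have h1 : x ∈ Submodule.span A (s : Set R) := by rw [hs]; trivial
  rw [Submodule.mem_span_finset] at h1
  obtain ⟨a, -, ha⟩ := h1
  exact ⟨a, ha⟩

section

variable {k ι : Type} [Field k]

theorem c2_bind_hom {r c : ℕ} (L : Fin r → MvPolynomial ι k) (hL : ∀ t, (L t).IsHomogeneous 1)
    (a : MvPolynomial (Fin r) k) (ha : a.IsHomogeneous c) : (bind₁ L a).IsHomogeneous c := by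
  have h := ha.aeval L hL
  rw [one_mul] at h
  exact h

/-- the main covering statement -/
theorem c2_cover [Finite ι] {𝔮 : Ideal (MvPolynomial ι k)}
    (h𝔮 : HPrime 𝔮) (r : ℕ) (L : Fin r → MvPolynomial ι k) (hL : ∀ t, (L t).IsHomogeneous 1)
    (hint : ((Ideal.Quotient.mk 𝔮).comp (bind₁ L).toRingHom).IsIntegral) :
    ∃ (N D : ℕ), ∀ b, ∃ B : Finset (MvPolynomial ι k ⧸ 𝔮),
      (homogeneousSubmodule ι k b).map (Ideal.Quotient.mkₐ k 𝔮).toLinearMap ≤
        Submodule.span k (B : Set (MvPolynomial ι k ⧸ 𝔮)) ∧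
      ∃ J : Finset ℕ, True ∧ (∀ d ∈ J, d ≤ D) ∧
        B.card ≤ N * ∑ d ∈ J, (c2Mon r (b - d)).card ∧ ∀ d ∈ J, d ≤ D ∧ J ⊆ Finset.range (D + 1) := by
  classical
  set f : MvPolynomial (Fin r) k →+* MvPolynomial ι k ⧸ 𝔮 :=
    (Ideal.Quotient.mk 𝔮).comp (bind₁ L).toRingHom with hf
  have hft : f.FiniteType := by
    apply RingHom.FiniteType.of_comp_finiteType (f := algebraMap k (MvPolynomial (Fin r) k))
    have e : f.comp (algebraMap k (MvPolynomial (Fin r) k)) =
        algebraMap k (MvPolynomial ι k ⧸ 𝔮) := by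
      ext x
      rw [hf]
      simp only [RingHom.comp_apply, algebraMap_eq]
      have : (bind₁ L).toRingHom (C x) = C x := by
        change bind₁ L (C x) = C x
        rw [bind₁_C_right]
      rw [this]
      rfl
    rw [e]
    exact RingHom.finiteType_algebraMap.2 inferInstance
  have hfin : f.Finite := hint.to_finite hft
  obtain ⟨s, hs⟩ := c2_finite_gen f hfin
  -- lifts
  have hlift : ∀ ρ : MvPolynomial ι k ⧸ 𝔮, ∃ P : MvPolynomial ι k, Ideal.Quotient.mk 𝔮 P = ρ :=
    fun ρ => Ideal.Quotient.mk_surjective ρ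
  choose P hP using hlift
  let D : ℕ := s.sup fun ρ => (P ρ).totalDegree
  refine ⟨s.card, D, fun b => ?_⟩
  let J : Finset ℕ := (Finset.range (D + 1))
  let q : ℕ → (Fin r →₀ ℕ) → (MvPolynomial ι k ⧸ 𝔮) → (MvPolynomial ι k ⧸ 𝔮) := fun d m ρ =>
    Ideal.Quotient.mk 𝔮 (bind₁ L (monomial m 1) * homogeneousComponent d (P ρ))
  let B : Finset (MvPolynomial ι k ⧸ 𝔮) :=
    s.biUnion fun ρ => J.biUnion fun d => (c2Mon r (b - d)).image fun m => q d m ρ
  refine ⟨B, ?_, J, trivial, ?_, ?_, ?_⟩
  · rw [Submodule.map_le_iff_le_comap]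
    intro G hG
    rw [Submodule.mem_comap]
    rw [mem_homogeneousSubmodule] at hG
    -- coefficients
    obtain ⟨a, ha⟩ := hs (Ideal.Quotient.mk 𝔮 G)
    have h2 : Ideal.Quotient.mk 𝔮 (∑ ρ ∈ s, bind₁ L (a ρ) * P ρ) = Ideal.Quotient.mk 𝔮 G := by
      rw [← ha, map_sum]
      refine Finset.sum_congr rfl fun ρ _ => ?_
      rw [map_mul, hP]
      rfl
    have h3 : (∑ ρ ∈ s, bind₁ L (a ρ) * P ρ) - G ∈ 𝔮 := by
      rwa [← Ideal.Quotient.mk_eq_mk_iff_sub_mem]
    have h4 := h𝔮.comp _ h3 b
    rw [map_sub, homogeneousComponent_eq_self hG, ← Ideal.Quotient.mk_eq_mk_iff_sub_mem] at h4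
    have h5 : (Ideal.Quotient.mkₐ k 𝔮).toLinearMap G = Ideal.Quotient.mk 𝔮 G := rfl
    rw [h5, ← h4]
    -- expand
    have h6 : ∀ ρ ∈ s, bind₁ L (a ρ) * P ρ = ∑ c ∈ Finset.range ((a ρ).totalDegree + 1),
        ∑ d ∈ J, bind₁ L (homogeneousComponent c (a ρ)) * homogeneousComponent d (P ρ) := by
      intro ρ hρ
      have e1 : bind₁ L (a ρ) = ∑ c ∈ Finset.range ((a ρ).totalDegree + 1),
          bind₁ L (homogeneousComponent c (a ρ)) := by
        rw [← map_sum, sum_homogeneousComponent]
      have e2 : P ρ = ∑ d ∈ J, homogeneousComponent d (P ρ) := by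
        conv_lhs => rw [← sum_homogeneousComponent (φ := P ρ)]
        refine Finset.sum_subset ?_ ?_
        · intro d hd
          rw [Finset.mem_range] at hd ⊢
          have : (P ρ).totalDegree ≤ D := Finset.le_sup (f := fun ρ => (P ρ).totalDegree) hρ
          omega
        · intro d _ hd
          rw [Finset.mem_range, not_lt] at hd
          exact homogeneousComponent_eq_zero _ _ (by omega)
      conv_lhs => rw [e1, e2]
      rw [Finset.sum_mul_sum]
    rw [Finset.sum_congr rfl h6]
    simp only [map_sum]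
    refine Submodule.sum_mem _ fun ρ hρ => Submodule.sum_mem _ fun c _ =>
      Submodule.sum_mem _ fun d hd => ?_
    have h7 : (bind₁ L (homogeneousComponent c (a ρ)) * homogeneousComponent d (P ρ)).IsHomogeneous
        (c + d) :=
      (c2_bind_hom L hL _ (homogeneousComponent_isHomogeneous _ _)).mul
        (homogeneousComponent_isHomogeneous _ _)
    rw [homogeneousComponent_of_mem h7]
    split_ifs with hb
    · -- the term is a combination of elements of `B`
      have h8 : bind₁ L (homogeneousComponent c (a ρ)) =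
          ∑ m ∈ (homogeneousComponent c (a ρ)).support,
            (coeff m (homogeneousComponent c (a ρ))) • bind₁ L (monomial m 1) := by
        conv_lhs => rw [(homogeneousComponent c (a ρ)).as_sum]
        rw [map_sum]
        refine Finset.sum_congr rfl fun m _ => ?_
        rw [← map_smul, smul_monomial, smul_eq_mul, mul_one]
      rw [h8, Finset.sum_mul, map_sum]
      refine Submodule.sum_mem _ fun m hm => ?_
      rw [smul_mul_assoc]
      have h9 : Ideal.Quotient.mk 𝔮 ((coeff m (homogeneousComponent c (a ρ))) •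
          (bind₁ L (monomial m 1) * homogeneousComponent d (P ρ))) =
          (coeff m (homogeneousComponent c (a ρ))) • q d m ρ :=
        (Ideal.Quotient.mkₐ k 𝔮).toLinearMap.map_smul _ _
      rw [h9]
      refine Submodule.smul_mem _ _ (Submodule.subset_span ?_)
      rw [Finset.mem_coe, Finset.mem_biUnion]
      refine ⟨ρ, hρ, ?_⟩
      rw [Finset.mem_biUnion]
      refine ⟨d, hd, ?_⟩
      rw [Finset.mem_image]
      refine ⟨m, ?_, rfl⟩
      rw [c2_mem_mon]
      have h10 : (homogeneousComponent c (a ρ)).IsHomogeneous c :=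
        homogeneousComponent_isHomogeneous _ _
      have h11 := h10.degree_eq_sum_deg_support hm
      have h12 : ∑ i, m i = ∑ i ∈ m.support, m i := by
        symm
        refine Finset.sum_subset (Finset.subset_univ _) ?_
        intro i _ hi
        exact Finsupp.notMem_support_iff.1 hi
      rw [h12, ← h11]
      omega
    · rw [map_zero]; exact Submodule.zero_mem _
  · intro d hd
    have := Finset.mem_range.1 hd
    omega
  · calc B.card ≤ ∑ ρ ∈ s, (J.biUnion fun d => (c2Mon r (b - d)).image fun m => q d m ρ).card :=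
          Finset.card_biUnion_le
      _ ≤ ∑ ρ ∈ s, ∑ d ∈ J, (c2Mon r (b - d)).card := by
          refine Finset.sum_le_sum fun ρ _ => ?_
          refine Finset.card_biUnion_le.trans ?_
          exact Finset.sum_le_sum fun d _ => Finset.card_image_le
      _ = s.card * ∑ d ∈ J, (c2Mon r (b - d)).card := by
          rw [Finset.sum_const, smul_eq_mul]
  · intro d hd
    refine ⟨?_, Finset.Subset.refl _⟩
    have := Finset.mem_range.1 hd
    omega

end

theorem HB_of_integral {k ι : Type} [Field k] [Finite ι] {𝔮 : Ideal (MvPolynomial ι k)}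
    (h𝔮 : HPrime 𝔮) (r : ℕ) (L : Fin r → MvPolynomial ι k) (hL : ∀ t, (L t).IsHomogeneous 1)
    (hint : ((Ideal.Quotient.mk 𝔮).comp (bind₁ L).toRingHom).IsIntegral) : HB 𝔮 r := by
  classical
  obtain ⟨N, D, hND⟩ := c2_cover h𝔮 r L hL hint
  have hHF : ∀ b, ∃ J : Finset ℕ, (∀ d ∈ J, d ≤ D) ∧ J.card ≤ D + 1 ∧
      HF 𝔮 b ≤ N * ∑ d ∈ J, (c2Mon r (b - d)).card := by
    intro b
    obtain ⟨B, hB, J, -, hJ, hcard, hJ2⟩ := hND b
    refine ⟨J, hJ, ?_, ?_⟩
    · have h1 : J ⊆ Finset.range (D + 1) := fun d hd => (hJ2 d hd).2 hd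
      have h2 := Finset.card_le_card h1
      rwa [Finset.card_range] at h2
    · refine le_trans ?_ hcard
      unfold HF rk
      exact (Submodule.finrank_mono hB).trans (finrank_span_finset_le_card B)
  rcases r with _ | n
  · refine ⟨D * (N * (D + 1)), fun b => ?_⟩
    obtain ⟨J, hJ, hJc, hb⟩ := hHF b
    rw [pow_zero, mul_one]
    rcases Nat.lt_or_ge D b with h | h
    · have h0 : ∑ d ∈ J, (c2Mon 0 (b - d)).card = 0 := by
        refine Finset.sum_eq_zero fun d hd => (c2_card_mon_zero _).2 ?_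
        have := hJ d hd
        omega
      rw [h0, mul_zero] at hb
      have : HF 𝔮 b = 0 := by omega
      rw [this, mul_zero]
      exact Nat.zero_le _
    · have h0 : ∑ d ∈ J, (c2Mon 0 (b - d)).card ≤ D + 1 := by
        calc ∑ d ∈ J, (c2Mon 0 (b - d)).card ≤ ∑ d ∈ J, 1 :=
              Finset.sum_le_sum fun d _ => (c2_card_mon_zero _).1
          _ = J.card := by simp
          _ ≤ D + 1 := hJc
      exact Nat.mul_le_mul h (hb.trans (Nat.mul_le_mul_left _ h0))
  · refine ⟨N * (D + 1) * 2 ^ n, fun b => ?_⟩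
    obtain ⟨J, hJ, hJc, hb⟩ := hHF b
    rcases Nat.eq_zero_or_pos b with rfl | hb0
    · simp
    · have h0 : ∑ d ∈ J, (c2Mon (n + 1) (b - d)).card ≤ (D + 1) * (2 * b) ^ n := by
        calc ∑ d ∈ J, (c2Mon (n + 1) (b - d)).card ≤ ∑ d ∈ J, (2 * b) ^ n := by
              refine Finset.sum_le_sum fun d _ => (c2_card_mon_succ _ _).trans ?_
              exact Nat.pow_le_pow_left (by omega) n
          _ = J.card * (2 * b) ^ n := by rw [Finset.sum_const, smul_eq_mul]
          _ ≤ (D + 1) * (2 * b) ^ n := Nat.mul_le_mul_right _ hJc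
      calc b * HF 𝔮 b ≤ b * (N * ((D + 1) * (2 * b) ^ n)) :=
            Nat.mul_le_mul_left _ (hb.trans (Nat.mul_le_mul_left _ h0))
        _ = N * (D + 1) * 2 ^ n * b ^ (n + 1) := by
            rw [mul_pow, pow_succ]; ring

end Pool.Agent.GT
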