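import Pool.Agent.GT.Hilb

/-!
Relations of bounded degree between linear forms modulo an ideal with small Hilbert function.
-/

set_option autoImplicit false

open Filter MvPolynomial

namespace Pool.Agent.GT

/-- the exponents of a product of linear forms -/
noncomputable def lowrel_exp {w M r : ℕ} (h : w + 1 ≤ r) (e : Fin (w + 1) → Fin (M + 1)) :
    Fin r →₀ ℕ :=
  Finsupp.mapDomain (Fin.castLE h) (Finsupp.equivFunOnFinite.symm fun i => (e i : ℕ))

theorem lowrel_exp_inj {w M r : ℕ} (h : w + 1 ≤ r) {e e' : Fin (w + 1) → Fin (M + 1)}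
    (he : lowrel_exp h e = lowrel_exp h e') : e = e' := by
  have h1 := Finsupp.mapDomain_injective (M := ℕ) (Fin.castLE_injective h) he
  have h2 := Finsupp.equivFunOnFinite.symm.injective h1
  funext i
  exact Fin.ext (congrFun h2 i)

/-- the sum of the exponents -/
def lowrel_sum {w M : ℕ} (e : Fin (w + 1) → Fin (M + 1)) : ℕ := ∑ i, (e i : ℕ)

theorem lowrel_sum_le {w M : ℕ} (e : Fin (w + 1) → Fin (M + 1)) :
    lowrel_sum e ≤ (w + 1) * M := by
  unfold lowrel_sum
  calc ∑ i, (e i : ℕ) ≤ ∑ _i : Fin (w + 1), M :=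
        Finset.sum_le_sum fun i _ => Nat.lt_succ_iff.1 (e i).2
    _ = (w + 1) * M := by simp

/-- the product of linear forms -/
noncomputable def lowrel_form {k ι : Type} [Field k] {w M r : ℕ} (h : w + 1 ≤ r)
    (x : MvPolynomial ι k) (L : Fin r → MvPolynomial ι k) (e : Fin (w + 1) → Fin (M + 1)) :
    MvPolynomial ι k :=
  x ^ ((w + 1) * M - lowrel_sum e) * ∏ i, L (Fin.castLE h i) ^ (e i : ℕ)

theorem lowrel_form_hom {k ι : Type} [Field k] {w M r : ℕ} (h : w + 1 ≤ r)
    (x : MvPolynomial ι k) (L : Fin r → MvPolynomial ι k) (hx : x.IsHomogeneous 1)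
    (hL : ∀ t, (L t).IsHomogeneous 1) (e : Fin (w + 1) → Fin (M + 1)) :
    (lowrel_form h x L e).IsHomogeneous ((w + 1) * M) := by
  have h1 := hx.pow ((w + 1) * M - lowrel_sum e)
  have h2 : (∏ i, L (Fin.castLE h i) ^ (e i : ℕ)).IsHomogeneous (lowrel_sum e) := by
    refine IsHomogeneous.prod _ _ _ fun i _ => ?_
    have h3 := (hL (Fin.castLE h i)).pow (e i : ℕ)
    rwa [one_mul] at h3
  have h3 := h1.mul h2
  rw [one_mul, Nat.sub_add_cancel (lowrel_sum_le e)] at h3
  exact h3

theorem lowrel_bind {k ι : Type} [Field k] {w M r : ℕ} (h : w + 1 ≤ r)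
    (L : Fin r → MvPolynomial ι k) (e : Fin (w + 1) → Fin (M + 1)) (a : k) :
    bind₁ L (monomial (lowrel_exp h e) a) = C a * ∏ i, L (Fin.castLE h i) ^ (e i : ℕ) := by
  rw [bind₁_monomial, ← Finsupp.prod, lowrel_exp]
  congr 1
  rw [Finsupp.prod_mapDomain_index_inj (Fin.castLE_injective h)]
  rw [Finsupp.prod_fintype _ _ fun i => pow_zero _]
  rfl

theorem exists_low_relation (k ι : Type) [Field k] [Finite ι] (c w : ℕ) :
    ∃ D : ℕ, ∀ 𝔮 : Ideal (MvPolynomial ι k), HBc 𝔮 (w + 1) c → ∀ r, w + 1 ≤ r →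
      ∀ (x : MvPolynomial ι k) (L : Fin r → MvPolynomial ι k), x.IsHomogeneous 1 →
        (∀ t, (L t).IsHomogeneous 1) →
        ∃ Q : Polynomial (MvPolynomial (Fin r) k), Q ≠ 0 ∧ Q.natDegree ≤ D ∧
          Q.eval₂ (bind₁ L).toRingHom x ∈ 𝔮 := by
  classical
  set M : ℕ := c * (w + 1) ^ w + 1 with hM
  refine ⟨(w + 1) * M, fun 𝔮 h𝔮 r hr x L hx hL => ?_⟩
  set D : ℕ := (w + 1) * M with hD
  have hDpos : 0 < D := Nat.mul_pos (Nat.succ_pos w) (Nat.succ_pos _)
  -- the number of products exceeds the Hilbert function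
  have hlt : HF 𝔮 D < (M + 1) ^ (w + 1) := by
    have h1 := h𝔮 D
    have h2 : D * HF 𝔮 D ≤ D * (c * D ^ w) := by
      calc D * HF 𝔮 D ≤ c * D ^ (w + 1) := h1
        _ = D * (c * D ^ w) := by ring
    have h3 : HF 𝔮 D ≤ c * D ^ w := Nat.le_of_mul_le_mul_left h2 hDpos
    calc HF 𝔮 D ≤ c * D ^ w := h3
      _ = c * (w + 1) ^ w * M ^ w := by rw [hD, mul_pow]; ring
      _ ≤ M * M ^ w := Nat.mul_le_mul_right _ (by omega)
      _ = M ^ (w + 1) := by ring
      _ < (M + 1) ^ (w + 1) := Nat.pow_lt_pow_left (Nat.lt_succ_self M) (Nat.succ_ne_zero w)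
  -- a linear relation
  set f := (Ideal.Quotient.mkₐ k 𝔮).toLinearMap with hf
  set V := (homogeneousSubmodule ι k D).map f with hV
  have hfin : Module.Finite k V := hilb_fin 𝔮 D
  let g : (Fin (w + 1) → Fin (M + 1)) → V := fun e =>
    ⟨f (lowrel_form hr x L e), Submodule.mem_map_of_mem
      ((mem_homogeneousSubmodule _ _).2 (lowrel_form_hom hr x L hx hL e))⟩
  have hdep : ¬ LinearIndependent k g := by
    intro hli
    have h1 := hli.fintype_card_le_finrank
    rw [Fintype.card_fun, Fintype.card_fin, Fintype.card_fin] at h1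
    exact absurd (lt_of_le_of_lt h1 hlt) (lt_irrefl _)
  obtain ⟨a, ha, e₀, he₀⟩ := Fintype.not_linearIndependent_iff.1 hdep
  have hrel : ∑ e, C (a e) * lowrel_form hr x L e ∈ 𝔮 := by
    rw [← Ideal.Quotient.eq_zero_iff_mem]
    have h1 := congrArg Subtype.val ha
    have h2 : ((∑ e, a e • g e : V) : MvPolynomial ι k ⧸ 𝔮) =
        f (∑ e, a e • lowrel_form hr x L e) := by
      rw [map_sum, Submodule.coe_sum]
      refine Finset.sum_congr rfl fun e _ => ?_
      rw [map_smul]
      rfl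
    rw [h2] at h1
    have h3 : ∑ e, C (a e) * lowrel_form hr x L e = ∑ e, a e • lowrel_form hr x L e :=
      Finset.sum_congr rfl fun e _ => (smul_eq_C_mul _ _).symm
    rw [h3]
    exact h1
  refine ⟨∑ e : Fin (w + 1) → Fin (M + 1),
    Polynomial.monomial (D - lowrel_sum e) (monomial (lowrel_exp hr e) (a e)), ?_, ?_, ?_⟩
  · intro h0
    have h1 := congrArg (fun Q : Polynomial (MvPolynomial (Fin r) k) =>
      coeff (lowrel_exp hr e₀) (Polynomial.coeff Q (D - lowrel_sum e₀))) h0
    simp only [Polynomial.finset_sum_coeff, Polynomial.coeff_zero, coeff_zero, coeff_sum,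
      Polynomial.coeff_monomial] at h1
    rw [Finset.sum_eq_single e₀] at h1
    · rw [if_pos rfl, coeff_monomial, if_pos rfl] at h1
      exact he₀ h1
    · intro e _ hne
      split_ifs
      · rw [coeff_monomial, if_neg]
        exact fun h => hne (lowrel_exp_inj hr h)
      · exact coeff_zero _
    · exact fun h => absurd (Finset.mem_univ _) h
  · refine Polynomial.natDegree_sum_le_of_forall_le _ _ fun e _ => ?_
    exact (Polynomial.natDegree_monomial_le _).trans (Nat.sub_le _ _)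
  · have h1 : Polynomial.eval₂ (bind₁ L).toRingHom x (∑ e : Fin (w + 1) → Fin (M + 1),
        Polynomial.monomial (D - lowrel_sum e) (monomial (lowrel_exp hr e) (a e))) =
        ∑ e, C (a e) * lowrel_form hr x L e := by
      rw [Polynomial.eval₂_finset_sum]
      refine Finset.sum_congr rfl fun e _ => ?_
      rw [Polynomial.eval₂_monomial]
      change bind₁ L (monomial (lowrel_exp hr e) (a e)) * _ = _
      rw [lowrel_bind, lowrel_form]
      ring
    rw [h1]
    exact hrel

end Pool.Agent.GT
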