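import Mathlib

/-!
Project GT, row A2: many primes between `Y` and `Y ^ 2`.
-/

set_option autoImplicit false

namespace Pool.Agent.GT

/-- The elementary inequality behind `many_primes`. -/
theorem manyPrimes_real (Y : ℕ) (hY : 1000 ≤ Y) :
    (2 * Y : ℝ) ≤ (Nat.primeCounting (Y ^ 2) : ℝ) := by
  have h := Chebyshev.pi_ge (Y ^ 2)
  have hYR : (1000 : ℝ) ≤ (Y : ℝ) := by exact_mod_cast hY
  have hYpos : (0 : ℝ) < (Y : ℝ) := by linarith
  obtain ⟨s, hs0, hs⟩ : ∃ s : ℝ, 0 ≤ s ∧ s * s = (Y : ℝ) :=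
    ⟨Real.sqrt Y, Real.sqrt_nonneg _, Real.mul_self_sqrt hYpos.le⟩
  have hs31 : 31 ≤ s := by
    by_contra hlt
    push Not at hlt
    nlinarith
  have hspos : 0 < s := by linarith
  have hlogs : Real.log s ≤ s := by
    have := Real.log_le_sub_one_of_pos hspos
    linarith
  have hlogY : Real.log (Y : ℝ) ≤ 2 * s := by
    rw [← hs, Real.log_mul hspos.ne' hspos.ne']
    linarith
  have hlogY2 : Real.log ((Y : ℝ) ^ 2) ≤ 4 * s := by
    rw [Real.log_pow]
    push_cast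
    linarith
  have hlogpos : 0 < Real.log ((Y : ℝ) ^ 2) := by
    apply Real.log_pos
    nlinarith
  have hlog1 : Real.log ((Y : ℝ) ^ 2 + 1) ≤ 1 + 4 * s := by
    have h2 : Real.log ((Y : ℝ) ^ 2 + 1) ≤ Real.log (2 * (Y : ℝ) ^ 2) := by
      apply Real.log_le_log (by positivity)
      nlinarith
    rw [Real.log_mul (by norm_num) (by positivity)] at h2
    have h3 : Real.log 2 < 1 := by
      have := Real.log_two_lt_d9
      linarith
    linarith
  have hlog2 : 0.69 < Real.log 2 := by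
    have := Real.log_two_gt_d9
    linarith
  push_cast at h
  refine le_trans ?_ h
  rw [le_div_iff₀ hlogpos]
  have h4 : 2 * (Y : ℝ) * Real.log ((Y : ℝ) ^ 2) ≤ 2 * (Y : ℝ) * (4 * s) :=
    mul_le_mul_of_nonneg_left hlogY2 (by positivity)
  have h5 : 0.69 * (Y : ℝ) ^ 2 ≤ (Y : ℝ) ^ 2 * Real.log 2 := by
    have : 0 ≤ (Y : ℝ) ^ 2 := by positivity
    nlinarith
  have h6 : 2 * (Y : ℝ) * (4 * s) + (1 + 4 * s) ≤ 0.69 * (Y : ℝ) ^ 2 := by
    rw [← hs]
    have e1 : 31 * s ^ 3 ≤ s * s ^ 3 := mul_le_mul_of_nonneg_right hs31 (by positivity)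
    have e2 : 31 ^ 2 * s ≤ s ^ 2 * s := by
      have : (31 : ℝ) ^ 2 ≤ s ^ 2 := by nlinarith
      exact mul_le_mul_of_nonneg_right this hspos.le
    nlinarith
  linarith

/-- For large `Y` there are at least `Y` primes in `(Y, Y ^ 2]`. -/
theorem many_primes : ∃ Y₀ : ℕ, ∀ Y, Y₀ ≤ Y → ∃ P : Finset ℕ, Y ≤ P.card ∧
    ∀ p ∈ P, p.Prime ∧ Y < p ∧ p ≤ Y ^ 2 := by
  refine ⟨1000, fun Y hY => ⟨(Finset.Ioc Y (Y ^ 2)).filter Nat.Prime, ?_, ?_⟩⟩
  · have h1 : 2 * Y ≤ Nat.primeCounting (Y ^ 2) := by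
      have := manyPrimes_real Y hY
      exact_mod_cast this
    have h2 : Nat.primeCounting (Y ^ 2) =
        ((Finset.range (Y ^ 2 + 1)).filter Nat.Prime).card := by
      rw [Nat.primeCounting, Nat.primeCounting', Nat.count_eq_card_filter_range]
    have h3 : (Finset.range (Y ^ 2 + 1)).filter Nat.Prime ⊆
        (Finset.Ioc Y (Y ^ 2)).filter Nat.Prime ∪ Finset.Ioc 0 Y := by
      intro p hp
      rw [Finset.mem_filter, Finset.mem_range] at hp
      rw [Finset.mem_union, Finset.mem_filter, Finset.mem_Ioc, Finset.mem_Ioc]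
      have := hp.2.pos
      by_cases hpY : p ≤ Y
      · exact Or.inr ⟨this, hpY⟩
      · exact Or.inl ⟨⟨by omega, by omega⟩, hp.2⟩
    have h4 := (Finset.card_le_card h3).trans (Finset.card_union_le _ _)
    rw [Nat.card_Ioc] at h4
    omega
  · intro p hp
    rw [Finset.mem_filter, Finset.mem_Ioc] at hp
    exact ⟨hp.2, hp.1.1, hp.1.2⟩

end Pool.Agent.GT
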