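import Pool.Agent.GT.Setup
import Pool.Agent.GT.Level
import Pool.Agent.GT.Tools

/-!
Project GT (MP_e3c919_ag), row I4: transition of a prime along one step of the orbit and
propagation of the hulls (helper7 for helper4).
-/

set_option autoImplicit false

open Filter MvPolynomial

namespace Pool.Agent.GT

theorem transition {K T ι : Type} [Field K] [Finite ι] {δ : T → ℕ}
    {F : T → ι → MvPolynomial ι K} {y : ℕ → ι → K} (h : Orb δ F y) (w : ℕ) (θ : ℝ)
    (hmin : MinW y w θ) {𝔮 𝔮' : Ideal (MvPolynomial ι (Kst K))} (h𝔮 : HPrime 𝔮)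
    (hw : HB 𝔮 (w + 1)) (κ : ℕ) (B : ℕ → Finset ℕ) (hB : InW κ B) (hL : Large θ B)
    (hv : Van y (𝔮 : Set (MvPolynomial ι (Kst K))) B)
    (hv' : Van y (𝔮' : Set (MvPolynomial ι (Kst K))) fun N => (B N).image fun n => n + 1)
    (t : T) (b : ℕ) (G : MvPolynomial ι (Kst K)) (hG : G.IsHomogeneous b) (hG𝔮 : G ∈ 𝔮') :
    bind₁ (fun i => map (cst K) (F t i)) G ∈ 𝔮 := by
  have hhom : (bind₁ (fun i => map (cst K) (F t i)) G).IsHomogeneous (δ t * b) := by
    have h1 : ∀ i, (map (cst K) (F t i)).IsHomogeneous (δ t) := fun i => (h.hom t i).map _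
    exact hG.aeval _ h1
  refine few_zeros y h.ne w θ hmin h𝔮 hw κ B hB hL hv (δ t * b) _ hhom ?_
  intro ν hν G' hG'
  rw [Set.mem_singleton_iff] at hG'
  subst hG'
  choose c hc using fun n => h.prop n t
  have h2 : ∀ i, eval (pt y ν) (map (cst K) (F t i)) =
      cl (fun N => c (ν N)) * pt y (fun N => ν N + 1) i := by
    intro i
    rw [pt_eq, eval_gpt_cst]
    have h3 : (fun N => eval (y (ν N)) (F t i)) = fun N => c (ν N) * y (ν N + 1) i := by
      funext N
      exact hc (ν N) i
    rw [h3, cl_mul]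
    rfl
  have h4 : eval (pt y (fun N => ν N + 1)) G = 0 := by
    refine hv' (fun N => ν N + 1) ?_ G hG𝔮
    filter_upwards [hν] with N hN
    exact Finset.mem_image_of_mem _ hN
  have h5 : eval (pt y ν) (bind₁ (fun i => map (cst K) (F t i)) G) =
      eval (fun i => cl (fun N => c (ν N)) * pt y (fun N => ν N + 1) i) G := by
    rw [eval_bind]
    congr 1
    have h6 : (fun i => eval (pt y ν) (map (cst K) (F t i))) =
        fun i => cl (fun N => c (ν N)) * pt y (fun N => ν N + 1) i := funext h2
    rw [h6]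
  rw [h5]
  have h7 := eval_smul_form hG (cl (fun N => c (ν N))) (pt y (fun N => ν N + 1))
  rw [h4, mul_zero] at h7
  exact h7

theorem propagate {K ι : Type} [Field K] (y : ℕ → ι → K) (D : ℕ) (B : ℕ → ℕ → Finset ℕ)
    (l l' μ : ℕ → ℕ) (hl : ∀ᶠ N in U, l N < l' N) (hμ : ∀ᶠ N in U, μ N ∈ B N (l N))
    (hstep : ∀ k m : ℕ → ℕ, (∀ᶠ N in U, l N ≤ k N ∧ k N < l' N) →
      (∀ᶠ N in U, Hull y D (B N (k N)) (y (m N))) →
      ∀ᶠ N in U, Hull y D (B N (if k N + 1 < l' N then k N + 1 else l N)) (y (m N + 1))) :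
    ∀ᶠ N in U, ∀ m, Hull y D (B N (l N + m % (l' N - l N))) (y (μ N + m)) := by
  classical
  by_contra hcon
  have h1 : ∀ᶠ N in U, ¬ ∀ m, Hull y D (B N (l N + m % (l' N - l N))) (y (μ N + m)) :=
    Ultrafilter.eventually_not.2 hcon
  let P : ℕ → ℕ → Prop := fun N m => ¬ Hull y D (B N (l N + m % (l' N - l N))) (y (μ N + m))
  have h2 : ∀ N, ∃ m, (∃ m, P N m) → (P N m ∧ ∀ m' < m, ¬ P N m') := by
    intro N
    by_cases hN : ∃ m, P N m
    · exact ⟨Nat.find hN, fun _ => ⟨Nat.find_spec hN, fun m' hm' => Nat.find_min hN hm'⟩⟩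
    · exact ⟨0, fun h' => absurd h' hN⟩
  choose m hm using h2
  have h3 : ∀ᶠ N in U, P N (m N) ∧ ∀ m' < m N, ¬ P N m' := by
    filter_upwards [h1] with N hN
    rw [not_forall] at hN
    exact hm N hN
  -- the least failure is positive
  have h4 : ∀ᶠ N in U, m N ≠ 0 := by
    filter_upwards [h3, hμ] with N hN hμN h0
    apply hN.1
    rw [h0]
    intro b _ G _ hG0
    have h5 : l N + 0 % (l' N - l N) = l N := by simp
    rw [h5] at hG0
    have h6 := hG0 (μ N) hμN
    simpa using h6
  have h5 := hstep (fun N => l N + (m N - 1) % (l' N - l N)) (fun N => μ N + (m N - 1)) ?_ ?_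
  · have h6 : ∀ᶠ N in U, False := by
      filter_upwards [h3, h4, h5, hl] with N hN h0 hN5 hlN
      apply hN.1
      obtain ⟨r, hr⟩ := Nat.exists_eq_succ_of_ne_zero h0
      have e1 : m N - 1 = r := by omega
      rw [e1] at hN5
      have e2 : μ N + r + 1 = μ N + m N := by omega
      rw [e2] at hN5
      have e3 : (if l N + r % (l' N - l N) + 1 < l' N then l N + r % (l' N - l N) + 1 else l N) =
          l N + m N % (l' N - l N) := by
        have hd : 0 < l' N - l N := by omega
        have hlt : r % (l' N - l N) < l' N - l N := Nat.mod_lt _ hd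
        rw [hr, Nat.succ_eq_add_one]
        by_cases hc : r % (l' N - l N) + 1 < l' N - l N
        · rw [if_pos (by omega)]
          have e4 : (r + 1) % (l' N - l N) = r % (l' N - l N) + 1 := by
            rw [Nat.add_mod, Nat.mod_eq_of_lt (a := r % (l' N - l N) + 1 % (l' N - l N))]
            · rw [Nat.mod_eq_of_lt (a := 1)]
              omega
            · rw [Nat.mod_eq_of_lt (a := 1)]
              · omega
              · omega
          rw [e4]
          omega
        · rw [if_neg (by omega)]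
          have e5 : r % (l' N - l N) + 1 = l' N - l N := by omega
          have e4 : (r + 1) % (l' N - l N) = 0 := by
            have e6 : r + 1 = (l' N - l N) * (r / (l' N - l N)) + (l' N - l N) := by
              have := Nat.div_add_mod r (l' N - l N)
              omega
            rw [e6, Nat.add_mod_right, Nat.mul_mod_right]
          rw [e4]
          omega
      rw [e3] at hN5
      exact hN5
    exact h6.exists.elim fun _ hf => hf
  · filter_upwards [hl] with N hlN
    have hd : 0 < l' N - l N := by omega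
    have hlt : (m N - 1) % (l' N - l N) < l' N - l N := Nat.mod_lt _ hd
    constructor <;> omega
  · filter_upwards [h3, h4] with N hN h0
    exact not_not.1 (hN.2 (m N - 1) (by omega))

end Pool.Agent.GT
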