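import Pool.Agent.GT.Step
import Pool.Agent.GT.Doubling
import Pool.Agent.GT.ProdSpan

/-!
Bounded complexity of the shifts along a popular prime.
-/

set_option autoImplicit false

open Filter MvPolynomial

namespace Pool.Agent.GT

/-- few zeros in terms of cardinalities -/
theorem zeros_few {K ι : Type} [Field K] [Finite ι] {y : ℕ → ι → K} (hy : ∀ n, y n ≠ 0)
    (w : ℕ) (θ₂ : ℝ) (hmin : MinW y w θ₂) {𝔭 : Ideal (MvPolynomial ι (Kst K))}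
    (h𝔭 : HPrime 𝔭) (hHB : HB 𝔭 (w + 1)) (κ : ℕ) (A : ℕ → Finset ℕ) (hA : InW κ A)
    (hv : Van y (𝔭 : Set (MvPolynomial ι (Kst K))) A) (b : ℕ)
    (G : MvPolynomial ι (Kst K)) (hG : G.IsHomogeneous b) (hG𝔭 : G ∉ 𝔭) :
    ∃ A₁ : ℕ → Finset ℕ, (∀ᶠ N : ℕ in U, ((A₁ N).card : ℝ) < (N : ℝ) ^ (1 - θ₂)) ∧
      ∀ ν : ℕ → ℕ, (∀ᶠ N in U, ν N ∈ A N ∧ ν N ∉ A₁ N) → eval (pt y ν) G ≠ 0 := by
  obtain ⟨A₁, hA₁, hA₁0, hA₁1⟩ := zero_split y A G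
  have hnl : ¬ Large θ₂ A₁ := by
    intro hl
    apply hG𝔭
    refine few_zeros y hy w θ₂ hmin h𝔭 hHB κ A₁ ?_ hl (van_sub hv (Eventually.of_forall hA₁))
      _ _ hG ?_
    · unfold InW
      filter_upwards [hA] with N h3 n hn
      exact h3 n (hA₁ N hn)
    · intro ν hν H hH
      rw [Set.mem_singleton_iff.mp hH]
      exact hA₁0 ν hν
  have hA₁c := not_large hnl 1 one_pos
  refine ⟨A₁, ?_, hA₁1⟩
  filter_upwards [hA₁c] with N hN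
  rwa [one_mul] at hN

theorem rk_double {K T ι : Type} [Field K] [Finite T] [Fintype ι] {δ : T → ℕ}
    {F : T → ι → MvPolynomial ι K} {y : ℕ → ι → K} (h : Orb δ F y) (w : ℕ) (θ θ₂ η : ℝ)
    (hmin : MinW y w θ₂) {𝔭 : Ideal (MvPolynomial ι (Kst K))} (h𝔭 : HPrime 𝔭)
    (hHB : HB 𝔭 (w + 1)) (κ : ℕ) (A : ℕ → Finset ℕ) (hA : InW κ A) (hL : Large θ A)
    (hv : Van y (𝔭 : Set (MvPolynomial ι (Kst K))) A) (hη : 0 < η) (hexp : θ < θ₂ - η)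
    (hno : ∀ D : ℕ, ∀ᶠ N : ℕ in U, ∃ l : ℕ, (l : ℝ) ≤ (N : ℝ) ^ η ∧
      NoRep y (A N) D l ((N : ℝ) ^ (1 - θ₂)))
    (α : ℕ) (W : Submodule (Kst K) (MvPolynomial ι (Kst K)))
    (hW : W ≤ homogeneousSubmodule ι (Kst K) α) (hW0 : 1 ≤ rk 𝔭 W) :
    ∃ (lam : ℕ → ℕ) (a : ℕ) (Φ : ι → MvPolynomial ι (Kst K)),
      (∀ᶠ N : ℕ in U, (lam N : ℝ) ≤ (N : ℝ) ^ η) ∧
      GRep y A lam a Φ (fun N => (3 * (lam N : ℝ) - 1) * (N : ℝ) ^ (1 - θ₂)) ∧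
      2 * rk 𝔭 W ≤ rk 𝔭 (W * Submodule.span (Kst K) (Set.range Φ)) := by
  obtain ⟨lam, a, Φ, i₀, hlam, hi₀, hG, hnot⟩ := step_rep h w θ θ₂ η hmin h𝔭 hHB κ A hA hL hv
    hη hexp (Fintype.card ι * α + 1) (by omega) (hno _)
  refine ⟨lam, a, Φ, hlam, hG, ?_⟩
  by_contra hlt
  push Not at hlt
  obtain ⟨j₀, hj₀⟩ := var_notin h.ne hL hv
  obtain ⟨Ψ, V, b, hΨ, hV, hV𝔭, hrel⟩ := doubling h𝔭.prime α a W hW hW0 Φ hG.1 i₀ hi₀ j₀ hj₀ hlt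
  refine hnot _ (by omega) le_rfl Ψ ⟨hΨ, ?_⟩
  have hG1 := hG.1
  obtain ⟨-, E, hE, hrep⟩ := hG
  have hprod : V * Φ i₀ ∉ 𝔭 := fun hm => (h𝔭.prime.mem_or_mem hm).elim hV𝔭 hi₀
  obtain ⟨A₁, hA₁c, hA₁⟩ := zeros_few h.ne w θ₂ hmin h𝔭 hHB κ A hA hv (b + a) (V * Φ i₀)
    (hV.mul (hG1 i₀)) hprod
  classical
  refine ⟨fun N => E N ∪ A₁ N, ?_, ?_⟩
  · filter_upwards [hE, hA₁c, ev_ge 1] with N h1 h2 h3
    have h6 : ((E N ∪ A₁ N).card : ℝ) ≤ (E N).card + (A₁ N).card := by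
      exact_mod_cast Finset.card_union_le _ _
    have h7 : 0 ≤ (N : ℝ) ^ (1 - θ₂) := Real.rpow_nonneg (Nat.cast_nonneg N) _
    linarith
  · intro ν hν
    have h3 : ∀ᶠ N in U, ν N ∈ A N ∧ ν N ∉ E N := hν.mono fun N hN =>
      ⟨hN.1, fun h4 => hN.2 (Finset.mem_union_left _ h4)⟩
    have h4 : ∀ᶠ N in U, ν N ∈ A N ∧ ν N ∉ A₁ N := hν.mono fun N hN =>
      ⟨hN.1, fun h4 => hN.2 (Finset.mem_union_right _ h4)⟩
    obtain ⟨c, hc, h5⟩ := hrep ν h3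
    have h6 := hA₁ ν h4
    rw [map_mul] at h6
    have h7 := (mul_ne_zero_iff.mp h6).1
    have h8 := (mul_ne_zero_iff.mp h6).2
    refine ⟨eval (pt y ν) V / eval (pt y ν) (Φ i₀) * c, mul_ne_zero (div_ne_zero h7 h8) hc, ?_⟩
    intro i
    have h9 := hv ν (h3.mono fun N hN => hN.1) _ (hrel i)
    rw [map_sub, map_mul, map_mul, sub_eq_zero] at h9
    rw [mul_assoc, ← h5 i, div_mul_eq_mul_div, eq_div_iff h8, h9]
    ring

theorem records {K T ι : Type} [Field K] [Finite T] [Fintype ι] {δ : T → ℕ}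
    {F : T → ι → MvPolynomial ι K} {y : ℕ → ι → K} (h : Orb δ F y) (w : ℕ) (θ θ₂ η : ℝ)
    (hmin : MinW y w θ₂) {𝔭 : Ideal (MvPolynomial ι (Kst K))} (h𝔭 : HPrime 𝔭)
    (hHB : HB 𝔭 (w + 1)) (κ : ℕ) (A : ℕ → Finset ℕ) (hA : InW κ A) (hL : Large θ A)
    (hv : Van y (𝔭 : Set (MvPolynomial ι (Kst K))) A) (hη : 0 < η) (hexp : θ < θ₂ - η)
    (hno : ∀ D : ℕ, ∀ᶠ N : ℕ in U, ∃ l : ℕ, (l : ℝ) ≤ (N : ℝ) ^ η ∧
      NoRep y (A N) D l ((N : ℝ) ^ (1 - θ₂))) (j : ℕ) :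
    ∃ (lam : Fin j → ℕ → ℕ) (a : Fin j → ℕ) (Φ : Fin j → ι → MvPolynomial ι (Kst K)),
      (∀ i, ∀ᶠ N : ℕ in U, (lam i N : ℝ) ≤ (N : ℝ) ^ η) ∧
      (∀ i, GRep y A (lam i) (a i) (Φ i)
        (fun N => (3 * (lam i N : ℝ) - 1) * (N : ℝ) ^ (1 - θ₂))) ∧
      2 ^ j ≤ rk 𝔭 (prodSpan Φ) := by
  induction j with
  | zero =>
    refine ⟨fun i => i.elim0, fun i => i.elim0, fun i => i.elim0, fun i => i.elim0,
      fun i => i.elim0, ?_⟩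
    rw [rk_prodSpan_zero h𝔭.prime, pow_zero]
  | succ j ih =>
    obtain ⟨lam, a, Φ, h1, h2, h3⟩ := ih
    obtain ⟨lam', a', Φ', h4, h5, h6⟩ := rk_double h w θ θ₂ η hmin h𝔭 hHB κ A hA hL hv hη hexp
      hno (∑ i, a i) (prodSpan Φ) (prodSpan_hom Φ a fun i t => (h2 i).1 t)
      (le_trans Nat.one_le_two_pow h3)
    refine ⟨Fin.snoc (α := fun _ => ℕ → ℕ) lam lam', Fin.snoc (α := fun _ => ℕ) a a',
      Fin.snoc (α := fun _ => ι → MvPolynomial ι (Kst K)) Φ Φ', ?_, ?_, ?_⟩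
    · intro i
      refine Fin.lastCases ?_ (fun i => ?_) i
      · simpa using h4
      · simpa using h1 i
    · intro i
      refine Fin.lastCases ?_ (fun i => ?_) i
      · simpa using h5
      · simpa using h2 i
    · rw [prodSpan_snoc, pow_succ]
      omega

/-- the key point: bounded complexity -/
theorem bounded_complexity {K T ι : Type} [Field K] [Finite T] [Fintype ι] {δ : T → ℕ}
    {F : T → ι → MvPolynomial ι K} {y : ℕ → ι → K} (h : Orb δ F y) (w : ℕ) (θ θ₂ η c₁ : ℝ)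
    (hmin : MinW y w θ₂) {𝔭 : Ideal (MvPolynomial ι (Kst K))} (h𝔭 : HPrime 𝔭)
    (hHB : HB 𝔭 (w + 1)) (κ : ℕ) (A : ℕ → Finset ℕ) (hA : InW κ A) (hL : Large θ A)
    (hv : Van y (𝔭 : Set (MvPolynomial ι (Kst K))) A) (hη : 0 < η) (hc₁ : 0 ≤ c₁)
    (hexp : θ + c₁ * η < θ₂ - η) (j s : ℕ) (hs : s ≤ 2 ^ j)
    (hCL : ∀ (κ : ℕ) (θ : ℝ) (B : ℕ → Finset ℕ), InW κ B → Large θ B →
        ∃ B' : ℕ → Finset ℕ, (∀ N, B' N ⊆ B N) ∧ Large (θ + c₁ * η) B' ∧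
          ∀ lam : Fin j → ℕ → ℕ, (∀ i, ∀ᶠ N : ℕ in U, (lam i N : ℝ) ≤ (N : ℝ) ^ η) →
            ∀ φ : Fin s → Fin j → ι, ∃ c : Fin s → Kst K, c ≠ 0 ∧
              ∀ ν : ℕ → ℕ, (∀ᶠ N in U, ν N ∈ B' N) →
                ∑ u, c u * ∏ i, pt y (fun N => ν N + lam i N) (φ u i) = 0) :
    ∃ C : ℕ, ∀ᶠ N : ℕ in U, ∀ l : ℕ, (l : ℝ) ≤ (N : ℝ) ^ η → ∃ a, 1 ≤ a ∧ a ≤ C ∧
      ∃ Φ : ι → MvPolynomial ι K, (∀ i, (Φ i).IsHomogeneous a) ∧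
        ((bad y (A N) l Φ).card : ℝ) ≤ (3 * (l : ℝ) + 1) * (N : ℝ) ^ (1 - θ₂) := by
  classical
  by_contra hcon
  have hno : ∀ D : ℕ, ∀ᶠ N : ℕ in U, ∃ l : ℕ, (l : ℝ) ≤ (N : ℝ) ^ η ∧
      NoRep y (A N) D l ((N : ℝ) ^ (1 - θ₂)) := by
    intro D
    by_contra h1
    apply hcon
    refine ⟨D, ?_⟩
    filter_upwards [ev_not.mp h1] with N hN l hl
    by_contra h2
    apply hN
    refine ⟨l, hl, ?_⟩
    intro a ha1 ha2 Φ hΦ
    by_contra h3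
    exact h2 ⟨a, ha1, ha2, Φ, hΦ, not_lt.mp h3⟩
  have hexp' : θ < θ₂ - η := by nlinarith
  obtain ⟨lam, a, Φ, h1, h2, h3⟩ := records h w θ θ₂ η hmin h𝔭 hHB κ A hA hL hv hη hexp' hno j
  obtain ⟨φ, hφ⟩ := pick_indep 𝔭 Φ (hs.trans h3)
  obtain ⟨B', hB'A, hB'L, hB'⟩ := hCL κ θ A hA hL
  obtain ⟨c, hc0, hc⟩ := hB' lam h1 φ
  choose hhom E hE hrep using h2
  set G : MvPolynomial ι (Kst K) := ∑ u, C (c u) * ∏ i, Φ i (φ u i) with hGdef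
  have hGhom : G.IsHomogeneous (∑ i, a i) := by
    refine IsHomogeneous.sum _ _ _ fun u _ => ?_
    exact (IsHomogeneous.prod _ _ _ fun i _ => hhom i (φ u i)).C_mul _
  have hE2 : ∀ᶠ N : ℕ in U, ((Finset.univ.biUnion fun i => E i N).card : ℝ) ≤
      (3 * j) * (N : ℝ) ^ (1 - (θ₂ - η)) := by
    have h4 : ∀ᶠ N : ℕ in U, ∀ i, ((E i N).card : ℝ) ≤ 3 * (N : ℝ) ^ (1 - (θ₂ - η)) := by
      refine Filter.eventually_all.mpr fun i => ?_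
      filter_upwards [hE i, h1 i, ev_ge 1] with N h3 h4 h5
      refine h3.trans ?_
      have h6 : (0 : ℝ) < N := by exact_mod_cast h5
      have h7 : (N : ℝ) ^ (1 - (θ₂ - η)) = (N : ℝ) ^ η * (N : ℝ) ^ (1 - θ₂) := by
        rw [← Real.rpow_add h6]
        congr 1
        ring
      rw [h7, ← mul_assoc]
      apply mul_le_mul_of_nonneg_right _ (Real.rpow_nonneg h6.le _)
      linarith
    filter_upwards [h4] with N h5
    have h6 : ((Finset.univ.biUnion fun i => E i N).card : ℝ) ≤ ∑ i, ((E i N).card : ℝ) := by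
      exact_mod_cast Finset.card_biUnion_le
    refine h6.trans ((Finset.sum_le_card_nsmul _ _ _ fun i _ => h5 i).trans ?_)
    rw [Finset.card_univ, Fintype.card_fin, nsmul_eq_mul]
    linarith
  have hLB : Large (θ + c₁ * η) fun N => B' N \ Finset.univ.biUnion fun i => E i N :=
    large_sdiff hexp hB'L _ hE2
  have hsubA : ∀ᶠ N in U, B' N \ Finset.univ.biUnion (fun i => E i N) ⊆ A N :=
    Eventually.of_forall fun N => Finset.sdiff_subset.trans (hB'A N)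
  have hGmem : G ∈ 𝔭 := by
    refine few_zeros y h.ne w θ₂ hmin h𝔭 hHB κ _ (inW_sub hA hsubA)
      (large_mono (by linarith) hLB) (van_sub hv hsubA) _ G hGhom ?_
    intro ν hν H hH
    rw [Set.mem_singleton_iff.mp hH]
    have h4 : ∀ᶠ N in U, ν N ∈ B' N := hν.mono fun N hN => (Finset.mem_sdiff.mp hN).1
    have h5 : ∀ i, ∀ᶠ N in U, ν N ∈ A N ∧ ν N ∉ E i N := fun i => hν.mono fun N hN =>
      ⟨hB'A N (Finset.mem_sdiff.mp hN).1, fun h6 => (Finset.mem_sdiff.mp hN).2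
        (Finset.mem_biUnion.mpr ⟨i, Finset.mem_univ i, h6⟩)⟩
    choose e he0 he using fun i => hrep i ν (h5 i)
    rw [hGdef, map_sum]
    have h6 : ∀ u, eval (pt y ν) (C (c u) * ∏ i, Φ i (φ u i)) =
        (∏ i, e i) * (c u * ∏ i, pt y (fun N => ν N + lam i N) (φ u i)) := by
      intro u
      rw [map_mul, eval_C, map_prod, Finset.prod_congr rfl fun i _ => he i (φ u i),
        Finset.prod_mul_distrib]
      ring
    rw [Finset.sum_congr rfl fun u _ => h6 u, ← Finset.mul_sum, hc ν h4, mul_zero]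
  exact hc0 (hφ c hGmem)

end Pool.Agent.GT
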